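import Pool.Agent.CGR.Stmts

/-!
# CGR: module CRC (the cross: conclusions for Chow groups)
-/

set_option autoImplicit false

open Polynomial CategoryTheory AlgebraicGeometry

namespace CGR

open Pool.Agent.Lib_helper55.Beil Pool.Agent.Lib_helper66.OneP CUB CUB.Asm CGAP

namespace CRC

/-- push-forward along a surjective homomorphism preserves rational equivalence -/
lemma push_rat {k A B E : Type} [Field k] [CommRing A] [CommRing B] [Algebra k A] [Algebra k B]
    [Field E] (φ : A →ₐ[k] B) (hφ : Function.Surjective φ) {n : ℕ} (c : RP k B n →₀ E)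
    (hc : c ∈ rat k B E n) : push E φ hφ c ∈ rat k A E n :=
  s_RON k A E n ⊥ (RingHom.ker φ.toRingHom) bot_le ((s_PUSH k A B E φ hφ n).2.2.1 c hc)

/-- pull-back to the affine line preserves rational equivalence -/
lemma pull_rat {k A E : Type} [Field k] [CommRing A] [Algebra k A] [Algebra.FiniteType k A]
    [Field E] (n : ℕ) (z : RP k A n →₀ E) (d : RP k A[X] (n + 1) →₀ E)
    (h : IsPull k E 1 (CC k A) z d) (hz : z ∈ rat k A E n) : d ∈ rat k A[X] E (n + 1) := by
  have h1 := s_FP k A A[X] E 1 n _ (s_GX.1 k A) ⊥ z d h hz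
  rw [Ideal.map_bot] at h1
  exact h1

/-- there is a linear pull-back map -/
lemma exists_D {k A E : Type} [Field k] [CommRing A] [Algebra k A] [Algebra.FiniteType k A]
    [Field E] (n : ℕ) : ∃ D : (RP k A n →₀ E) →ₗ[E] (RP k A[X] (n + 1) →₀ E),
    ∀ z, IsPull k E 1 (CC k A) z (D z) := by
  classical
  have h1 : ∀ p : RP k A n, ∃ d : RP k A[X] (n + 1) →₀ E,
      IsPull k E 1 (CC k A) (Finsupp.single p (1 : E)) d := fun p =>
    s_FPX k A A[X] E 1 n _ (s_GX.1 k A) (Finsupp.single p 1)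
  choose d hd using h1
  refine ⟨Finsupp.linearCombination E d, fun z => ?_⟩
  induction z using Finsupp.induction_linear with
  | zero =>
    rw [map_zero]
    intro P
    exact ⟨fun _ => rfl, fun _ => rfl⟩
  | add a b ha hb =>
    rw [map_add]
    exact (s_PLIN.1 k A A[X] E 1 n _ a b _ _ 1 ha hb).2.1
  | single p a =>
    rw [Finsupp.linearCombination_single]
    have h2 := (s_PLIN.1 k A A[X] E 1 n _ _ _ _ _ a (hd p) (hd p)).2.2.2.1
    rw [Finsupp.smul_single, smul_eq_mul, mul_one] at h2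
    exact h2

end CRC

theorem t_CRC : M_CRC := by
  intro hZ hJ k A C E _ _ _ _ _ _ _ _ _ K n
  constructor
  · intro hA c
    obtain ⟨z₁, z₂, d₁, d₂, h1, h2, h3⟩ := hZ k A C E K n c
    have e1 := CRC.push_rat K.φ K.hφ d₁ (CRC.pull_rat n z₁ d₁ h1 (hA z₁))
    have e2 := CRC.push_rat K.ψ K.hψ d₂ (CRC.pull_rat n z₂ d₂ h2 (hA z₂))
    have h4 := Submodule.add_mem _ h3 (Submodule.add_mem _ e1 e2)
    rw [sub_add_cancel] at h4
    exact h4
  · obtain ⟨D, hD⟩ := CRC.exists_D (k := k) (A := A) (E := E) n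
    refine ⟨((push E K.φ K.hφ).comp D).comp (LinearMap.fst E _ _) +
      ((push E K.ψ K.hψ).comp D).comp (LinearMap.snd E _ _), fun z => ?_⟩
    constructor
    · intro hz
      exact hJ k A C E K n z.1 z.2 (D z.1) (D z.2) (hD z.1) (hD z.2) hz
    · intro hz
      exact Submodule.add_mem _
        (CRC.push_rat K.φ K.hφ (D z.1) (CRC.pull_rat n z.1 (D z.1) (hD z.1) hz.1))
        (CRC.push_rat K.ψ K.hψ (D z.2) (CRC.pull_rat n z.2 (D z.2) (hD z.2) hz.2))

end CGR
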