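import Pool.Agent.CGR.Stmts

/-!
# CGR: the cross doubles the ranks (CRG)
-/

set_option autoImplicit false

open Polynomial CategoryTheory AlgebraicGeometry Cardinal

namespace CGR

open Pool.Agent.Lib_helper55.Beil Pool.Agent.Lib_helper66.OneP CUB CGAP

universe v

namespace CRG

variable {k : Type} [Field k] {E : Type} [Field E]

/-- An injective map from two copies of the Chow group. -/
lemma chow_map {A C : Type} [CommRing A] [CommRing C] [Algebra k A] [Algebra k C]
    [Algebra.FiniteType k A] [Algebra.FiniteType k C] {i j : ℕ}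
    (L : ((RP k A i →₀ E) × (RP k A i →₀ E)) →ₗ[E] (RP k C j →₀ E))
    (hL : ∀ z, L z ∈ rat k C E j ↔ z.1 ∈ rat k A E i ∧ z.2 ∈ rat k A E i) :
    ∃ N : (Chow E i (aff k A) × Chow E i (aff k A)) →ₗ[E] Chow E j (aff k C),
      Function.Injective N := by
  let L1 : (Pts i (aff k A) →₀ E) →ₗ[E] (Pts j (aff k C) →₀ E) :=
    (cyE (k := k) (A := C) E j).toLinearMap ∘ₗ L ∘ₗ LinearMap.inl E _ _ ∘ₗ
      (cyE (k := k) (A := A) E i).symm.toLinearMap
  let L2 : (Pts i (aff k A) →₀ E) →ₗ[E] (Pts j (aff k C) →₀ E) :=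
    (cyE (k := k) (A := C) E j).toLinearMap ∘ₗ L ∘ₗ LinearMap.inr E _ _ ∘ₗ
      (cyE (k := k) (A := A) E i).symm.toLinearMap
  have e1 : ∀ c, L1 (cyE (k := k) (A := A) E i c) = cyE (k := k) (A := C) E j (L (c, 0)) := by
    intro c
    simp only [L1, LinearMap.comp_apply, LinearEquiv.coe_coe, LinearEquiv.symm_apply_apply,
      LinearMap.inl_apply]
  have e2 : ∀ c, L2 (cyE (k := k) (A := A) E i c) = cyE (k := k) (A := C) E j (L (0, c)) := by
    intro c
    simp only [L2, LinearMap.comp_apply, LinearEquiv.coe_coe, LinearEquiv.symm_apply_apply,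
      LinearMap.inr_apply]
  have hle1 : ratZero E i (aff k A) ≤ (ratZero E j (aff k C)).comap L1 := by
    intro c hc
    obtain ⟨c, rfl⟩ := (cyE (k := k) (A := A) E i).surjective c
    rw [Submodule.mem_comap, e1]
    exact (cyE_mem _).mpr ((hL (c, 0)).mpr ⟨(cyE_mem c).mp hc, Submodule.zero_mem _⟩)
  have hle2 : ratZero E i (aff k A) ≤ (ratZero E j (aff k C)).comap L2 := by
    intro c hc
    obtain ⟨c, rfl⟩ := (cyE (k := k) (A := A) E i).surjective c
    rw [Submodule.mem_comap, e2]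
    exact (cyE_mem _).mpr ((hL (0, c)).mpr ⟨Submodule.zero_mem _, (cyE_mem c).mp hc⟩)
  refine ⟨(Submodule.mapQ _ _ L1 hle1).coprod (Submodule.mapQ _ _ L2 hle2), ?_⟩
  rw [injective_iff_map_eq_zero]
  rintro ⟨a, b⟩ hab
  obtain ⟨c, rfl⟩ := Submodule.mkQ_surjective _ a
  obtain ⟨c, rfl⟩ := (cyE (k := k) (A := A) E i).surjective c
  obtain ⟨d, rfl⟩ := Submodule.mkQ_surjective _ b
  obtain ⟨d, rfl⟩ := (cyE (k := k) (A := A) E i).surjective d
  rw [LinearMap.coprod_apply, Submodule.mkQ_apply, Submodule.mkQ_apply, Submodule.mapQ_apply,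
    Submodule.mapQ_apply, e1, e2, ← Submodule.Quotient.mk_add, Submodule.Quotient.mk_eq_zero,
    ← map_add, ← map_add, Prod.mk_add_mk, add_zero, zero_add] at hab
  have h := (hL (c, d)).mp ((cyE_mem _).mp hab)
  have hc : (ratZero E i (aff k A)).mkQ (cyE (k := k) (A := A) E i c) = 0 := by
    rw [Submodule.mkQ_apply, Submodule.Quotient.mk_eq_zero]
    exact (cyE_mem c).mpr h.1
  have hd : (ratZero E i (aff k A)).mkQ (cyE (k := k) (A := A) E i d) = 0 := by
    rw [Submodule.mkQ_apply, Submodule.Quotient.mk_eq_zero]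
    exact (cyE_mem d).mpr h.2
  exact Prod.ext hc hd

/-- An injective map from two copies of the invariants. -/
lemma inv_map {i j : ℕ} (T : Homology.{v} k E i) (T' : Homology.{v} k E j) {X Y : Var k}
    (M : (T.H (2 * i) X × T.H (2 * i) X) →ₗ[E] T'.H (2 * j) Y) (hM : Function.Injective M)
    (hMF : ∀ a b, M (T.F (2 * i) _ a, T.F (2 * i) _ b) = T'.F (2 * j) _ (M (a, b))) :
    ∃ N : (invariants T X × invariants T X) →ₗ[E] invariants T' Y, Function.Injective N := by
  let M0 : (invariants T X × invariants T X) →ₗ[E] T'.H (2 * j) Y :=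
    M ∘ₗ LinearMap.prodMap (invariants T X).subtype (invariants T X).subtype
  have hM0 : ∀ a, M0 a = M ((a.1 : T.H (2 * i) X), (a.2 : T.H (2 * i) X)) := fun a => rfl
  refine ⟨LinearMap.codRestrict (invariants T' Y) M0 ?_, ?_⟩
  · rintro ⟨a, b⟩
    rw [mem_invariants, hM0]
    have ha := (mem_invariants T X (a : T.H (2 * i) X)).mp a.2
    have hb := (mem_invariants T X (b : T.H (2 * i) X)).mp b.2
    have h5 := hMF (a : T.H (2 * i) X) (b : T.H (2 * i) X)
    exact h5.symm.trans (congrArg M (Prod.ext ha hb))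
  · intro a b hab
    have h1 : M0 a = M0 b := congrArg Subtype.val hab
    rw [hM0, hM0] at h1
    have h2 := hM h1
    rw [Prod.mk.injEq] at h2
    exact Prod.ext (Subtype.ext h2.1) (Subtype.ext h2.2)

end CRG

open CRG in
theorem t_CRG : M_CRG.{v} := by
  intro hC hH k E _ _ _ T hT A C _ _ _ _ _ _ K i
  obtain ⟨h1, L, hL⟩ := hC k A C E K i
  obtain ⟨⟨M, hM, hMF⟩, h6⟩ := hH k E T hT A C K i
  refine ⟨?_, ?_, ?_, ?_⟩
  · intro hz c
    obtain ⟨c, rfl⟩ := (cyE (k := k) (A := C) E (i + 1)).surjective c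
    refine (cyE_mem c).mpr (h1 (fun z => ?_) c)
    exact (cyE_mem z).mp (hz _)
  · intro hc x
    obtain ⟨p, rfl⟩ := (ptE (k := k) (A := C) (i + 1)).surjective x
    have h7 := h6 (fun z => by
      induction z using Finsupp.induction_linear with
      | zero => exact map_zero _
      | add c d hc hd => rw [map_add, hc, hd, add_zero]
      | single q y => rw [cls_single, hc, smul_zero]) (Finsupp.single p 1)
    rwa [cls_single, one_smul] at h7
  · obtain ⟨N, hN⟩ := chow_map L hL
    have h := LinearMap.rank_le_of_injective N hN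
    rw [rank_prod', ← two_mul] at h
    exact_mod_cast h
  · obtain ⟨N, hN⟩ := inv_map (T i) (T (i + 1)) M hM hMF
    have h := LinearMap.finrank_le_finrank_of_injective hN
    rw [Module.finrank_prod, ← two_mul] at h
    exact h

end CGR
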