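import Pool.Agent.CGR.Stmts

/-!
# CGR, module CRH: the homology of the cross
-/

set_option autoImplicit false

open Polynomial CategoryTheory AlgebraicGeometry Cardinal

namespace CGR

open Pool.Agent.Lib_helper55.Beil Pool.Agent.Lib_helper66.OneP CUB CGAP

universe v

namespace CRH

/-- The square of a monomorphism and its composition with a morphism is a pullback. -/
lemma pb_mono {U X Y : Scheme.{0}} (j : U ⟶ X) (f : X ⟶ Y) [Mono f] (l : U ⟶ Y)
    (h : j ≫ f = l) : IsPullback j (𝟙 U) f l := by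
  subst h
  refine IsPullback.of_isLimit' ⟨by simp⟩ ?_
  refine Limits.PullbackCone.IsLimit.mk _ (fun s => s.snd) (fun s => ?_) (fun s => ?_)
    (fun s m h1 h2 => ?_)
  · rw [← cancel_mono f, Category.assoc]
    exact s.condition.symm
  · exact Category.comp_id _
  · rw [← h2]
    exact (Category.comp_id _).symm

variable {k : Type} [Field k] {E : Type} [Field E] (T : ∀ i : ℕ, Homology.{v} k E i)

/-- Restriction after the push-forward along a closed immersion which is an isomorphism over the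
open subvariety. -/
lemma res_push (hT : Full T) (i n : ℕ) {U X Y : Var k} (a : ClosedIn X Y) (j : OpenIn U X)
    (l : OpenIn U Y) (h : j.g ≫ a.g = l.g) (m : (T i).H n X) :
    (T i).R n l ((T i).P n a m) = (T i).R n j m := by
  have hpb : IsPullback j.g (clPr (idIn U)).g (clPr a).g l.g := pb_mono j.g a.g l.g h
  have h1 := hT.pfRestriction i n (clPr a) (clPr (idIn U)) j l hpb m
  rw [hT.pfClosed i n a (clPr a) rfl, hT.pfClosed i n (idIn U) (clPr (idIn U)) rfl,
    hT.push_id i n U (idIn U) rfl] at h1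
  exact h1

variable {A C : Type} [CommRing A] [CommRing C] [Algebra k A] [Algebra k C]
  [Algebra.FiniteType k A] [Algebra.FiniteType k C]

/-- The map for the first line. -/
noncomputable def side (hT : Full T) (φ : C →ₐ[k] A[X]) (hφ : Function.Surjective φ) (i : ℕ) :
    (T i).H (2 * i) (aff k A) →ₗ[E] (T (i + 1)).H (2 * (i + 1)) (aff k C) :=
  ((T (i + 1)).push (2 * (i + 1)) (clo φ hφ)).comp (hT.line i (2 * i) (lineX A))

lemma side_apply (hT : Full T) (φ : C →ₐ[k] A[X]) (hφ : Function.Surjective φ) (i : ℕ)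
    (a : (T i).H (2 * i) (aff k A)) :
    side T hT φ hφ i a =
      (T (i + 1)).P (2 * (i + 1)) (clo φ hφ) (hT.line i (2 * i) (lineX A) a) := rfl

lemma side_frob (hT : Full T) (φ : C →ₐ[k] A[X]) (hφ : Function.Surjective φ) (i : ℕ)
    (a : (T i).H (2 * i) (aff k A)) :
    side T hT φ hφ i ((T i).F (2 * i) _ a) =
      (T (i + 1)).F (2 * (i + 1)) _ (side T hT φ hφ i a) := by
  rw [side_apply, side_apply, hT.line_frob]
  exact (T (i + 1)).equivariant.1 (2 * (i + 1)) _ _ (clo φ hφ) _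

lemma side_cls (hT : Full T) (φ : C →ₐ[k] A[X]) (hφ : Function.Surjective φ) (i : ℕ)
    (z : RP k A i →₀ E) (d : RP k A[X] (i + 1) →₀ E) (h : IsPull k E 1 (CUB.CC k A) z d) :
    CUB.cls T (i + 1) (push E φ hφ d) = side T hT φ hφ i (CUB.cls T i z) := by
  have h1 := line_cls T hT.toExtra (CUB.CC k A) (RingEquiv.refl _) (fun _ => rfl) z d h
  have h2 := cls_push T (i + 1) φ hφ d
  rw [← h2, ← h1]
  rfl

/-- The sum of the maps for the two lines is injective: first component. -/
lemma inj_fst (hT : Full T) (hCRV : S_CRV) (hZSA : S_ZSA.{v}) (K : Cross k A C) (i : ℕ)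
    (a b : (T i).H (2 * i) (aff k A))
    (h : side T hT K.φ K.hφ i a + side T hT K.ψ K.hψ i b = 0) : a = 0 := by
  have hμ := isLocalization_awayHom (k := k) (X : A[X])
  have hoμ := isOpenImmersion_spm (awayHom k (X : A[X])) (X : A[X]) hμ
  have hy := hCRV k A (Localization.Away (X : A[X])) C K (awayHom k (X : A[X])) hμ
  have hc := complementary_away ((awayHom k (X : A[X])).comp K.φ) K.y hy K.ψ K.hψ K.kψ
  have hoy := isOpenImmersion_spm ((awayHom k (X : A[X])).comp K.φ) K.y hy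
  have e2 : (T (i + 1)).R (2 * (i + 1)) (opn ((awayHom k (X : A[X])).comp K.φ) hoy)
      (side T hT K.ψ K.hψ i b) = 0 :=
    (((T (i + 1)).localisation (2 * (i + 1)) _ _ _ _ _ hc).1 _).mpr ⟨_, rfl⟩
  have e1 : (T (i + 1)).R (2 * (i + 1)) (opn ((awayHom k (X : A[X])).comp K.φ) hoy)
      (side T hT K.φ K.hφ i a) =
      (T (i + 1)).R (2 * (i + 1)) (opn (awayHom k (X : A[X])) hoμ)
        (hT.line i (2 * i) (lineX A) a) := by
    rw [side_apply]
    exact res_push T hT (i + 1) (2 * (i + 1)) (clo K.φ K.hφ) (opn (awayHom k (X : A[X])) hoμ)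
      (opn ((awayHom k (X : A[X])).comp K.φ) hoy) (by
        change spm (awayHom k (X : A[X])) ≫ spm K.φ = spm ((awayHom k (X : A[X])).comp K.φ)
        rw [spm_comp]) _
  have e3 : (T (i + 1)).res (2 * (i + 1)) (opn ((awayHom k (X : A[X])).comp K.φ) hoy)
      (side T hT K.φ K.hφ i a + side T hT K.ψ K.hψ i b) = 0 := by
    rw [h, map_zero]
  rw [map_add] at e3
  have e4 : (T (i + 1)).R (2 * (i + 1)) (opn ((awayHom k (X : A[X])).comp K.φ) hoy)
      (side T hT K.φ K.hφ i a) + (T (i + 1)).R (2 * (i + 1))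
        (opn ((awayHom k (X : A[X])).comp K.φ) hoy) (side T hT K.ψ K.hψ i b) = 0 := e3
  rw [e2, add_zero, e1] at e4
  have e5 := hZSA k E T hT A (Localization.Away (X : A[X])) (awayHom k (X : A[X])) hμ hoμ i (2 * i)
    (hT.line i (2 * i) (lineX A) a) e4
  apply (hT.line_bij i (2 * i) (lineX A)).injective
  rw [e5, map_zero]

end CRH

theorem t_CRH : M_CRH.{v} := by
  intro hCRV hCRZ hZSA k E _ _ T hT A C _ _ _ _ _ _ K i
  refine ⟨⟨(CRH.side T hT K.φ K.hφ i).comp (LinearMap.fst E _ _) +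
    (CRH.side T hT K.ψ K.hψ i).comp (LinearMap.snd E _ _), ?_, ?_⟩, ?_⟩
  · rw [injective_iff_map_eq_zero]
    rintro ⟨a, b⟩ hab
    have h1 : CRH.side T hT K.φ K.hφ i a + CRH.side T hT K.ψ K.hψ i b = 0 := hab
    have h2 : CRH.side T hT K.swap.φ K.swap.hφ i b + CRH.side T hT K.swap.ψ K.swap.hψ i a = 0 :=
      (add_comm _ _).trans h1
    have ha := CRH.inj_fst T hT hCRV hZSA K i a b h1
    have hb := CRH.inj_fst T hT hCRV hZSA K.swap i b a h2
    rw [ha, hb]
    rfl
  · intro a b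
    change CRH.side T hT K.φ K.hφ i ((T i).F (2 * i) _ a) +
      CRH.side T hT K.ψ K.hψ i ((T i).F (2 * i) _ b) =
      (T (i + 1)).frob (2 * (i + 1)) _ (CRH.side T hT K.φ K.hφ i a + CRH.side T hT K.ψ K.hψ i b)
    rw [map_add, CRH.side_frob, CRH.side_frob]
    rfl
  · intro hz c
    obtain ⟨z₁, z₂, d₁, d₂, h1, h2, h3⟩ := hCRZ k A C E K i c
    have e1 := cls_rat T (i + 1) _ h3
    rw [map_sub, map_add, CRH.side_cls T hT K.φ K.hφ i z₁ d₁ h1,
      CRH.side_cls T hT K.ψ K.hψ i z₂ d₂ h2, hz, hz, map_zero, map_zero, add_zero, sub_zero] at e1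
    exact e1

end CGR
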