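import Pool.Agent.CGR.Stmts

/-!
# CGR: module CRJ (the cycles on the two lines of the cross are independent)
-/

set_option autoImplicit false

open Polynomial

namespace CGR

open CUB CGAP CUB.Asm

namespace CRJ

/-- the first component of a cycle on the cross which is rationally equivalent to zero -/
lemma one (hV : S_CRV) (hG : S_GMI) {k A C E : Type} [Field k] [PerfectField k] [CommRing A]
    [CommRing C] [Algebra k A] [Algebra k C] [Algebra.FiniteType k A] [Algebra.FiniteType k C]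
    [Field E] (K : Cross k A C) (n : ℕ) (z₁ : RP k A n →₀ E) (d₁ d₂ : RP k A[X] (n + 1) →₀ E)
    (h1 : IsPull k E 1 (CC k A) z₁ d₁)
    (h : push E K.φ K.hφ d₁ + push E K.ψ K.hψ d₂ ∈ rat k C E (n + 1)) :
    z₁ ∈ rat k A E n := by
  have hfin : Algebra.FiniteType k (Localization.Away (X : A[X])) :=
    Algebra.FiniteType.trans (S := A[X]) inferInstance
      (IsLocalization.finiteType_of_monoid_fg (Submonoid.powers (X : A[X])) _)
  have hμ := GVR.isLoc k (X : A[X])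
  have hν := hV k A (Localization.Away (X : A[X])) C K (GVR.locA k (X : A[X])) hμ
  have gμ : Good k 0 (GVR.locA k (X : A[X])) := s_GLO k _ _ (GVR.locA k (X : A[X])) X hμ
  have gν : Good k 0 ((GVR.locA k (X : A[X])).comp K.φ) :=
    s_GLO k _ _ ((GVR.locA k (X : A[X])).comp K.φ) K.y hν
  obtain ⟨d', hd'⟩ := s_FPX k C (Localization.Away (X : A[X])) E 0 (n + 1)
    ((GVR.locA k (X : A[X])).comp K.φ) gν (push E K.φ K.hφ d₁ + push E K.ψ K.hψ d₂)
  have hr := s_FP k C (Localization.Away (X : A[X])) E 0 (n + 1)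
    ((GVR.locA k (X : A[X])).comp K.φ) gν ⊥ _ d' hd' h
  rw [Ideal.map_bot] at hr
  refine hG k A (Localization.Away (X : A[X])) E (GVR.locA k (X : A[X])) hμ n z₁ d₁ d' h1 ?_ hr
  rw [LOC.isPull_iff gμ]
  intro P
  have e1 := (LOC.isPull_iff gν (n + 1) _ d').1 hd' P
  rw [e1]
  have e2 : LOC.iota gν (n + 1) P = pushP K.φ K.hφ (LOC.iota gμ (n + 1) P) := rfl
  have e3 : push E K.ψ K.hψ d₂ (pushP K.φ K.hφ (LOC.iota gμ (n + 1) P)) = 0 := by
    refine PBC.push_notin K.ψ K.hψ d₂ _ fun hk => ?_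
    have hy : K.y ∈ RingHom.ker K.ψ.toRingHom := by
      rw [K.kψ]
      exact Ideal.mem_span_singleton_self _
    have h2 : K.φ K.y ∈ (LOC.iota gμ (n + 1) P).1.asIdeal := hk hy
    rw [K.φy] at h2
    exact LOC.a_notMem hμ P.1 h2
  rw [e2, Finsupp.add_apply, PBC.push_apply, e3, add_zero]

end CRJ

theorem t_CRJ : M_CRJ := by
  intro hV hG k A C E _ _ _ _ _ _ _ _ _ K n z₁ z₂ d₁ d₂ h1 h2 h
  have e : push E K.ψ K.hψ d₂ + push E K.φ K.hφ d₁ = push E K.φ K.hφ d₁ + push E K.ψ K.hψ d₂ :=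
    add_comm _ _
  refine ⟨CRJ.one hV hG K n z₁ d₁ d₂ h1 h, CRJ.one hV hG K.swap n z₂ d₂ d₁ h2 ?_⟩
  show push E K.ψ K.hψ d₂ + push E K.φ K.hφ d₁ ∈ rat k C E (n + 1)
  rw [e]
  exact h

end CGR
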