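import Pool.Agent.CGR.Stmts

/-!
# CGR, module CRV
-/

set_option autoImplicit false

open Polynomial CategoryTheory AlgebraicGeometry Cardinal

namespace CGR

open Pool.Agent.Lib_helper55.Beil Pool.Agent.Lib_helper66.OneP CUB CGAP

theorem t_CRV : S_CRV := by
  intro k A B C _ _ _ _ _ _ _ K μ hμ
  let i1 : Algebra A[X] B := μ.toRingHom.toAlgebra
  let i2 : Algebra C B := (μ.comp K.φ).toRingHom.toAlgebra
  have h1 : ∀ a, algebraMap A[X] B a = μ a := fun _ => rfl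
  have h2 : ∀ c, algebraMap C B c = μ (K.φ c) := fun _ => rfl
  have hL : IsLocalization.Away (X : A[X]) B := hμ
  have hy : ∀ n : ℕ, K.φ (K.y ^ n) = X ^ n := fun n => by rw [map_pow, K.φy]
  have hu : IsUnit (μ (X : A[X])) := IsLocalization.Away.algebraMap_isUnit (S := B) (X : A[X])
  refine (isLocalization_iff _ _).2 ⟨?_, ?_, ?_⟩
  · rintro ⟨_, n, rfl⟩
    change IsUnit (algebraMap C B (K.y ^ n))
    rw [h2, hy, map_pow]
    exact hu.pow n
  · intro b
    obtain ⟨⟨a, ⟨_, n, rfl⟩⟩, hb⟩ := IsLocalization.surj (Submonoid.powers (X : A[X])) b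
    obtain ⟨c, rfl⟩ := K.hφ a
    refine ⟨⟨c, ⟨K.y ^ n, n, rfl⟩⟩, ?_⟩
    change b * algebraMap C B (K.y ^ n) = algebraMap C B c
    rw [h2, h2, hy]
    exact hb
  · intro c₁ c₂ h
    rw [h2, h2] at h
    obtain ⟨⟨_, n, rfl⟩, hn⟩ :=
      (IsLocalization.eq_iff_exists (Submonoid.powers (X : A[X])) B).1 (show
        algebraMap A[X] B (K.φ c₁) = algebraMap A[X] B (K.φ c₂) from h)
    change X ^ n * K.φ c₁ = X ^ n * K.φ c₂ at hn
    have h3 : K.y ^ n * (c₁ - c₂) ∈ RingHom.ker K.φ.toRingHom := by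
      rw [RingHom.mem_ker]
      change K.φ (K.y ^ n * (c₁ - c₂)) = 0
      rw [map_mul, map_sub, hy, mul_sub, hn, sub_self]
    rw [K.kφ, Ideal.mem_span_singleton'] at h3
    obtain ⟨d, hd⟩ := h3
    refine ⟨⟨K.y ^ (n + 1), n + 1, rfl⟩, ?_⟩
    change K.y ^ (n + 1) * c₁ = K.y ^ (n + 1) * c₂
    have h4 : K.y ^ (n + 1) * (c₁ - c₂) = 0 := by
      rw [pow_succ', mul_assoc, ← hd]
      calc K.y * (d * K.x) = d * (K.x * K.y) := by ring
        _ = 0 := by rw [K.xy, mul_zero]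
    rw [mul_sub] at h4
    exact sub_eq_zero.1 h4

end CGR
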