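import Pool.Agent.CGR.Stmts
import Pool.Agent.CGAP.VCH

/-!
# CGR: module CRZ (cycles on the cross)
-/

set_option autoImplicit false

open Polynomial CategoryTheory AlgebraicGeometry

namespace CGR

open Pool.Agent.Lib_helper55.Beil Pool.Agent.Lib_helper66.OneP CUB CGAP CUB.Asm

theorem t_CRZ : S_CRZ := by
  classical
  intro k A C E _ _ _ _ _ _ _ _ K n c
  have h1 : SuppOn k E (RingHom.ker K.φ.toRingHom)
      (c.filter fun P : RP k C (n + 1) => K.x ∈ P.1.asIdeal) := by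
    intro p hp
    rw [Finsupp.filter_apply] at hp
    have hx : K.x ∈ p.1.asIdeal := by
      by_contra h
      exact hp (if_neg h)
    rw [K.kφ, Ideal.span_le]
    intro a ha
    rw [Set.mem_singleton_iff] at ha
    rw [ha]
    exact hx
  have h2 : SuppOn k E (RingHom.ker K.ψ.toRingHom)
      (c.filter fun P : RP k C (n + 1) => ¬ K.x ∈ P.1.asIdeal) := by
    intro p hp
    rw [Finsupp.filter_apply] at hp
    have hx : ¬ K.x ∈ p.1.asIdeal := fun h => hp (if_neg (not_not.2 h))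
    have hxy : K.x * K.y ∈ p.1.asIdeal := by
      rw [K.xy]
      exact Ideal.zero_mem _
    rw [K.kψ, Ideal.span_le]
    intro a ha
    rw [Set.mem_singleton_iff] at ha
    rw [ha]
    exact (p.1.isPrime.mem_or_mem hxy).resolve_left hx
  obtain ⟨c₁, hc₁⟩ := ((s_PUSH k C A[X] E K.φ K.hφ (n + 1)).2.2.2.1 _).1 h1
  obtain ⟨c₂, hc₂⟩ := ((s_PUSH k C A[X] E K.ψ K.hψ (n + 1)).2.2.2.1 _).1 h2
  obtain ⟨z₁, d₁, hd₁, he₁⟩ := (s_L0 k A E).1 n c₁
  obtain ⟨z₂, d₂, hd₂, he₂⟩ := (s_L0 k A E).1 n c₂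
  refine ⟨z₁, z₂, d₁, d₂, hd₁, hd₂, ?_⟩
  have g1 := VCH.push_rat K.φ K.hφ (c₁ - d₁) he₁
  have g2 := VCH.push_rat K.ψ K.hψ (c₂ - d₂) he₂
  rw [map_sub, hc₁] at g1
  rw [map_sub, hc₂] at g2
  have g3 := Submodule.add_mem _ g1 g2
  have g4 : c - (push E K.φ K.hφ d₁ + push E K.ψ K.hψ d₂) =
      (c.filter fun P : RP k C (n + 1) => K.x ∈ P.1.asIdeal) - push E K.φ K.hφ d₁ +
      ((c.filter fun P : RP k C (n + 1) => ¬ K.x ∈ P.1.asIdeal) - push E K.ψ K.hψ d₂) := by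
    conv_lhs => rw [← Finsupp.filter_add_filter_not c
      (fun P : RP k C (n + 1) => K.x ∈ P.1.asIdeal)]
    abel
  rw [g4]
  exact g3

end CGR
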