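import Pool.Agent.CGR.Stmts
import Pool.Agent.CGAP.Fin

/-!
# CGR: the module FMG
-/

set_option autoImplicit false

open Polynomial CategoryTheory AlgebraicGeometry Cardinal

namespace CGR

open Pool.Agent.Lib_helper55.Beil Pool.Agent.Lib_helper66.OneP CUB CGAP

universe v

namespace FMG

variable {k : Type} [Field k] {E : Type} [Field E] {T : ∀ i : ℕ, Homology.{v} k E i}

lemma grow_refl (i : ℕ) (X : Var k) : Grow T i i 1 X X := by
  refine ⟨id, id, ?_, ?_⟩
  · rw [Nat.cast_one, one_mul]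
  · rw [one_mul]

lemma grow_comp {i j l N M : ℕ} {X Y Z : Var k} (h : Grow T i j N X Y) (h' : Grow T j l M Y Z) :
    Grow T i l (N * M) X Z := by
  refine ⟨fun a => h'.cz (h.cz a), fun a => h'.clz (h.clz a), ?_, ?_⟩
  · rw [Nat.cast_mul, mul_comm (N : Cardinal), mul_assoc]
    exact (mul_le_mul_right h.chow _).trans h'.chow
  · rw [mul_comm N, mul_assoc]
    exact (Nat.mul_le_mul_left _ h.inv).trans h'.inv

lemma grow_of_ctl {i j : ℕ} {X V : Var k} (h : Ctl T i j X V) : Grow T i j 1 X V := by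
  refine ⟨h.cz, h.clz, ?_, ?_⟩
  · rw [Nat.cast_one, one_mul]
    exact CGAP.Fin.Ctl.chow_le h
  · rw [one_mul]
    exact CGAP.Fin.Ctl.inv_le h

lemma ctl_refl (i : ℕ) (X : Var k) : Ctl T i i X X :=
  ⟨id, ⟨LinearMap.id, Function.injective_id⟩, ⟨LinearMap.id, Function.injective_id⟩,
    fun _ => id, id⟩

lemma iter (hG : S_CRG.{v}) (hD : S_GDC) [PerfectField k] (hT : Full T) (A : Type) [CommRing A]
    [Algebra k A] [Algebra.FiniteType k A] (B : Set k) (N M : ℕ)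
    (h : HG.Good k A B (Fin N) (Fin M)) (i j : ℕ) :
    ∃ (C : Type) (_ : CommRing C) (_ : Algebra k C) (_ : Algebra.FiniteType k C),
      HG.Good k C B (Fin (N + 2 * j)) (Fin (M + j)) ∧
        Grow T i (i + j) (2 ^ j) (aff k A) (aff k C) := by
  induction j with
  | zero =>
    refine ⟨A, _, _, ‹_›, h.reindex (finCongr (by omega)) (finCongr (by omega)), ?_⟩
    exact grow_refl i (aff k A)
  | succ j ih =>
    obtain ⟨C, _, _, _, h1, h2⟩ := ih
    obtain ⟨C', _, _, _, ⟨K⟩, h3⟩ := hD k C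
    refine ⟨C', _, _, ‹_›, (h3 B _ _ h1).reindex (finCongr (by omega)) (finCongr (by omega)), ?_⟩
    rw [pow_succ]
    exact grow_comp h2 (hG k E T hT C C' K (i + j))

end FMG

open FMG in
theorem t_FMG : M_FMG.{v} := by
  intro hC hH hR hA hG hD k E _ _ _ _ B hB T hT i X hXa
  have : IsAffine X.X := hXa
  obtain ⟨A, _, _, _, ⟨s⟩⟩ := exists_aff X
  obtain ⟨n, N, m, h3n, h2, hiN, hgood⟩ := HG.exists_good k A B hB (Set.toFinite B) i
  refine ⟨n, fun j => ?_⟩
  obtain ⟨C, _, _, _, hg', hgrow⟩ := iter hG hD hT A B N (m + 1) hgood i j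
  have hg2 : HG.Good k C B (Fin (N + 2 * j)) (Fin (m + j + 1)) :=
    hg'.reindex (finCongr rfl) (finCongr (by omega))
  obtain ⟨f', φ', H', b', hφ', hk', hf', hc'⟩ := hg2
  obtain ⟨H, c, h1, h0, ⟨e⟩⟩ := HG.cuv3 k B (N + 2 * j) (m + j + 1) (n + j) (by omega) f' H' b'
    hf' hc'
  have hs : Smooth (cubic (hyp H c)).f :=
    Asm.s_SMI k _ _ e.symm (Asm.s_SMO k _ _ f')
  have hz : ∀ z : RP k (MvPolynomial (Fin (N + 2 * j)) k) (i + j) →₀ E,
      z ∈ rat k (MvPolynomial (Fin (N + 2 * j)) k) E (i + j) :=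
    fun z => Asm.s_ZPOL k E (N + 2 * j) (i + j) (by omega) z
  obtain ⟨c1, c2⟩ := hC k (MvPolynomial (Fin (N + 2 * j)) k) C E (m + j) (i + j) f' φ' hφ' hk' hz
  obtain ⟨d1, d2, d3⟩ := hH k E T hT.toExtra (MvPolynomial (Fin (N + 2 * j)) k) C (m + j) (i + j)
    f' φ' hφ' hk' hz
  have h5 : Ctl T (i + j) (i + j + (m + j + 1)) (aff k C)
      (aff k (VR (MvPolynomial (Fin (N + 2 * j)) k) f')) :=
    hA k E T C (VR (MvPolynomial (Fin (N + 2 * j)) k) f') (i + j) (i + j + (m + j + 1))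
      c1 c2 d1 d2 d3
  have h6 : Ctl T i i X (aff k A) :=
    hR k E T i i X (aff k A) (aff k A) (aff k A) s.symm (VIso.refl _) (ctl_refl i _)
  have h7 : Ctl T (i + j) (i + j + (m + j + 1)) (aff k C) (cubic (hyp H c)) :=
    hR k E T (i + j) (i + j + (m + j + 1)) (aff k C) (aff k C)
      (aff k (VR (MvPolynomial (Fin (N + 2 * j)) k) f')) (cubic (hyp H c)) (VIso.refl _) (viso e) h5
  refine ⟨H, c, h1, h0, hs, ?_⟩
  have h8 : 2 * (n + j) = i + j + (m + j + 1) := by omega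
  rw [h8]
  have h9 := grow_comp (grow_comp (grow_of_ctl h6) hgrow) (grow_of_ctl h7)
  rwa [one_mul, mul_one] at h9

end CGR
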