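import Pool.Agent.CGR.Stmts

/-!
# CGR, module GDC: the ring of the cross and its presentation
-/

set_option autoImplicit false

open Polynomial

namespace CGR

namespace GDC

open MvPolynomial CUB

section ring

variable (A : Type) [CommRing A]

/-- the equation of the cross -/
noncomputable abbrev I2 : Ideal (MvPolynomial (Fin 2) A) := Ideal.span {MvPolynomial.X 0 * MvPolynomial.X 1}

/-- the ring of the cross -/
abbrev CR : Type := MvPolynomial (Fin 2) A ⧸ I2 A

/-- the two coordinates -/
noncomputable def co (i : Fin 2) : CR A := Ideal.Quotient.mk (I2 A) (MvPolynomial.X i)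

lemma co_mul : co A 0 * co A 1 = 0 := by
  unfold co
  rw [← map_mul]
  exact Ideal.Quotient.eq_zero_iff_mem.2 (Ideal.subset_span rfl)

/-- the values of the coordinates on the line `X i = 0` -/
noncomputable def va (i : Fin 2) (t : Fin 2) : A[X] := if t = i then 0 else Polynomial.X

lemma va_mul (i : Fin 2) : va A i 0 * va A i 1 = 0 := by
  unfold va
  fin_cases i <;> simp

/-- the functions on the line `X i = 0` -/
noncomputable def ph (i : Fin 2) : CR A →ₐ[A] A[X] :=
  Ideal.Quotient.liftₐ (I2 A) (MvPolynomial.aeval (va A i)) (by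
    intro a ha
    have h : I2 A ≤ RingHom.ker (MvPolynomial.aeval (R := A) (va A i)).toRingHom := by
      rw [Ideal.span_le]
      rintro _ rfl
      change MvPolynomial.aeval (va A i) (MvPolynomial.X 0 * MvPolynomial.X 1) = 0
      rw [map_mul, MvPolynomial.aeval_X, MvPolynomial.aeval_X, va_mul]
    exact RingHom.mem_ker.1 (h ha))

lemma ph_co (i t : Fin 2) : ph A i (co A t) = va A i t := by
  have h : ph A i (co A t) = MvPolynomial.aeval (va A i) (MvPolynomial.X t) := rfl
  rw [h, MvPolynomial.aeval_X]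

/-- the section -/
noncomputable def se (i : Fin 2) : A[X] →ₐ[A] CR A := Polynomial.aeval (co A (i + 1))

lemma ph_se (i : Fin 2) (p : A[X]) : ph A i (se A i p) = p := by
  have h : (ph A i).comp (se A i) = AlgHom.id A _ := by
    apply Polynomial.algHom_ext
    rw [AlgHom.comp_apply, se, Polynomial.aeval_X, ph_co]
    unfold va
    rw [if_neg (by fin_cases i <;> decide)]
    rfl
  exact DFunLike.congr_fun h p

lemma ker_ph (i : Fin 2) : RingHom.ker (ph A i).toRingHom = Ideal.span {co A i} := by
  apply le_antisymm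
  · intro c hc
    have hc' : ph A i c = 0 := hc
    let q : CR A →ₐ[A] (CR A ⧸ Ideal.span {co A i}) := Ideal.Quotient.mkₐ A _
    have hq : q (co A i) = 0 :=
      Ideal.Quotient.eq_zero_iff_mem.2 (Ideal.subset_span rfl)
    have h : q = (q.comp (se A i)).comp (ph A i) := by
      apply Ideal.Quotient.algHom_ext
      apply MvPolynomial.algHom_ext
      intro t
      change q (co A t) = q (se A i (ph A i (co A t)))
      rw [ph_co]
      unfold va
      by_cases ht : t = i
      · rw [if_pos ht, map_zero, map_zero, ht, hq]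
      · rw [if_neg ht, se, Polynomial.aeval_X]
        congr 2
        fin_cases i <;> fin_cases t <;> simp_all
    have h2 : q c = 0 := by
      rw [h, AlgHom.comp_apply, hc', map_zero]
    exact Ideal.Quotient.eq_zero_iff_mem.1 h2
  · rw [Ideal.span_le]
    rintro _ rfl
    change ph A i (co A i) = 0
    rw [ph_co]
    unfold va
    rw [if_pos rfl]

end ring

section cross

variable (k A : Type) [Field k] [CommRing A] [Algebra k A]

/-- the cross -/
noncomputable def cr : Cross k A (CR A) where
  x := co A 0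
  y := co A 1
  φ := (ph A 0).restrictScalars k
  ψ := (ph A 1).restrictScalars k
  hφ := fun p => ⟨se A 0 p, ph_se A 0 p⟩
  hψ := fun p => ⟨se A 1 p, ph_se A 1 p⟩
  kφ := ker_ph A 0
  kψ := ker_ph A 1
  φy := by
    change ph A 0 (co A 1) = _
    rw [ph_co]
    rfl
  ψx := by
    change ph A 1 (co A 0) = _
    rw [ph_co]
    rfl
  xy := co_mul A

lemma ft [Algebra.FiniteType k A] : Algebra.FiniteType k (CR A) := by
  have h1 : Algebra.FiniteType k (MvPolynomial (Fin 2) A) :=
    Algebra.FiniteType.trans (S := A) inferInstance inferInstance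
  exact Algebra.FiniteType.of_surjective (Ideal.Quotient.mkₐ k (I2 A))
    (Ideal.Quotient.mkₐ_surjective k (I2 A))

end cross

/-! ### the presentation -/

open CUB.HG

lemma sp3_uv {k : Type} [Field k] {κ : Type} [DecidableEq κ] (B : Set k) (u v : κ)
    (huv : u ≠ v) : Sp3 B {{u, v}} 0 (MvPolynomial.X u * MvPolynomial.X v : MvPolynomial κ k) := by
  refine ⟨?_, by simp, ?_, Or.inl rfl, ?_⟩
  · intro e he
    rw [Finset.mem_singleton] at he
    rw [he, Finset.card_pair huv]
  · intro e he e' he' w _ _
    rw [Finset.mem_singleton.1 he, Finset.mem_singleton.1 he']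
  · rw [Finset.sum_singleton, Finset.prod_pair huv, map_zero, add_zero]

lemma cnt_zero {κ : Type} (H : Finset (Finset κ)) (v : κ) (h : ∀ e ∈ H, v ∉ e) :
    cnt H v = 0 := by
  classical
  unfold cnt
  rw [Finset.card_eq_zero, Finset.filter_eq_empty_iff]
  exact fun e he => h e he

theorem good_cr (k A : Type) [Field k] [CommRing A] [Algebra k A] (B : Set k) (ι κ : Type)
    [Fintype κ] (h : Good k A B ι κ) : Good k (CR A) B (ι ⊕ Fin 2) (κ ⊕ Fin 1) := by
  classical
  obtain ⟨f, φ, H, b, hφ, hk, hf, hc⟩ := h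
  -- the inclusion of the constants
  let ia : A →ₐ[k] CR A := (Algebra.ofId A (CR A)).restrictScalars k
  let Φ : MvPolynomial (ι ⊕ Fin 2) k →ₐ[k] CR A :=
    MvPolynomial.aeval (Sum.elim (fun v => ia (φ (MvPolynomial.X v))) (co A))
  let F : κ ⊕ Fin 1 → MvPolynomial (ι ⊕ Fin 2) k := Sum.elim
    (fun j => MvPolynomial.rename Sum.inl (f j))
    (fun _ => MvPolynomial.X (Sum.inr 0) * MvPolynomial.X (Sum.inr 1))
  have hΦl : ∀ p, Φ (MvPolynomial.rename Sum.inl p) = ia (φ p) := by
    have h1 : Φ.comp (MvPolynomial.rename Sum.inl) = ia.comp φ := by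
      apply MvPolynomial.algHom_ext
      intro v
      change Φ (MvPolynomial.rename Sum.inl (MvPolynomial.X v)) = ia (φ (MvPolynomial.X v))
      rw [MvPolynomial.rename_X]
      exact MvPolynomial.aeval_X _ _
    exact fun p => DFunLike.congr_fun h1 p
  have hΦr : ∀ t, Φ (MvPolynomial.X (Sum.inr t)) = co A t := fun t =>
    MvPolynomial.aeval_X _ _
  refine ⟨F, Φ, Sum.elim (fun j => im Sum.inl (H j)) (fun _ => {{Sum.inr 0, Sum.inr 1}}),
    Sum.elim b (fun _ => 0), ?_, ?_, ?_, ?_⟩
  · -- surjective
    intro c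
    obtain ⟨p, rfl⟩ := Ideal.Quotient.mk_surjective c
    induction p using MvPolynomial.induction_on with
    | C a =>
      obtain ⟨P, rfl⟩ := hφ a
      exact ⟨MvPolynomial.rename Sum.inl P, hΦl P⟩
    | add p q hp hq =>
      obtain ⟨P, hP⟩ := hp
      obtain ⟨Q, hQ⟩ := hq
      exact ⟨P + Q, by rw [map_add, hP, hQ, map_add]⟩
    | mul_X p t hp =>
      obtain ⟨P, hP⟩ := hp
      exact ⟨P * MvPolynomial.X (Sum.inr t), by rw [map_mul, hP, hΦr, map_mul]; rfl⟩
  · -- the kernel
    let J : Ideal (MvPolynomial (ι ⊕ Fin 2) k) := Ideal.span (Set.range F)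
    let q : MvPolynomial (ι ⊕ Fin 2) k →ₐ[k] (MvPolynomial (ι ⊕ Fin 2) k ⧸ J) :=
      Ideal.Quotient.mkₐ k J
    have hq0 : ∀ x, q (F x) = 0 := fun x =>
      Ideal.Quotient.eq_zero_iff_mem.2 (Ideal.subset_span ⟨x, rfl⟩)
    have h3 : RingHom.ker φ.toRingHom ≤
        RingHom.ker (q.comp (MvPolynomial.rename Sum.inl)).toRingHom := by
      rw [hk, Ideal.span_le]
      rintro _ ⟨j, rfl⟩
      exact hq0 (Sum.inl j)
    let α : A →ₐ[k] (MvPolynomial (ι ⊕ Fin 2) k ⧸ J) :=
      AlgHom.liftOfSurjective φ hφ (q.comp (MvPolynomial.rename Sum.inl)) h3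
    have hα : ∀ p, α (φ p) = q (MvPolynomial.rename Sum.inl p) := fun p =>
      AlgHom.liftOfSurjective_apply φ hφ (q.comp (MvPolynomial.rename Sum.inl)) h3 p
    let β : MvPolynomial (Fin 2) A →+* (MvPolynomial (ι ⊕ Fin 2) k ⧸ J) :=
      MvPolynomial.eval₂Hom α.toRingHom (fun t => q (MvPolynomial.X (Sum.inr t)))
    have hβC : ∀ a, β (MvPolynomial.C a) = α a := fun a => MvPolynomial.eval₂Hom_C _ _ a
    have hβX : ∀ t, β (MvPolynomial.X t) = q (MvPolynomial.X (Sum.inr t)) := fun t =>
      MvPolynomial.eval₂Hom_X' _ _ t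
    have hβ : ∀ a ∈ I2 A, β a = 0 := by
      have h4 : I2 A ≤ RingHom.ker β := by
        rw [Ideal.span_le]
        rintro _ rfl
        change β (MvPolynomial.X 0 * MvPolynomial.X 1) = 0
        rw [map_mul, hβX, hβX, ← map_mul]
        exact hq0 (Sum.inr 0)
      exact fun a ha => h4 ha
    let γ : CR A →+* (MvPolynomial (ι ⊕ Fin 2) k ⧸ J) := Ideal.Quotient.lift (I2 A) β hβ
    have hγ : ∀ P, γ (Φ P) = q P := by
      have h5 : γ.comp Φ.toRingHom = q.toRingHom := by
        apply MvPolynomial.ringHom_ext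
        · intro r
          change γ (Φ (MvPolynomial.C r)) = q (MvPolynomial.C r)
          have h6 : (MvPolynomial.C r : MvPolynomial (ι ⊕ Fin 2) k) =
              MvPolynomial.rename Sum.inl (MvPolynomial.C r) := by
            rw [MvPolynomial.rename_C]
          rw [h6, hΦl]
          change β (MvPolynomial.C (φ (MvPolynomial.C r))) = _
          rw [hβC, hα]
        · rintro (v | t)
          · change γ (Φ (MvPolynomial.X (Sum.inl v))) = q (MvPolynomial.X (Sum.inl v))
            have h6 : (MvPolynomial.X (Sum.inl v) : MvPolynomial (ι ⊕ Fin 2) k) =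
                MvPolynomial.rename Sum.inl (MvPolynomial.X v) := by
              rw [MvPolynomial.rename_X]
            rw [h6, hΦl]
            change β (MvPolynomial.C (φ (MvPolynomial.X v))) = _
            rw [hβC, hα]
          · change γ (Φ (MvPolynomial.X (Sum.inr t))) = q (MvPolynomial.X (Sum.inr t))
            rw [hΦr]
            exact hβX t
      exact fun P => DFunLike.congr_fun h5 P
    apply le_antisymm
    · intro P hP
      have h4 : Φ P = 0 := hP
      have h5 : q P = 0 := by rw [← hγ, h4, map_zero]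
      exact Ideal.Quotient.eq_zero_iff_mem.1 h5
    · rw [Ideal.span_le]
      rintro _ ⟨x, rfl⟩
      change Φ (F x) = 0
      rcases x with j | t
      · change Φ (MvPolynomial.rename Sum.inl (f j)) = 0
        rw [hΦl]
        have h5 : φ (f j) = 0 := by
          have : f j ∈ RingHom.ker φ.toRingHom := by
            rw [hk]
            exact Ideal.subset_span ⟨j, rfl⟩
          exact this
        rw [h5, map_zero]
      · change Φ (MvPolynomial.X (Sum.inr 0) * MvPolynomial.X (Sum.inr 1)) = 0
        rw [map_mul, hΦr, hΦr, co_mul]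
  · rintro (j | t)
    · exact (hf j).rename Sum.inl Sum.inl_injective
    · exact sp3_uv B _ _ (by simp)
  · intro w
    rw [Fintype.sum_sum_type]
    simp only [Sum.elim_inl, Sum.elim_inr, Finset.univ_unique, Finset.sum_singleton]
    rcases w with v | t
    · have h1 : ∀ j, cnt (im (Sum.inl : ι → ι ⊕ Fin 2) (H j)) (Sum.inl v) = cnt (H j) v :=
        fun j => cnt_im _ Sum.inl_injective _ v
      have h2 : cnt ({{Sum.inr 0, Sum.inr 1}} : Finset (Finset (ι ⊕ Fin 2))) (Sum.inl v) = 0 := by
        apply cnt_zero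
        intro e he
        rw [Finset.mem_singleton] at he
        rw [he]
        simp
      rw [Finset.sum_congr rfl fun j _ => h1 j, h2, add_zero]
      exact hc v
    · have h1 : ∀ j, cnt (im (Sum.inl : ι → ι ⊕ Fin 2) (H j)) (Sum.inr t) = 0 :=
        fun j => cnt_im_of_not _ _ _ (by simp)
      rw [Finset.sum_congr rfl fun j _ => h1 j, Finset.sum_const_zero, zero_add]
      have h2 := (sp3_uv (k := k) B (Sum.inr 0 : ι ⊕ Fin 2) (Sum.inr 1) (by simp)).cnt_le
        (Sum.inr t)
      exact h2.trans (by norm_num)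

end GDC

theorem t_GDC : S_GDC := by
  intro k A _ _ _ _
  refine ⟨GDC.CR A, inferInstance, inferInstance, GDC.ft k A, ⟨GDC.cr k A⟩, ?_⟩
  intro B N M h
  exact (GDC.good_cr k A B (Fin N) (Fin M) h).reindex finSumFinEquiv finSumFinEquiv

end CGR
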