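import Pool.Agent.CGR.Stmts

/-!
# GMI: cycles whose restriction to the complement of the zero section is rationally equivalent to zero
-/

set_option autoImplicit false

open Polynomial

namespace CGR

open CUB

namespace GMI

/-- A cycle supported on `X = 0` specialises to zero at infinity. -/
lemma beta_zero (hINFA : S_INFA) {k R E : Type} [Field k] [CommRing R] [Algebra k R] [Field E]
    {n : ℕ} (c : RP k R[X] (n + 1) →₀ E) (h : SuppOn k E (Ideal.span {(X : R[X])}) c) :
    IsBeta k E c (0 : RP k R n →₀ E) := by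
  intro p
  rw [Finsupp.coe_zero, Pi.zero_apply]
  symm
  refine Finset.sum_eq_zero fun z hz => ?_
  have h1 : (X : R[X]) ∈ z.1.asIdeal :=
    h z (Finsupp.mem_support_iff.1 hz) (Ideal.mem_span_singleton_self X)
  have h2 : infI z.1.asIdeal = ⊤ := hINFA.2.1 R z.1.asIdeal h1
  have h3 : bet z.1.asIdeal p.1 = 0 := by
    unfold bet len
    rw [h2, top_sup_eq, Ideal.map_top]
    have h4 : Subsingleton (Localization.AtPrime
        (PrimeSpectrum.comap (evalRingHom (0 : R)) p.1).asIdeal ⧸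
        (⊤ : Ideal (Localization.AtPrime
          (PrimeSpectrum.comap (evalRingHom (0 : R)) p.1).asIdeal))) :=
      Ideal.Quotient.subsingleton_iff.2 rfl
    rw [Module.length_eq_zero]
    rfl
  show c z * ((bet z.1.asIdeal p.1 : ℕ) : E) = 0
  rw [h3, Nat.cast_zero, mul_zero]

lemma main (hLOC : S_LOC) (hINFA : S_INFA) (hB2 : S_B2) (hB3 : S_B3) (hBLIN : S_BLIN) :
    S_GMI := by
  intro k A B E _ _ _ _ _ _ _ _ _ μ hμ n z d d' hzd hdd' hd'
  have : Algebra.FiniteType k A[X] := Algebra.FiniteType.trans (S := A) inferInstance inferInstance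
  have h1 : d' ∈ ratOn k E (n + 1) ((⊥ : Ideal A[X]).map μ.toRingHom) := by
    rw [Ideal.map_bot]; exact hd'
  obtain ⟨ρ, hρ, hs⟩ := (hLOC k A[X] B E μ X hμ (n + 1) ⊥).1 d d' hdd' h1
  have h2 : IsBeta k E d z := hB2 k A E n z d hzd
  have h3 : IsBeta k E (d - ρ) (0 : RP k A n →₀ E) := beta_zero hINFA _ hs
  have h4 := (hBLIN k A E n d (d - ρ) z 0 0 h2 h3).2.2.1
  rw [sub_sub_cancel, sub_zero] at h4
  refine hB3 k A E n ⊥ ρ z ?_ h4
  rw [Ideal.map_bot]
  exact hρ

end GMI

theorem t_GMI : S_GMI :=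
  GMI.main CUB.Asm.s_LOC CUB.Asm.s_INFA CUB.Asm.s_B2 CUB.Asm.s_B3 CUB.Asm.s_BLIN

end CGR
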