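import Pool.Agent.CUB2.Defs4
import Pool.Agent.CUBH.Defs

/-!
# The hypergraph cubics and two ranks
-/

set_option autoImplicit false

open AlgebraicGeometry Cardinal

namespace CGR

open Pool.Agent.Lib_helper55.Beil CUB

universe v

variable {k : Type} [Field k]

/-- `V` is a smooth hypersurface `y ^ 2 - y = F(x_1, ..., x_3n)`.  The polynomial `F` is the sum of
the products of the variables in the edges of a hypergraph `H` with the vertices `1, ..., 3n`, and
of a linear form `∑ c_v x_v`; the edges have at most three vertices, every vertex is in at most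
three edges, and the `c_v` are zero or elements of `B`. -/
def Level (B : Set k) (n : ℕ) (V : Var k) : Prop :=
  ∃ (H : Finset (Finset (Fin (3 * n)))) (c : Fin (3 * n) → k), Sparse H ∧
    (∀ v, c v = 0 ∨ c v ∈ B) ∧ V = cubic (hyp H c) ∧ Smooth V.f

/-- For every `K` there are infinitely many `n` such that `P K n V` for all `V` of level `n`. -/
def Often (B : Set k) (P : ℕ → ℕ → Var k → Prop) : Prop :=
  ∀ K N : ℕ, ∃ n, N ≤ n ∧ ∀ V : Var k, Level B n V → P K n V

/-- The dimension of the Chow group of `i`-dimensional cycles with coefficients in `E`. -/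
noncomputable def chowRank (E : Type) [Field E] (i : ℕ) (X : Var k) : Cardinal :=
  Module.rank E (Chow E i X)

/-- The space of invariants of Frobenius in `H (2 * i) X`. -/
def fixedPart {E : Type} [Field E] {i : ℕ} (T : Homology.{v} k E i) (X : Var k) :
    Submodule E (T.H (2 * i) X) :=
  LinearMap.ker (T.frob (2 * i) X - 1)

/-- The dimension of the space of invariants of Frobenius in `H (2 * i) X`. -/
noncomputable def tateRank {E : Type} [Field E] {i : ℕ} (T : Homology.{v} k E i) (X : Var k) : ℕ :=
  Module.finrank E (fixedPart T X)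

/-- The classes of all `i`-dimensional cycles are zero. -/
def NoClass {E : Type} [Field E] {i : ℕ} (T : Homology.{v} k E i) (X : Var k) : Prop :=
  ∀ x : Pts i X, T.cl X x = 0

section

variable {E : Type} [Field E] (B : Set k) (T : ∀ i : ℕ, Homology.{v} k E i)

/-- For every `K` there are infinitely many `n` such that for all `V` of level `n`: if all classes
of cycles of dimension `2n` (codimension `n`) are zero, then `K b(V) ≤ 2 ^ n`, where `b(V)` is the
number of independent Frobenius invariants in this dimension. -/
def TateBound : Prop :=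
  Often B fun K n V => NoClass (T (2 * n)) V → K * tateRank (T (2 * n)) V ≤ 2 ^ n

/-- The same with the dimension `a(V)` of the Chow group instead of `b(V)`. -/
def ChowBound : Prop :=
  Often B fun K n V => NoClass (T (2 * n)) V → (K : Cardinal) * chowRank E (2 * n) V ≤ 2 ^ n

/-- For every `K` there are infinitely many `n` such that `K |a(V) - b(V)| ≤ 2 ^ n` for all `V` of
level `n`. -/
def DifferenceBound : Prop :=
  Often B fun K n V =>
    (K : Cardinal) * chowRank E (2 * n) V ≤ K * tateRank (T (2 * n)) V + 2 ^ n ∧
    (K : Cardinal) * tateRank (T (2 * n)) V ≤ K * chowRank E (2 * n) V + 2 ^ n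

/-- For every `K` there are infinitely many `n` such that for all `V` of level `n`: `a(V)` is
finite, `K b(V) ≤ 2 ^ n` if `a(V) = 0`, and `K a(V) ≤ 2 ^ n` if `b(V) = 0`. -/
def RankBound : Prop :=
  Often B fun K n V => chowRank E (2 * n) V < ℵ₀ ∧
    (chowRank E (2 * n) V = 0 → K * tateRank (T (2 * n)) V ≤ 2 ^ n) ∧
    (tateRank (T (2 * n)) V = 0 → (K : Cardinal) * chowRank E (2 * n) V ≤ 2 ^ n)

end

end CGR
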