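import Pool.Agent.CGR.Stmts
import Pool.Agent.CGR.Defs
import Pool.Agent.CGAP.Fin

/-!
# CGR: the growth theorem from the family (proof)
-/

set_option autoImplicit false

open Polynomial CategoryTheory AlgebraicGeometry Cardinal

namespace CGR

open Pool.Agent.Lib_helper55.Beil Pool.Agent.Lib_helper66.OneP CUB CGAP

universe v

namespace Mn

lemma nat_key {n j b b' : ℕ} (h1 : 2 ^ j * b ≤ b') (h2 : (2 ^ n + 1) * b' ≤ 2 ^ (n + j)) :
    b = 0 := by
  by_contra hb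
  have h3 : 1 ≤ b := Nat.one_le_iff_ne_zero.mpr hb
  have h4 : 2 ^ j ≤ b' := by
    refine le_trans ?_ h1
    simpa using Nat.mul_le_mul_left (2 ^ j) h3
  have h5 : (2 ^ n + 1) * 2 ^ j ≤ 2 ^ (n + j) := (Nat.mul_le_mul_left _ h4).trans h2
  rw [pow_add] at h5
  have h6 : 0 < 2 ^ j := by positivity
  nlinarith

lemma card_key {n j : ℕ} {a a' : Cardinal.{0}} (h1 : ((2 ^ j : ℕ) : Cardinal) * a ≤ a')
    (h2 : ((2 ^ n + 1 : ℕ) : Cardinal) * a' ≤ ((2 ^ (n + j) : ℕ) : Cardinal)) : a = 0 := by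
  have hle : ∀ (m : ℕ) (_ : 0 < m) (c : Cardinal.{0}), c ≤ (m : Cardinal) * c := by
    intro m hm c
    have h3 : (1 : Cardinal) ≤ (m : Cardinal) := by exact_mod_cast hm
    calc c = 1 * c := (one_mul c).symm
      _ ≤ (m : Cardinal) * c := mul_le_mul_left h3 c
  have h4 : a' < ℵ₀ := (hle (2 ^ n + 1) (by positivity) a').trans_lt
    (h2.trans_lt natCast_lt_aleph0)
  have h5 : a < ℵ₀ := ((hle (2 ^ j) (by positivity) a).trans h1).trans_lt h4
  obtain ⟨m', rfl⟩ := Cardinal.lt_aleph0.mp h4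
  obtain ⟨m, rfl⟩ := Cardinal.lt_aleph0.mp h5
  have h6 : m = 0 := nat_key (n := n) (j := j) (b' := m') (by exact_mod_cast h1)
    (by exact_mod_cast h2)
  rw [h6, Nat.cast_zero]

variable {k : Type} [Field k] {E : Type} [Field E]

lemma fin_of_grow {T : ∀ i : ℕ, Homology.{v} k E i} {i j N : ℕ} {X V : Var k} (hN : 0 < N)
    (h : Grow T i j N X V) (hV : chowDim E j V < ℵ₀) : Module.Finite E (Chow E i X) := by
  have h3 : (1 : Cardinal) ≤ (N : Cardinal) := by exact_mod_cast hN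
  have h1 : chowDim E i X ≤ chowDim E j V := by
    calc chowDim E i X = 1 * chowDim E i X := (one_mul _).symm
      _ ≤ (N : Cardinal) * chowDim E i X := mul_le_mul_left h3 _
      _ ≤ _ := h.chow
  exact Module.rank_lt_aleph0_iff.mp (h1.trans_lt hV)

/-- All affine varieties are seen by the hypersurfaces of the levels `n ≥ n₀`. -/
lemma lvl (hF : S_FMG.{v}) [Finite k] [CharZero E] (B : Set k) (hB : Subring.closure B = ⊤)
    (T : ∀ i : ℕ, Homology.{v} k E i) (hT : Full T) (P : ℕ → ℕ → Var k → Prop)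
    (h : Often B P) (i : ℕ) (X : Var k)
    (hX : IsAffine X.X) : ∃ n₀ : ℕ, ∀ K : ℕ, ∃ (j : ℕ) (V : Var k), P K (n₀ + j) V ∧
      Grow T i (2 * (n₀ + j)) (2 ^ j) X V := by
  obtain ⟨n₀, h0⟩ := hF k E B hB T hT i X hX
  refine ⟨n₀, fun K => ?_⟩
  obtain ⟨n, hn, h1⟩ := h K n₀
  obtain ⟨j, rfl⟩ := Nat.exists_eq_add_of_le hn
  obtain ⟨H, c, h2, h3, h4, h5⟩ := h0 j
  exact ⟨j, cubic (hyp H c), h1 _ ⟨H, c, h2, h3, rfl, h4⟩, h5⟩

/-- The Tate conjecture. -/
theorem tate (hF : S_FMG.{v}) [Finite k] [CharZero E] (B : Set k)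
    (hB : Subring.closure B = ⊤) (T : ∀ i : ℕ, Homology.{v} k E i) (hT : Full T)
    (h : Often B fun K n V => CLZ (T (2 * n)) V → K * invDim (T (2 * n)) V ≤ 2 ^ n)
    (i : ℕ) (X : Var k) : (T i).Surj X ∧ (T i).Semisimple X := by
  refine CGAP.Fin.of_clz (T i) (fun X hX hc => ?_) X
  obtain ⟨n₀, h0⟩ := lvl hF B hB T hT _ h i X hX
  obtain ⟨j, V, h1, h2⟩ := h0 (2 ^ n₀ + 1)
  exact (CGAP.Fin.invDim_zero (T i)).mp (nat_key (n := n₀) h2.inv (h1 (h2.clz hc)))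

/-- Injectivity for affine varieties. -/
theorem beil (hF : S_FMG.{v}) (hKEYZ : S_KEYZ.{v}) [Finite k] [CharZero E] (B : Set k)
    (hB : Subring.closure B = ⊤) (T : ∀ i : ℕ, Homology.{v} k E i) (hT : Full T)
    (h : Often B fun K n V => CLZ (T (2 * n)) V →
      (K : Cardinal) * chowDim E (2 * n) V ≤ ((2 ^ n : ℕ) : Cardinal))
    (i : ℕ) (X : Var k) (hX : IsAffine X.X) : (T i).Inj X := by
  refine hKEYZ k E T hT.toExtra (fun i X hX hc => ?_) i X hX
  obtain ⟨n₀, h0⟩ := lvl hF B hB T hT _ h i X hX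
  obtain ⟨j, V, h1, h2⟩ := h0 (2 ^ n₀ + 1)
  exact CGAP.Fin.chowDim_zero.mp (card_key (n := n₀) h2.chow (h1 (h2.clz hc)))

/-- The converse for affine varieties. -/
lemma beil_of_all (T : ∀ i : ℕ, Homology.{v} k E i) (K m j : ℕ) (V : Var k)
    (h : (T j).Inj V) (hc : CLZ (T j) V) :
    (K : Cardinal) * chowDim E j V ≤ ((2 ^ m : ℕ) : Cardinal) := by
  have h1 : CZ E j V := by
    intro c
    refine ((T j).inj_iff V).mp h c ?_
    rw [Finsupp.linearCombination_apply]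
    exact Finset.sum_eq_zero fun x _ => by
      change c x • (T j).cl V x = 0
      rw [hc x, smul_zero]
  rw [CGAP.Fin.chowDim_zero.mpr h1, mul_zero]
  exact zero_le

/-- The rank form. -/
theorem rank (hF : S_FMG.{v}) (hSMS : S_SMS.{v}) (hKEY : S_KEY.{v}) [Finite k]
    [CharZero E] (B : Set k) (hB : Subring.closure B = ⊤) (T : ∀ i : ℕ, Homology.{v} k E i)
    (hT : Full T)
    (h : Often B fun K n V => chowDim E (2 * n) V < ℵ₀ ∧
      (chowDim E (2 * n) V = 0 → K * invDim (T (2 * n)) V ≤ 2 ^ n) ∧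
      (invDim (T (2 * n)) V = 0 → (K : Cardinal) * chowDim E (2 * n) V ≤ ((2 ^ n : ℕ) : Cardinal)))
    (i : ℕ) (X : Var k) : (T i).Inj X ∧ (T i).Surj X ∧ (T i).Semisimple X := by
  have hF' := lvl hF B hB T hT _ h
  have hfin : ∀ (i : ℕ) (X : Var k), IsAffine X.X → Module.Finite E (Chow E i X) := by
    intro i X hX
    obtain ⟨n₀, h0⟩ := hF' i X hX
    obtain ⟨j, V, h1, h2⟩ := h0 0
    exact fin_of_grow (by positivity) h2 h1.1
  have hz : ∀ (i : ℕ) (X : Var k), IsAffine X.X → CZ E i X → HZ (T i) X := by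
    intro i X hX hc
    obtain ⟨n₀, h0⟩ := hF' i X hX
    obtain ⟨j, V, h1, h2⟩ := h0 (2 ^ n₀ + 1)
    refine (CGAP.Fin.invDim_zero (T i)).mp (nat_key (n := n₀) h2.inv ?_)
    exact h1.2.1 (CGAP.Fin.chowDim_zero.mpr (h2.cz hc))
  have hS : ∀ (i : ℕ) (X : Var k), (T i).Surj X ∧ (T i).Semisimple X := fun i =>
    hSMS k E i (T i) (hfin i) (hz i)
  have hv : ∀ (i : ℕ) (X : Var k), IsAffine X.X → HZ (T i) X → CZ E i X := by
    intro i X hX hc
    obtain ⟨n₀, h0⟩ := hF' i X hX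
    obtain ⟨j, V, h1, h2⟩ := h0 (2 ^ n₀ + 1)
    refine CGAP.Fin.chowDim_zero.mp (card_key (n := n₀) h2.chow ?_)
    refine h1.2.2 ((CGAP.Fin.invDim_zero (T _)).mpr ?_)
    have hX0 : CLZ (T i) X := fun x => hc _ ((T i).frob_cl X x)
    exact ((T _).inv_zero_of_surj (hS _ V).1 (h2.clz hX0))
  have hA : ∀ (i : ℕ) (X : Var k), IsAffine X.X → (T i).InjC X := fun i X hX =>
    ((T i).inj_iff X).mp (hKEY k E T hT.toExtra (fun i X _ => (hS i X).1) hv i X hX)
  exact ⟨((T i).inj_iff X).mpr (Asm2.s_IND.{v} k E T hT hS hA i X), (hS i X).1, (hS i X).2⟩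

/-- A bound for the difference of the ranks gives the rank form. -/
lemma rank_of_num (B : Set k) (T : ∀ i : ℕ, Homology.{v} k E i)
    (h : Often B fun K n V =>
      (K : Cardinal) * chowDim E (2 * n) V ≤ K * invDim (T (2 * n)) V + 2 ^ n ∧
      (K : Cardinal) * invDim (T (2 * n)) V ≤ K * chowDim E (2 * n) V + 2 ^ n) :
    Often B fun K n V => chowDim E (2 * n) V < ℵ₀ ∧
      (chowDim E (2 * n) V = 0 → K * invDim (T (2 * n)) V ≤ 2 ^ n) ∧
      (invDim (T (2 * n)) V = 0 →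
        (K : Cardinal) * chowDim E (2 * n) V ≤ ((2 ^ n : ℕ) : Cardinal)) := by
  intro K N
  obtain ⟨n, hn, h1⟩ := h (K + 1) N
  refine ⟨n, hn, fun V hV => ?_⟩
  obtain ⟨h2, h3⟩ := h1 V hV
  have h4 : ((K + 1 : ℕ) : Cardinal) * invDim (T (2 * n)) V + 2 ^ n =
      (((K + 1) * invDim (T (2 * n)) V + 2 ^ n : ℕ) : Cardinal) := by
    push_cast
    ring
  have h5 : chowDim E (2 * n) V ≤ ((K + 1 : ℕ) : Cardinal) * chowDim E (2 * n) V := by
    have h6 : (1 : Cardinal) ≤ ((K + 1 : ℕ) : Cardinal) := by exact_mod_cast Nat.succ_pos K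
    calc chowDim E (2 * n) V = 1 * chowDim E (2 * n) V := (one_mul _).symm
      _ ≤ _ := mul_le_mul_left h6 _
  refine ⟨?_, ?_, ?_⟩
  · rw [h4] at h2
    exact h5.trans_lt (h2.trans_lt natCast_lt_aleph0)
  · intro h0
    rw [h0, mul_zero, zero_add] at h3
    have h7 : (K + 1) * invDim (T (2 * n)) V ≤ 2 ^ n := by exact_mod_cast h3
    exact (Nat.mul_le_mul_right _ (Nat.le_succ K)).trans h7
  · intro h0
    rw [h4, h0, mul_zero, zero_add] at h2
    refine le_trans ?_ h2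
    have h8 : (K : Cardinal) ≤ ((K + 1 : ℕ) : Cardinal) := by exact_mod_cast Nat.le_succ K
    exact mul_le_mul_left h8 _

/-- The converse. -/
lemma num_of_all (T : ∀ i : ℕ, Homology.{v} k E i) (K m j : ℕ) (V : Var k)
    (h : (T j).Inj V ∧ (T j).Surj V) :
    (K : Cardinal) * chowDim E j V ≤ K * invDim (T j) V + 2 ^ m ∧
      (K : Cardinal) * invDim (T j) V ≤ K * chowDim E j V + 2 ^ m := by
  rw [dim_eq (T j) V h.1 h.2]
  exact ⟨self_le_add_right _ _, self_le_add_right _ _⟩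

end Mn

end CGR
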