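import Pool.Agent.CGR.Stmts
import Pool.Agent.CUB2.G_PRO
import Pool.Agent.CUB2.G_PLP

/-!
# CGR, module P1G: the product with the projective line
-/

set_option autoImplicit false

open CategoryTheory AlgebraicGeometry Limits Polynomial TopologicalSpace

namespace CGR

open Pool.Agent.Lib_helper55.Beil Pool.Agent.Lib_helper66.OneP CUB

namespace P1G

variable {k : Type} [Field k]

/-! ### Points of the affine line -/

/-- The point `a` of the affine line. -/
noncomputable abbrev ev (a : k) : Spec (CommRingCat.of k) ⟶ Spec (CommRingCat.of k[X]) :=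
  Spec.map (CommRingCat.ofHom (Polynomial.evalRingHom a))

lemma ev_line (a : k) : ev a ≫ PRO.lineMap k = 𝟙 _ := by
  change Spec.map _ ≫ Spec.map _ = _
  rw [← Spec.map_comp, ← CommRingCat.ofHom_comp]
  have h : (Polynomial.evalRingHom a).comp (algebraMap k k[X]) = RingHom.id k := by
    ext x
    simp
  rw [h]
  exact Spec.map_id _

/-- The point `a` of the affine line. -/
noncomputable def evA (a : k) : (aff k k).X ⟶ (aff k k[X]).X := ev a

lemma ev_spm : spm (Polynomial.aeval (R := k) (0 : k)) = evA (0 : k) := by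
  have h : (Polynomial.aeval (R := k) (0 : k)).toRingHom = Polynomial.evalRingHom (0 : k) := by
    apply RingHom.ext
    intro p
    change Polynomial.aeval (0 : k) p = Polynomial.eval 0 p
    rw [Polynomial.coe_aeval_eq_eval]
  unfold spm
  rw [h]
  rfl

/-- The translation of the affine line by one. -/
noncomputable abbrev tr : Spec (CommRingCat.of k[X]) ≅ Spec (CommRingCat.of k[X]) :=
  Scheme.Spec.mapIso (Polynomial.algEquivAevalXAddC (1 : k)).toRingEquiv.toCommRingCatIso.op

lemma tr_line : (tr (k := k)).hom ≫ PRO.lineMap k = PRO.lineMap k := by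
  change Spec.map _ ≫ Spec.map _ = Spec.map _
  rw [← Spec.map_comp]
  congr 1
  apply CommRingCat.hom_ext
  apply RingHom.ext
  intro x
  change Polynomial.algEquivAevalXAddC (1 : k) (algebraMap k k[X] x) = algebraMap k k[X] x
  exact AlgEquiv.commutes _ _

lemma tr_inv_line : (tr (k := k)).inv ≫ PRO.lineMap k = PRO.lineMap k := by
  rw [Iso.inv_comp_eq, tr_line]

lemma ev_tr : ev (0 : k) ≫ (tr (k := k)).hom = ev 1 := by
  change Spec.map _ ≫ Spec.map _ = Spec.map _
  rw [← Spec.map_comp]
  congr 1
  apply CommRingCat.hom_ext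
  change (Polynomial.evalRingHom (0 : k)).comp
    ((Polynomial.algEquivAevalXAddC (1 : k) : k[X] ≃ₐ[k] k[X]) : k[X] →+* k[X]) =
    Polynomial.evalRingHom (1 : k)
  ext x
  · simp [Polynomial.algEquivAevalXAddC]
  · simp [Polynomial.algEquivAevalXAddC]

/-! ### The two charts agree at the point one -/

/-- The evaluation of Laurent polynomials at one. -/
noncomputable def ev1 : LaurentPolynomial k →+* k := LaurentPolynomial.eval₂ (RingHom.id k) 1

lemma ev1_gm₀ : (ev1 (k := k)).comp gm₀ = Polynomial.evalRingHom (1 : k) := by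
  ext x
  · simp [ev1, gm₀]
  · simp [ev1, gm₀]

lemma ev1_gm₁ : (ev1 (k := k)).comp gm₁ = Polynomial.evalRingHom (1 : k) := by
  ext x
  · simp [ev1, gm₁, gm₀]
  · simp [ev1, gm₁, gm₀]

lemma ev_glue (H : PLine k) : evA (1 : k) ≫ H.j₀.g = evA (1 : k) ≫ H.j₁.g := by
  change ev (1 : k) ≫ H.j₀.g = ev (1 : k) ≫ H.j₁.g
  have h0 : ev (1 : k) = Spec.map (CommRingCat.ofHom (ev1 (k := k))) ≫
      Spec.map (CommRingCat.ofHom gm₀) := by
    rw [← Spec.map_comp, ← CommRingCat.ofHom_comp, ev1_gm₀]
  have h1 : ev (1 : k) = Spec.map (CommRingCat.ofHom (ev1 (k := k))) ≫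
      Spec.map (CommRingCat.ofHom gm₁) := by
    rw [← Spec.map_comp, ← CommRingCat.ofHom_comp, ev1_gm₁]
  calc ev (1 : k) ≫ H.j₀.g = Spec.map (CommRingCat.ofHom (ev1 (k := k))) ≫
        (Spec.map (CommRingCat.ofHom gm₀) ≫ H.j₀.g) := by rw [h0, Category.assoc]
    _ = Spec.map (CommRingCat.ofHom (ev1 (k := k))) ≫
        (Spec.map (CommRingCat.ofHom gm₁) ≫ H.j₁.g) := by rw [H.glue.w]
    _ = ev (1 : k) ≫ H.j₁.g := by rw [h1, Category.assoc]

/-- The involution of the intersection of the charts. -/
noncomputable def inv₁ : Spec (CommRingCat.of (LaurentPolynomial k)) ⟶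
    Spec (CommRingCat.of (LaurentPolynomial k)) :=
  Spec.map (CommRingCat.ofHom
    (LaurentPolynomial.invert (R := k) : LaurentPolynomial k →+* LaurentPolynomial k))

lemma inv_inv : inv₁ (k := k) ≫ inv₁ = 𝟙 _ := by
  unfold inv₁
  rw [← Spec.map_comp, ← CommRingCat.ofHom_comp]
  have h : (LaurentPolynomial.invert (R := k) : LaurentPolynomial k →+* LaurentPolynomial k).comp
      (LaurentPolynomial.invert (R := k) : LaurentPolynomial k →+* LaurentPolynomial k) =
      RingHom.id _ := by
    apply RingHom.ext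
    intro q
    exact LaurentPolynomial.involutive_invert q
  rw [h]
  exact Spec.map_id _

instance : IsIso (inv₁ (k := k)) := ⟨inv₁, inv_inv, inv_inv⟩

lemma inv_gm₀ : inv₁ (k := k) ≫ Spec.map (CommRingCat.ofHom gm₀) =
    Spec.map (CommRingCat.ofHom gm₁) := by
  unfold inv₁
  rw [← Spec.map_comp, ← CommRingCat.ofHom_comp]
  rfl

lemma inv_gm₁ : inv₁ (k := k) ≫ Spec.map (CommRingCat.ofHom gm₁) =
    Spec.map (CommRingCat.ofHom gm₀) := by
  rw [← inv_gm₀, ← Category.assoc, inv_inv, Category.id_comp]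

/-- The projective line with the charts exchanged. -/
noncomputable def swap (H : PLine k) : PLine k where
  P := H.P
  proper := H.proper
  j₀ := H.j₁
  j₁ := H.j₀
  cover := by rw [Set.union_comm, H.cover]
  glue := by
    have h := H.glue.flip
    exact IsPullback.of_iso h (asIso (inv₁ (k := k))) (Iso.refl _) (Iso.refl _) (Iso.refl _)
      (by simp [inv_gm₀]) (by simp [inv_gm₁]) (by simp) (by simp)

/-! ### The line -/

section line

variable {Y X : Var k} (L : Line Y X)

/-- The section `a` of a line. -/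
noncomputable def sec (a : k) : X.X ⟶ Y.X :=
  L.prod.lift (𝟙 _) (X.f ≫ ev a) (by
    rw [Category.id_comp, Category.assoc]
    change X.f = X.f ≫ (ev a ≫ PRO.lineMap k)
    rw [ev_line]
    exact (Category.comp_id _).symm)

lemma sec_q (a : k) : sec L a ≫ L.q = 𝟙 _ := L.prod.lift_fst _ _ _

lemma sec_t (a : k) : sec L a ≫ L.t = X.f ≫ ev a := L.prod.lift_snd _ _ _

/-- The projection to the affine line. -/
noncomputable def tt : Y.X ⟶ (aff k k[X]).X := L.t

lemma pb : IsPullback L.q (tt L) X.f (aff k k[X]).f := L.prod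

lemma sec_tt (a : k) : sec L a ≫ tt L = PRO.str X ≫ evA a := sec_t L a

/-- A section of a separated morphism is a closed immersion. -/
lemma closed_of_section {A B : Scheme.{0}} (s : A ⟶ B) (p : B ⟶ A) (hp : IsSeparated p)
    (h : s ≫ p = 𝟙 A) : IsClosedImmersion s := by
  have hc : IsClosedImmersion (s ≫ p) := by
    rw [h]
    infer_instance
  exact IsClosedImmersion.of_comp s p

lemma sep_q : IsSeparated L.q :=
  MorphismProperty.of_isPullback (P := @IsSeparated) L.prod.flip
    (inferInstanceAs (IsSeparated (Spec.map _)))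

/-- The section `a` of a line, as a closed subvariety. -/
noncomputable def secIn (a : k) : ClosedIn X Y where
  g := sec L a
  comm := by rw [← L.comm, ← Category.assoc, sec_q, Category.id_comp]
  closed := closed_of_section _ L.q (sep_q L) (sec_q L a)

/-- The translation by one. -/
noncomputable def tau : Y.X ≅ Y.X where
  hom := L.prod.lift L.q (L.t ≫ (tr (k := k)).hom) (by
    rw [Category.assoc]
    change _ = L.t ≫ ((tr (k := k)).hom ≫ PRO.lineMap k)
    rw [tr_line]
    exact L.prod.w)
  inv := L.prod.lift L.q (L.t ≫ (tr (k := k)).inv) (by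
    rw [Category.assoc]
    change _ = L.t ≫ ((tr (k := k)).inv ≫ PRO.lineMap k)
    rw [tr_inv_line]
    exact L.prod.w)
  hom_inv_id := by
    apply L.prod.hom_ext
    · rw [Category.assoc, L.prod.lift_fst, L.prod.lift_fst, Category.id_comp]
    · rw [Category.assoc, L.prod.lift_snd, ← Category.assoc, L.prod.lift_snd, Category.assoc,
        Iso.hom_inv_id, Category.comp_id, Category.id_comp]
  inv_hom_id := by
    apply L.prod.hom_ext
    · rw [Category.assoc, L.prod.lift_fst, L.prod.lift_fst, Category.id_comp]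
    · rw [Category.assoc, L.prod.lift_snd, ← Category.assoc, L.prod.lift_snd, Category.assoc,
        Iso.inv_hom_id, Category.comp_id, Category.id_comp]

lemma tau_q : (tau L).hom ≫ L.q = L.q := L.prod.lift_fst _ _ _

lemma tau_t : (tau L).hom ≫ L.t = L.t ≫ (tr (k := k)).hom := L.prod.lift_snd _ _ _

lemma sec_tau : sec L (0 : k) ≫ (tau L).hom = sec L 1 := by
  apply L.prod.hom_ext
  · rw [Category.assoc, tau_q, sec_q, sec_q]
  · rw [Category.assoc, tau_t, ← Category.assoc, sec_t, Category.assoc, ev_tr, sec_t]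

/-! ### The charts of the product -/

variable {P : Var k} (j : OpenIn (aff k k[X]) P)

/-- The chart of the product. -/
noncomputable def chart : Y.X ⟶ (X.prod P).X :=
  (PRO.prod_isPullback X P).lift L.q (tt L ≫ j.g) (by
    rw [Category.assoc, j.comm]
    exact (pb L).w)

lemma chart_fst : chart L j ≫ PRO.pfst X P = L.q := (PRO.prod_isPullback X P).lift_fst _ _ _

lemma chart_snd : chart L j ≫ PRO.psnd X P = tt L ≫ j.g :=
  (PRO.prod_isPullback X P).lift_snd _ _ _

lemma chart_isPullback : IsPullback (tt L) (chart L j) j.g (PRO.psnd X P) := by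
  have h2 : IsPullback (tt L) (chart L j ≫ PRO.pfst X P) (j.g ≫ P.f) X.f := by
    rw [chart_fst, j.comm]
    exact (pb L).flip
  exact IsPullback.of_bot h2 (chart_snd L j).symm (PRO.prod_isPullback X P).flip

/-- The chart of the product, as an open subvariety. -/
noncomputable def chartIn : OpenIn Y (X.prod P) where
  g := chart L j
  comm := by rw [← PRO.pfst_comp, ← Category.assoc, chart_fst, L.comm]
  isOpen := MorphismProperty.of_isPullback (P := @IsOpenImmersion) (chart_isPullback L j)
    j.isOpen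

lemma range_chart : Set.range (chart L j) = PRO.psnd X P ⁻¹' (Set.range j.g) :=
  PRO.range_of_isPullback (chart_isPullback L j).flip

lemma sec_chart_fst (a : k) : (sec L a ≫ chart L j) ≫ PRO.pfst X P = 𝟙 _ := by
  rw [Category.assoc, chart_fst, sec_q]

lemma sec_chart_snd (a : k) : (sec L a ≫ chart L j) ≫ PRO.psnd X P =
    PRO.str X ≫ evA a ≫ j.g := by
  rw [Category.assoc, chart_snd, ← Category.assoc, sec_tt, Category.assoc]

lemma sep_fst : IsSeparated (PRO.pfst X P) :=
  MorphismProperty.of_isPullback (P := @IsSeparated) (PRO.prod_isPullback X P).flip P.sep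

/-- The section `a` of the product. -/
noncomputable def psec (a : k) : ClosedIn X (X.prod P) where
  g := sec L a ≫ chart L j
  comm := by rw [← PRO.pfst_comp, ← Category.assoc, sec_chart_fst, Category.id_comp]
  closed := closed_of_section _ (PRO.pfst X P) sep_fst (sec_chart_fst L j a)

end line

lemma compl {Y X : Var k} (L : Line Y X) (H : PLine k) :
    Set.range (sec L (0 : k) ≫ chart L H.j₁) = (Set.range (chart L H.j₀))ᶜ := by
  have h1 : sec L (0 : k) ≫ chart L H.j₁ =
      PRO.sect X (⟨PLP.org H, PLP.org_comm H, PLP.org_closed H⟩ : ClosedIn (aff k k) H.P) := by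
    apply (PRO.prod_isPullback X H.P).hom_ext
    · rw [sec_chart_fst, PRO.sect_fst]
    · rw [sec_chart_snd, PRO.sect_snd]
      rw [← ev_spm]
      rfl
  rw [h1, range_chart, ← Set.preimage_compl, ← PLP.org_range H]
  exact PRO.range_sectIn X (⟨PLP.org H, PLP.org_comm H, PLP.org_closed H⟩ :
    ClosedIn (aff k k) H.P)

end P1G

theorem t_P1G : M_P1G := by
  intro hP k _ Y X L
  obtain ⟨H⟩ := hP k
  have hproper := H.proper
  have hp : IsProper (PRO.pfst X H.P) :=
    MorphismProperty.of_isPullback (P := @IsProper) (PRO.prod_isPullback X H.P).flip hproper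
  exact ⟨{
    z := P1G.secIn L 0
    o := P1G.secIn L 1
    zq := P1G.sec_q L 0
    zt := P1G.sec_t L 0
    oq := P1G.sec_q L 1
    ot := P1G.sec_t L 1
    τ := ⟨P1G.tau L, by rw [← L.comm, ← Category.assoc, P1G.tau_q]⟩
    hτ := P1G.tau_q L
    τz := P1G.sec_tau L
    P := X.prod H.P
    p := ⟨PRO.pfst X H.P, rfl, hp⟩
    j₀ := P1G.chartIn L H.j₀
    j₁ := P1G.chartIn L H.j₁
    s₀ := P1G.psec L H.j₀ 0
    s₁ := P1G.psec L H.j₀ 1
    s₂ := P1G.psec L H.j₁ 0
    ps₀ := P1G.sec_chart_fst L H.j₀ 0
    ps₁ := P1G.sec_chart_fst L H.j₀ 1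
    ps₂ := P1G.sec_chart_fst L H.j₁ 0
    c₀ := P1G.compl L H
    c₁ := P1G.compl L (P1G.swap H)
    e₀ := rfl
    e₁ := rfl
    f₁ := by
      change P1G.sec L 1 ≫ P1G.chart L H.j₁ = P1G.sec L 1 ≫ P1G.chart L H.j₀
      apply (PRO.prod_isPullback X H.P).hom_ext
      · rw [P1G.sec_chart_fst, P1G.sec_chart_fst]
      · rw [P1G.sec_chart_snd, P1G.sec_chart_snd, P1G.ev_glue]
    f₂ := rfl }⟩

end CGR
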