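import Pool.Agent.CGR.Stmts

/-!
# CGR: the module ZSA
-/

set_option autoImplicit false

open Polynomial CategoryTheory AlgebraicGeometry

namespace CGR

open Pool.Agent.Lib_helper55.Beil Pool.Agent.Lib_helper66.OneP CUB CGAP

universe v

namespace ZSA

variable {k A : Type} [Field k] [CommRing A] [Algebra k A]

/-- The evaluation at zero. -/
noncomputable def ev : A[X] →ₐ[k] A := (Polynomial.aeval (0 : A)).restrictScalars k

lemma ev_apply (P : A[X]) : ev (k := k) P = P.eval 0 := by
  change Polynomial.aeval (0 : A) P = _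
  rw [Polynomial.coe_aeval_eq_eval]

lemma ev_surjective : Function.Surjective (ev : A[X] →ₐ[k] A) := fun a =>
  ⟨C a, by rw [ev_apply, eval_C]⟩

lemma ker_ev : RingHom.ker (ev : A[X] →ₐ[k] A).toRingHom = Ideal.span {X} := by
  ext P
  rw [RingHom.mem_ker, Ideal.mem_span_singleton]
  change (ev : A[X] →ₐ[k] A) P = 0 ↔ _
  rw [ev_apply, Polynomial.X_dvd_iff, Polynomial.coeff_zero_eq_eval_zero]

end ZSA

open ZSA in
theorem t_ZSA : M_ZSA.{v} := by
  intro hZ k E _ _ T hT A B _ _ _ _ _ _ μ hμ h i n m hm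
  have hc := complementary_away μ X hμ (ev : A[X] →ₐ[k] A) ev_surjective ker_ev
  obtain ⟨γ, rfl⟩ := ((T (i + 1)).exact_X (n + 2) _ _ hc m).mp hm
  refine hZ k E T hT (aff k A[X]) (aff k A) (lineX A) (clo ev ev_surjective) ?_ ?_ i n γ
  · change Spec.map _ ≫ Spec.map _ = _
    rw [← Spec.map_comp, ← CommRingCat.ofHom_comp]
    have h1 : (ev : A[X] →ₐ[k] A).toRingHom.comp
        (Polynomial.CAlgHom : A →ₐ[k] A[X]).toRingHom = RingHom.id A := by
      ext a
      change (ev : A[X] →ₐ[k] A) (C a) = a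
      rw [ev_apply, eval_C]
    rw [h1]
    exact Spec.map_id _
  · change Spec.map _ ≫ Spec.map _ = Spec.map _ ≫ Spec.map _
    rw [← Spec.map_comp, ← CommRingCat.ofHom_comp, ← Spec.map_comp, ← CommRingCat.ofHom_comp]
    congr 2
    apply Polynomial.ringHom_ext
    · intro c
      change (ev : A[X] →ₐ[k] A) (Polynomial.map (algebraMap k A) (C c)) = algebraMap k A (eval 0 (C c))
      rw [ev_apply, Polynomial.map_C, eval_C, eval_C]
    · change (ev : A[X] →ₐ[k] A) (Polynomial.map (algebraMap k A) X) = algebraMap k A (eval 0 X)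
      rw [ev_apply, Polynomial.map_X, eval_X, eval_X, map_zero]

end CGR
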