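import Pool.Agent.CGR.Stmts

/-!
# CGR, module ZSE: the push-forward along the zero section of a line is zero
-/

set_option autoImplicit false

open Polynomial CategoryTheory AlgebraicGeometry

namespace CGR

open Pool.Agent.Lib_helper55.Beil CUB

universe v

namespace ZSE

variable {k : Type} [Field k]

lemma cl_ext {Z X : Var k} {a b : ClosedIn Z X} (h : a.g = b.g) : a = b := by
  cases a
  cases b
  cases h
  rfl

/-- A closed immersion as a proper morphism. -/
def clPr {Z X : Var k} (a : ClosedIn Z X) : PrMor Z X where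
  g := a.g
  comm := a.comm
  proper := by
    haveI := a.closed
    infer_instance

/-- The identity as a proper morphism. -/
def idPr (X : Var k) : PrMor X X where
  g := 𝟙 X.X
  comm := by simp
  proper := inferInstance

/-- The identity as a closed immersion. -/
def idCl (X : Var k) : ClosedIn X X where
  g := 𝟙 X.X
  comm := by simp
  closed := inferInstance

/-- The identity as an open immersion. -/
def idOp (X : Var k) : OpenIn X X where
  g := 𝟙 X.X
  comm := by simp
  isOpen := inferInstance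

/-- The identity as an isomorphism. -/
def idIso (X : Var k) : VIso X X where
  e := Iso.refl X.X
  comm := by simp

variable {E : Type} [Field E] {T : ∀ i : ℕ, Homology.{v} k E i}

lemma res_id (hT : Full T) (i n : ℕ) (X : Var k) (m : (T i).H n X) :
    (T i).R n (idOp X) m = m := by
  have h1 := hT.toExtra.clopen i n X X (idCl X) (idOp X) rfl m
  rwa [hT.toExtra.push_id i n X (idCl X) rfl m] at h1

/-- Restriction of a push-forward along a section which factors through the open subvariety. -/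
lemma res_push (hT : Full T) (i n : ℕ) {X Y P : Var k} (b : ClosedIn X Y) (j : OpenIn Y P)
    (s : ClosedIn X P) (h : b.g ≫ j.g = s.g) (m : (T i).H n X) :
    (T i).R n j ((T i).P n s m) = (T i).P n b m := by
  haveI := j.isOpen
  have hp : IsPullback (idOp X).g (clPr b).g (clPr s).g j.g := by
    have h1 : IsPullback (𝟙 X.X) b.g b.g (𝟙 Y.X) := IsPullback.of_horiz_isIso ⟨by simp⟩
    have h2 : IsPullback (𝟙 Y.X) (𝟙 Y.X) j.g j.g := IsKernelPair.id_of_mono j.g
    have h3 := h1.paste_vert h2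
    rw [Category.comp_id, h] at h3
    exact h3
  have h4 := hT.pfRestriction i n (clPr s) (clPr b) (idOp X) j hp m
  rw [res_id hT, hT.pfClosed i n s (clPr s) rfl m, hT.pfClosed i n b (clPr b) rfl m] at h4
  exact h4

/-- Push-forward of a push-forward along a section. -/
lemma push_sec (hT : Full T) (i n : ℕ) {X P : Var k} (s : ClosedIn X P) (p : PrMor P X)
    (h : s.g ≫ p.g = 𝟙 X.X) (m : (T i).H n X) : hT.G i n p ((T i).P n s m) = m := by
  have h1 := hT.pfFunctorial i n (clPr s) p (idPr X) h m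
  rw [hT.pfClosed i n s (clPr s) rfl m, hT.pfClosed i n (idCl X) (idPr X) rfl m,
    hT.toExtra.push_id i n X (idCl X) rfl m] at h1
  exact h1

/-- The translation acts trivially. -/
lemma tau_triv (hT : Full T) (i n : ℕ) {X Y : Var k} (L : Line Y X) (τ : VIso Y Y)
    (h : τ.e.hom ≫ L.q = L.q) (m : (T (i + 1)).H (n + 2) Y) :
    (T (i + 1)).P (n + 2) τ.cl m = m := by
  obtain ⟨m₀, rfl⟩ := (hT.toExtra.line_bij i n L).2 m
  have h1 := hT.toExtra.line_nat i n L L τ (idIso X) (by rw [h]; simp [idIso]) m₀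
  rw [h1, hT.toExtra.push_id i n X (idIso X).cl rfl m₀]

/-- The key step: a difference of two push-forwards along sections with restriction zero is
zero. -/
lemma diff_zero (hT : Full T) (i n : ℕ) {X U P : Var k} (p : PrMor P X) (j : OpenIn U P)
    (s s' s'' : ClosedIn X P) (hc : Complementary s'' j) (h : s.g ≫ p.g = 𝟙 X.X)
    (h' : s'.g ≫ p.g = 𝟙 X.X) (h'' : s''.g ≫ p.g = 𝟙 X.X) (γ : (T i).H n X)
    (hz : (T i).R n j ((T i).P n s γ) = (T i).R n j ((T i).P n s' γ)) :
    (T i).P n s γ = (T i).P n s' γ := by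
  have h0 : (T i).res n j ((T i).P n s γ - (T i).P n s' γ) = 0 := by
    rw [map_sub, sub_eq_zero]
    exact hz
  obtain ⟨β, hβ⟩ := ((T i).exact_X n s'' j hc _).1 h0
  have h1 : hT.pf i n p ((T i).P n s γ - (T i).P n s' γ) = 0 := by
    rw [map_sub, sub_eq_zero]
    exact (push_sec hT i n s p h γ).trans (push_sec hT i n s' p h' γ).symm
  have h2 : β = 0 := by
    rw [← hβ] at h1
    exact (push_sec hT i n s'' p h'' β).symm.trans h1
  rw [h2, map_zero] at hβ
  exact sub_eq_zero.1 hβ.symm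

end ZSE

open ZSE

theorem t_ZSE : M_ZSE.{v} := by
  intro hP k E _ _ T hT Y X L z hzq hzt i n γ
  obtain ⟨D⟩ := hP k Y X L
  have hz : z = D.z := by
    refine cl_ext (L.prod.hom_ext ?_ ?_)
    · rw [hzq, D.zq]
    · rw [hzt, D.zt]
  subst hz
  have ho : (T (i + 1)).P (n + 2) D.o γ = (T (i + 1)).P (n + 2) D.z γ := by
    rw [← hT.toExtra.push_comp (i + 1) (n + 2) X Y Y D.z D.τ.cl D.o D.τz γ]
    exact tau_triv hT i n L D.τ D.hτ _
  have h01 : (T (i + 1)).P (n + 2) D.s₀ γ = (T (i + 1)).P (n + 2) D.s₁ γ := by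
    refine diff_zero hT (i + 1) (n + 2) D.p D.j₀ D.s₀ D.s₁ D.s₂ D.c₀ D.ps₀ D.ps₁ D.ps₂ γ ?_
    rw [res_push hT (i + 1) (n + 2) D.z D.j₀ D.s₀ D.e₀, res_push hT (i + 1) (n + 2) D.o D.j₀ D.s₁ D.e₁,
      ho]
  have h12 : (T (i + 1)).P (n + 2) D.s₁ γ = (T (i + 1)).P (n + 2) D.s₂ γ := by
    refine diff_zero hT (i + 1) (n + 2) D.p D.j₁ D.s₁ D.s₂ D.s₀ D.c₁ D.ps₁ D.ps₂ D.ps₀ γ ?_
    rw [res_push hT (i + 1) (n + 2) D.o D.j₁ D.s₁ D.f₁, res_push hT (i + 1) (n + 2) D.z D.j₁ D.s₂ D.f₂,
      ho]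
  rw [← res_push hT (i + 1) (n + 2) D.z D.j₀ D.s₀ D.e₀, h01, h12]
  exact ((T (i + 1)).exact_X (n + 2) D.s₂ D.j₀ D.c₀ _).2 ⟨γ, rfl⟩

end CGR
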