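import Pool.Agent.CGAP.Asm3
import Pool.Agent.CGR.CRC
import Pool.Agent.CGR.CRG
import Pool.Agent.CGR.CRH
import Pool.Agent.CGR.CRJ
import Pool.Agent.CGR.CRV
import Pool.Agent.CGR.CRZ
import Pool.Agent.CGR.FMG
import Pool.Agent.CGR.GDC
import Pool.Agent.CGR.GMI
import Pool.Agent.CGR.Mn
import Pool.Agent.CGR.P1G
import Pool.Agent.CGR.ZSA
import Pool.Agent.CGR.ZSE

/-!
# CGR: assembly of all modules
-/

set_option autoImplicit false

namespace CGR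

open CGAP

namespace Asm

universe v

theorem s_ZSA : S_ZSA.{v} := t_ZSA.{v} (t_ZSE.{v} (t_P1G CUB.Asm2.s_PLI))

theorem s_CRC : S_CRC := t_CRC t_CRZ (t_CRJ t_CRV t_GMI)

theorem s_CRG : S_CRG.{v} := t_CRG.{v} s_CRC (t_CRH.{v} t_CRV t_CRZ s_ZSA.{v})

theorem s_FMG : S_FMG.{v} := t_FMG.{v} t_VCH t_VHO.{v} t_TRA.{v} t_AFC.{v} s_CRG.{v} t_GDC

end Asm

end CGR
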