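import Pool.Agent.EXS.StE

/-!
# A slowly growing level function, aligned blocks of given sizes
-/

set_option autoImplicit false

open Filter

namespace StarkC

namespace CGR

/-- The numbers `m₀`, ..., `m₀ + C s - 1` are at the level `s`, `C s` divides `m₀` and the blocks of
length five are in `J`. -/
theorem combC (C : ℕ → ℕ) (hC : ∀ s, 0 < C s) (g : ℕ → ℕ) (hg : Tendsto g atTop atTop) :
    ∃ lev : ℕ → ℕ, Tendsto lev atTop atTop ∧ ∀ J : Set ℕ,
      (∃ᶠ a in atTop, ∀ j, a ≤ j → j ≤ a + g a → j ∈ J) →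
      ∀ b : ℕ, ∃ s m₀ : ℕ, b ≤ s ∧ b ≤ m₀ ∧ m₀ % C s = 0 ∧ (∀ k < C s, lev (m₀ + k) = s) ∧
        ∀ j, 5 * m₀ ≤ j → j < 5 * (m₀ + C s) → j ∈ J := by
  -- thresholds
  have hth : ∀ s : ℕ, ∃ b : ℕ, ∀ a ≥ b, 5 * (2 * C s + 2 * C (s + 1)) + 9 ≤ g a := fun s =>
    (tendsto_atTop.1 hg (5 * (2 * C s + 2 * C (s + 1)) + 9)).exists_forall_of_atTop
  choose b hb using hth
  -- the switch points
  let c : ℕ → ℕ := fun s => Nat.rec 0 (fun t ct => ct + 2 * C t + b (t + 1) + 1) s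
  have c0 : c 0 = 0 := rfl
  have cs : ∀ s, c (s + 1) = c s + 2 * C s + b (s + 1) + 1 := fun s => rfl
  have cmono : StrictMono c := strictMono_nat_of_lt_succ fun s => by rw [cs]; omega
  have hcb : ∀ s, 0 < s → b s ≤ c s := by
    intro s hs
    obtain ⟨t, rfl⟩ : ∃ t, s = t + 1 := ⟨s - 1, by omega⟩
    rw [cs]; omega
  have hid : ∀ s, s ≤ c s := fun s => cmono.id_le s
  have hex : ∀ m : ℕ, ∃ s, m < c (s + 1) := fun m => ⟨m, by
    have := hid (m + 1)
    omega⟩
  let lev : ℕ → ℕ := fun m => Nat.find (hex m)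
  have hlev : ∀ m s, c s ≤ m → m < c (s + 1) → lev m = s := by
    intro m s h1 h2
    refine (Nat.find_eq_iff (hex m)).2 ⟨h2, fun t ht h3 => ?_⟩
    have := cmono.monotone (show t + 1 ≤ s by omega)
    omega
  have hlev2 : ∀ m, c (lev m) ≤ m ∧ m < c (lev m + 1) := by
    intro m
    refine ⟨?_, Nat.find_spec (hex m)⟩
    rcases Nat.eq_zero_or_pos (lev m) with h | h
    · rw [h, c0]; exact Nat.zero_le _
    · by_contra hc
      have h3 : m < c (lev m - 1 + 1) := by
        rw [Nat.sub_add_cancel h]; omega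
      exact Nat.find_min (hex m) (m := lev m - 1) (by show lev m - 1 < lev m; omega) h3
  refine ⟨lev, ?_, fun J hJ s₀ => ?_⟩
  · refine tendsto_atTop.2 fun s => ?_
    filter_upwards [eventually_ge_atTop (c s)] with m hm
    by_contra hlt
    have h1 := (hlev2 m).2
    have h2 := cmono.monotone (show lev m + 1 ≤ s by omega)
    omega
  obtain ⟨a, ha, ha2⟩ := (hJ.and_eventually (eventually_ge_atTop (5 * c (s₀ + 1) + 5))).exists
  -- the first full block
  obtain ⟨m₀, hm1, hm2⟩ : ∃ m₀, a ≤ 5 * m₀ ∧ 5 * m₀ < a + 5 := ⟨(a + 4) / 5, by omega, by omega⟩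
  have hm3 : c (s₀ + 1) ≤ m₀ := by omega
  set s := lev m₀ with hs
  have hs1 := hlev2 m₀
  rw [← hs] at hs1
  have hs0 : s₀ + 1 ≤ s := by
    by_contra hlt
    have h2 := cmono.monotone (show s + 1 ≤ s₀ + 1 by omega)
    omega
  have hga : 5 * (2 * C s + 2 * C (s + 1)) + 9 ≤ g a := by
    refine hb s a ?_
    have h1 := hcb s (by omega)
    omega
  -- multiples
  have hres : ∀ p q : ℕ, 0 < q → ∃ m, p ≤ m ∧ m < p + q ∧ m % q = 0 := by
    intro p q hq
    have h1 := Nat.mod_lt p hq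
    have h2 := Nat.div_add_mod p q
    rcases Nat.eq_zero_or_pos (p % q) with h | h
    · exact ⟨p, le_refl _, by omega, h⟩
    · refine ⟨q * (p / q + 1), ?_, ?_, Nat.mul_mod_right _ _⟩
      · rw [Nat.mul_add, Nat.mul_one]; omega
      · rw [Nat.mul_add, Nat.mul_one]; omega
  rcases le_or_gt (m₀ + 2 * C s) (c (s + 1)) with hle | hgt
  · obtain ⟨m, h1, h2, h3⟩ := hres m₀ (C s) (hC s)
    have h5 := hid (s₀ + 1)
    exact ⟨s, m, by omega, by omega, h3, fun k hk => hlev _ s (by omega) (by omega),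
      fun j hj1 hj2 => ha _ (by omega) (by omega)⟩
  · obtain ⟨m, h1, h2, h3⟩ := hres (c (s + 1)) (C (s + 1)) (hC _)
    have h4 := cs (s + 1)
    have h5 := hid (s + 1)
    exact ⟨s + 1, m, by omega, by omega, h3, fun k hk => hlev _ (s + 1) (by omega) (by omega),
      fun j hj1 hj2 => ha _ (by omega) (by omega)⟩

end CGR

end StarkC
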