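import Pool.Agent.EXSG.SIG1
import Pool.Agent.CGR.UDef

/-!
# Induction with a factor in a group
-/

open NumberField IsDedekindDomain
open scoped TensorProduct Classical

namespace StarkC.CGR

/-- Stark's assertion up to a factor in `U` for the linear character `ψ` and `σ`, all `S`, `φ`. -/
def LinU (U : Subgroup ℂˣ) (σ : ℂ ≃+* ℂ) (K L : Type) [Field K] [NumberField K] [Field L]
    [NumberField L] [Algebra K L] (ψ : (L ≃ₐ[K] L) →* ℂˣ) : Prop :=
  ∀ (S : Finset (HeightOneSpectrum (𝓞 K)))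
    (φ : XQ L (aboveSet K L S) ≃ₗ[ℚ] QU L (aboveSet K L S))
    (Θ : XC L (aboveSet K L S) →ₗ[ℂ] XC L (aboveSet K L S)),
    IsPhiTheta K (aboveSet K L S) φ Θ →
    AtU U 1 (S : Set (HeightOneSpectrum (𝓞 K))) (aboveSet K L S) Θ (linRep ψ)
      (linRep (twist σ ψ)) σ

/-- `LinU` for data given on a set `T` equal to `aboveSet F L S`. -/
theorem linU_cast {U : Subgroup ℂˣ} {σ : ℂ ≃+* ℂ} {F L : Type} [Field F] [NumberField F]
    [Field L] [NumberField L] [Algebra F L] {ψ : (L ≃ₐ[F] L) →* ℂˣ} (h : LinU U σ F L ψ)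
    (S : Finset (HeightOneSpectrum (𝓞 F))) (T : Set (HeightOneSpectrum (𝓞 L)))
    (hT : aboveSet F L (S : Set (HeightOneSpectrum (𝓞 F))) = T)
    (φ : XQ L T ≃ₗ[ℚ] QU L T) (Θ : XC L T →ₗ[ℂ] XC L T) (hφ : IsPhiTheta F T φ Θ) :
    AtU U 1 (S : Set (HeightOneSpectrum (𝓞 F))) T Θ (linRep ψ) (linRep (twist σ ψ)) σ := by
  subst hT
  exact h S φ Θ hφ

/-- IND at one automorphism, with a factor in `U`. -/
theorem indU (U : Subgroup ℂˣ) (σ : ℂ ≃+* ℂ) (K N : Type) [Field K] [NumberField K] [Field N]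
    [NumberField N] [Algebra K N] [IsGalois K N]
    (S : Finset (HeightOneSpectrum (𝓞 K)))
    (φ : XQ N (aboveSet K N S) ≃ₗ[ℚ] QU N (aboveSet K N S))
    (Θ : XC N (aboveSet K N S) →ₗ[ℂ] XC N (aboveSet K N S))
    (V V' : Type) [AddCommGroup V] [Module ℂ V] [Module.Finite ℂ V]
    [AddCommGroup V'] [Module ℂ V'] [Module.Finite ℂ V']
    (ρ : Representation ℂ (N ≃ₐ[K] N) V) (ρ' : Representation ℂ (N ≃ₐ[K] N) V')
    (m : ℕ) (H : Fin m → Subgroup (N ≃ₐ[K] N)) (ψ : ∀ i, H i →* ℂˣ) (n : Fin m → ℤ)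
    (hφ : IsPhiTheta K (aboveSet K N S) φ Θ) (hσ : ∀ g, ρ'.character g = σ (ρ.character g))
    (hχ : ∀ g, ρ.character g = ∑ i, (n i : ℂ) * indFun (H i) (extZ (ψ i)) g)
    (hgood : ∀ i, LinU U σ (IntermediateField.fixedField (H i)) N (liftChar (H i) (ψ i))) :
    AtU U 1 (S : Set (HeightOneSpectrum (𝓞 K))) (aboveSet K N S) Θ ρ ρ' σ := by
  have hTf : (aboveSet K N (S : Set (HeightOneSpectrum (𝓞 K)))).Finite :=
    IND.aboveSet_finite _ S.finite_toSet
  have hT := STB_thm K N (S : Set (HeightOneSpectrum (𝓞 K)))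
  have hc := THC_thm XRAT_thm K N _ hT φ Θ hTf hφ
  have hb := THB_thm XRAT_thm UNIT_thm K N _ φ Θ hTf hφ
  have hlin : ∀ i, ∃ S' : Finset (HeightOneSpectrum (𝓞 (IntermediateField.fixedField (H i)))),
      aboveSet (IntermediateField.fixedField (H i)) N S' = aboveSet K N S ∧
      AtU U 1
        (S' : Set (HeightOneSpectrum (𝓞 (IntermediateField.fixedField (H i)))))
        (aboveSet K N S) Θ (linRep (liftChar (H i) (ψ i)))
        (linRep (twist σ (liftChar (H i) (ψ i)))) σ := by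
    intro i
    obtain ⟨S', hS'⟩ := IND.exists_S' (IntermediateField.fixedField (H i))
      (S : Set (HeightOneSpectrum (𝓞 K))) S.finite_toSet
    exact ⟨S', hS', linU_cast (hgood i) S' _ hS' φ Θ (IND.isPhiTheta_sub _ hφ)⟩
  choose S' hS' f f' hf hf' u hu hE using hlin
  have hχ1 : ∀ g, ((1 : ℕ) : ℂ) * ρ.character g =
      ∑ i, (n i : ℂ) * indFun (H i) (extZ (ψ i)) g := by
    intro g
    rw [Nat.cast_one, one_mul, hχ g]
  have hχ' : ∀ g, ((1 : ℕ) : ℂ) * ρ'.character g =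
      ∑ i, (n i : ℂ) * indFun (H i) (extZ (twist σ (ψ i))) g := by
    intro g
    rw [Nat.cast_one, one_mul, hσ g, hχ g, map_sum]
    refine Finset.sum_congr rfl fun i _ => ?_
    rw [map_mul, map_intCast, IND.twist_indFun]
  have hlift : ∀ i, twist σ (liftChar (H i) (ψ i)) = liftChar (H i) (twist σ (ψ i)) :=
    fun i => rfl
  have hk : ∀ i : Fin m, (1 : ℕ) = (fun _ : Fin m => 1) i * (fun _ : Fin m => 1) i :=
    fun i => rfl
  refine ⟨fun z => ∏ i, f i z ^ (n i * ((1 : ℕ) : ℤ)), fun z => ∏ i, f' i z ^ (n i * ((1 : ℕ) : ℤ)),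
    ?_, ?_, ∏ i, u i ^ n i, ?_, ?_⟩
  · have h1 := INDP.artin_comb LA_thm RFULL.lb (LIND_thm LA_thm RFULL.lb (LC_thm LA_thm)) _ _ 1 m
      H ψ n hχ1 (fun i => S' i) hS' (fun _ => 1) (fun _ => 1) 1 hk f fun i => by
        have := hf i
        rwa [IND.linRep_character] at this
    exact h1
  · have h1 := INDP.artin_comb LA_thm RFULL.lb (LIND_thm LA_thm RFULL.lb (LC_thm LA_thm)) _ _ 1 m
      H (fun i => twist σ (ψ i)) n hχ' (fun i => S' i) hS' (fun _ => 1) (fun _ => 1) 1 hk f'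
      fun i => by
        have := hf' i
        rwa [IND.linRep_character, hlift] at this
    exact h1
  · exact U.prod_mem fun i _ => U.zpow_mem (hu i) _
  · have hreg : ∀ (V : Type) [AddCommGroup V] [Module ℂ V] [Module.Finite ℂ V]
        (ρ : Representation ℂ (N ≃ₐ[K] N) V) (ψ : ∀ i, H i →* ℂˣ),
        (∀ g, ((1 : ℕ) : ℂ) * ρ.character g = ∑ i, (n i : ℂ) * indFun (H i) (extZ (ψ i)) g) →
        Reg (aboveSet K N (S : Set (HeightOneSpectrum (𝓞 K)))) ρ Θ ^ 1 =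
          ∏ i, (Reg (aboveSet K N (S : Set (HeightOneSpectrum (𝓞 K))))
            (linRep (liftChar (H i) (ψ i))) Θ ^ 1) ^ (n i * ((1 : ℕ) : ℤ)) := by
      intro V _ _ _ ρ ψ hχ
      rw [INDP.reg_comb TRD_thm (RGT_thm RTR_thm) hTf hT Θ hb hc V ρ 1 m H ψ n hχ]
      refine Finset.prod_congr rfl fun i _ => ?_
      rw [pow_one, Nat.cast_one, mul_one]
    have hlead : meromorphicTrailingCoeffAt (fun z => ∏ i, f i z ^ (n i * ((1 : ℕ) : ℤ))) 0 =
        ∏ i, meromorphicTrailingCoeffAt (f i) 0 ^ (n i * ((1 : ℕ) : ℤ)) :=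
      INDT.lead_comb (fun i => n i * ((1 : ℕ) : ℤ)) f fun i => (hf i).1 0
    have hlead' : meromorphicTrailingCoeffAt (fun z => ∏ i, f' i z ^ (n i * ((1 : ℕ) : ℤ))) 0 =
        ∏ i, meromorphicTrailingCoeffAt (f' i) 0 ^ (n i * ((1 : ℕ) : ℤ)) :=
      INDT.lead_comb (fun i => n i * ((1 : ℕ) : ℤ)) f' fun i => (hf' i).1 0
    have hu' : (((∏ i, u i ^ n i : ℂˣ)) : ℂ) = ∏ i, ((u i : ℂˣ) : ℂ) ^ (n i * ((1 : ℕ) : ℤ)) := by
      rw [Units.coe_prod]
      refine Finset.prod_congr rfl fun i _ => ?_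
      rw [Units.val_zpow_eq_zpow_val, Nat.cast_one, mul_one]
    rw [hlead, hlead', hreg V ρ ψ hχ1, hreg V' ρ' (fun i => twist σ (ψ i)) hχ',
      ← Finset.prod_div_distrib, ← Finset.prod_div_distrib, map_prod, hu',
      ← Finset.prod_mul_distrib]
    refine Finset.prod_congr rfl fun i _ => ?_
    rw [← div_zpow, ← div_zpow, map_zpow₀, hE i, ← mul_zpow]
    rfl

/-- Stark's assertion at `σ` up to a factor in `U` for a representation of `Gal(L/K)` from a
combination of induced characters over a larger field. -/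
theorem of_combU (U : Subgroup ℂˣ) (σ : ℂ ≃+* ℂ)
    {K L N : Type} [Field K] [NumberField K] [Field L] [NumberField L] [Field N] [NumberField N]
    [Algebra K L] [Algebra K N] [Algebra L N] [IsScalarTower K L N] [IsGalois K L] [IsGalois K N]
    (S : Finset (HeightOneSpectrum (𝓞 K)))
    (φ : XQ L (aboveSet K L S) ≃ₗ[ℚ] QU L (aboveSet K L S))
    (Θ : XC L (aboveSet K L S) →ₗ[ℂ] XC L (aboveSet K L S))
    (V V' : Type) [AddCommGroup V] [Module ℂ V] [Module.Finite ℂ V]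
    [AddCommGroup V'] [Module ℂ V'] [Module.Finite ℂ V']
    (ρ : Representation ℂ (L ≃ₐ[K] L) V) (ρ' : Representation ℂ (L ≃ₐ[K] L) V')
    (hφ : IsPhiTheta K (aboveSet K L S) φ Θ) (hσ : ∀ g, ρ'.character g = σ (ρ.character g))
    {ι : Type} [Fintype ι] (H : ι → Subgroup (N ≃ₐ[K] N)) (ψ : ∀ i, H i →* ℂˣ) (n : ι → ℤ)
    (hchar : ∀ g : N ≃ₐ[K] N, ρ.character (AlgEquiv.restrictNormalHom L g) =
        ∑ i, (n i : ℂ) * indFun (H i) (extZ (ψ i)) g)
    (hgood : ∀ i, LinU U σ (IntermediateField.fixedField (H i)) N (liftChar (H i) (ψ i))) :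
    AtU U 1 (S : Set (HeightOneSpectrum (𝓞 K))) (aboveSet K L S) Θ ρ ρ' σ := by
  obtain ⟨φ', Θ', hφ', hR⟩ := RFULL.infl K L N S φ Θ hφ
  let e := Fintype.equivFin ι
  have hchar' : ∀ g : N ≃ₐ[K] N, ρ.character (AlgEquiv.restrictNormalHom L g) =
      ∑ j : Fin (Fintype.card ι), (n (e.symm j) : ℂ) *
        indFun (H (e.symm j)) (extZ (ψ (e.symm j))) g := by
    intro g
    rw [hchar g]
    exact Fintype.sum_equiv e _ _ fun i => by rw [Equiv.symm_apply_apply]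
  have h3 := indU U σ K N S φ' Θ' V V' (ρ.comp (AlgEquiv.restrictNormalHom L))
    (ρ'.comp (AlgEquiv.restrictNormalHom L)) (Fintype.card ι) (fun j => H (e.symm j))
    (fun j => ψ (e.symm j)) (fun j => n (e.symm j)) hφ' (fun g => hσ _) hchar'
    (fun j => hgood (e.symm j))
  obtain ⟨f, f', hf, hf', u, hu, hE⟩ := h3
  refine ⟨f, f', ⟨hf.1, fun s hs => ?_⟩, ⟨hf'.1, fun s hs => ?_⟩, u, hu, ?_⟩
  · rw [hf.2 s hs, MAIN.logL_infl LINF_thm]
  · rw [hf'.2 s hs, MAIN.logL_infl LINF_thm]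
  · rw [hR V ρ, hR V' ρ'] at hE
    exact hE

end StarkC.CGR
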