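import Mathlib

/-!
# Complex numbers which are zero modulo infinitely many primes

`w : ℂ` is zero if it is in the maximal ideal of every valuation ring of `ℂ` above `p`, for infinitely
many prime numbers `p`. (It is not assumed that `w` is algebraic.)
-/

set_option autoImplicit false

open Polynomial

namespace StarkC.CGR.LZ

/-- `w` is zero modulo every place of `ℂ` above `p` -/
def ZeroMod (p : ℕ) (w : ℂ) : Prop :=
  ∀ O : ValuationSubring ℂ, (p : ℂ) ∈ O.nonunits → w ∈ O.nonunits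

theorem zero (p : ℕ) : ZeroMod p 0 := by
  intro O _
  rw [ValuationSubring.mem_nonunits_iff, map_zero]
  exact zero_lt_one

/-- a transcendental number can be made a nonunit above `p` -/
theorem exists_trans {p : ℕ} (hp : p.Prime) {y : ℂ} (hy : Transcendental ℤ y) :
    ∃ O : ValuationSubring ℂ, (p : ℂ) ∈ O.nonunits ∧ y ∈ O.nonunits := by
  let A : Subring ℂ := (Algebra.adjoin ℤ {y}).toSubring
  have hyA : y ∈ A := Algebra.self_mem_adjoin_singleton ℤ y
  have hpA : (p : ℂ) ∈ A := natCast_mem A p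
  let I : Ideal A := Ideal.span {⟨(p : ℂ), hpA⟩, ⟨y, hyA⟩}
  have hI : I ≠ ⊤ := by
    intro htop
    have h1 : (1 : A) ∈ I := by rw [htop]; trivial
    obtain ⟨a, b, hab⟩ := Ideal.mem_span_pair.1 h1
    have hA : ∀ c : A, ∃ f : ℤ[X], aeval y f = (c : ℂ) := by
      intro c
      have hc : (c : ℂ) ∈ Algebra.adjoin ℤ {y} := c.2
      rw [Algebra.adjoin_singleton_eq_range_aeval] at hc
      exact hc
    obtain ⟨f, hf⟩ := hA a
    obtain ⟨g, hg⟩ := hA b
    have h2 : (a : ℂ) * p + b * y = 1 := by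
      have := congrArg (fun c : A => (c : ℂ)) hab
      simpa using this
    have h3 : aeval y (f * C (p : ℤ) + g * X - 1) = 0 := by
      simp only [map_sub, map_add, map_mul, aeval_X, map_one, aeval_C, hf, hg]
      simp [h2]
    have h4 : f * C (p : ℤ) + g * X - 1 = 0 := (transcendental_iff.1 hy) _ h3
    have h5 := congrArg (eval 0) h4
    simp at h5
    have h6 : (p : ℤ) ∣ 1 := ⟨eval 0 f, by linarith⟩
    have h7 : p ∣ 1 := by exact_mod_cast h6
    exact hp.one_lt.ne' (Nat.dvd_one.1 h7)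
  obtain ⟨B, -, hB⟩ := Ideal.image_subset_nonunits_valuationSubring I hI
  exact ⟨B, hB ⟨⟨(p : ℂ), hpA⟩, Ideal.subset_span (by simp), rfl⟩,
    hB ⟨⟨y, hyA⟩, Ideal.subset_span (by simp), rfl⟩⟩

/-- there is a valuation ring above `p` -/
theorem exists_above {p : ℕ} (hp : p.Prime) :
    ∃ O : ValuationSubring ℂ, (p : ℂ) ∈ O.nonunits := by
  have hpA : (p : ℂ) ∈ (⊥ : Subring ℂ) := natCast_mem _ p
  let I : Ideal (⊥ : Subring ℂ) := Ideal.span {⟨(p : ℂ), hpA⟩}
  have hI : I ≠ ⊤ := by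
    intro htop
    have h1 : (1 : (⊥ : Subring ℂ)) ∈ I := by rw [htop]; trivial
    obtain ⟨a, ha⟩ := Ideal.mem_span_singleton'.1 h1
    obtain ⟨m, hm⟩ := Subring.mem_bot.1 a.2
    have h2 : (a : ℂ) * p = 1 := by
      have := congrArg (fun c : (⊥ : Subring ℂ) => (c : ℂ)) ha
      simpa using this
    rw [← hm] at h2
    have h3 : m * (p : ℤ) = 1 := by exact_mod_cast h2
    have h6 : (p : ℤ) ∣ 1 := ⟨m, by linarith⟩
    have h7 : p ∣ 1 := by exact_mod_cast h6
    exact hp.one_lt.ne' (Nat.dvd_one.1 h7)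
  obtain ⟨B, -, hB⟩ := Ideal.image_subset_nonunits_valuationSubring I hI
  exact ⟨B, hB ⟨⟨(p : ℂ), hpA⟩, Ideal.subset_span (by simp), rfl⟩⟩

theorem mul_lt {Γ : Type*} [LinearOrderedCommGroupWithZero Γ] {a b : Γ} (ha : a ≤ 1)
    (hb : b < 1) : a * b < 1 :=
  lt_of_le_of_lt (by simpa using mul_le_mul' ha (le_refl b)) hb

theorem int_val {p : ℕ} (hp : p.Prime) {O : ValuationSubring ℂ} (hO : (p : ℂ) ∈ O.nonunits)
    {N : ℤ} (hN : ¬ (p : ℤ) ∣ N) : O.valuation (N : ℂ) = 1 := by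
  have hle : ∀ m : ℤ, O.valuation (m : ℂ) ≤ 1 := fun m =>
    (O.valuation_le_one_iff _).2 (intCast_mem O m)
  refine le_antisymm (hle N) ?_
  by_contra hlt
  rw [not_le] at hlt
  rw [ValuationSubring.mem_nonunits_iff] at hO
  have hcop : IsCoprime (p : ℤ) N :=
    (Prime.coprime_iff_not_dvd (Nat.prime_iff_prime_int.1 hp)).2 hN
  obtain ⟨a, b, hab⟩ := hcop
  have h1 : ((a : ℂ) * (p : ℂ) + b * N) = 1 := by exact_mod_cast hab
  have h2 : O.valuation ((a : ℂ) * (p : ℂ) + b * N) < 1 := by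
    refine (O.valuation.map_add _ _).trans_lt (max_lt ?_ ?_)
    · rw [map_mul]
      exact mul_lt (hle a) hO
    · rw [map_mul]
      exact mul_lt (hle b) hlt
  rw [h1, map_one] at h2
  exact lt_irrefl _ h2

theorem val_integral {O : ValuationSubring ℂ} {x : ℂ} (hx : IsIntegral ℤ x) :
    O.valuation x ≤ 1 := by
  rw [ValuationSubring.valuation_le_one_iff]
  exact LocalSubring.mem_of_isMax_of_isIntegral (O.isMax_toLocalSubring) hx.tower_top

/-- LEMMA Z: a complex number which is zero modulo infinitely many primes is zero. -/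
theorem lemmaZ {P : Set ℕ} (hP : ∀ p ∈ P, p.Prime) (hinf : P.Infinite) {w : ℂ}
    (h : ∀ p ∈ P, ZeroMod p w) : w = 0 := by
  by_contra hw
  have key : ∀ O : ValuationSubring ℂ, w ∈ O.nonunits → ¬ O.valuation w⁻¹ ≤ 1 := by
    intro O hO hle
    rw [ValuationSubring.mem_nonunits_iff] at hO
    have h1 : O.valuation (w * w⁻¹) < 1 := by
      rw [map_mul, mul_comm]
      exact mul_lt hle hO
    rw [mul_inv_cancel₀ hw, map_one] at h1
    exact lt_irrefl _ h1
  by_cases ht : Transcendental ℤ w⁻¹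
  · obtain ⟨p, hp⟩ := hinf.nonempty
    obtain ⟨O, h1, h2⟩ := exists_trans (hP p hp) ht
    exact key O (h p hp O h1) (by
      rw [ValuationSubring.mem_nonunits_iff] at h2
      exact h2.le)
  · have halg : IsAlgebraic ℤ w⁻¹ := not_not.1 ht
    obtain ⟨N, hN, hint⟩ := halg.exists_integral_multiple
    obtain ⟨p, hp, hlt⟩ := hinf.exists_gt N.natAbs
    have hpN : ¬ (p : ℤ) ∣ N := by
      intro hd
      have := Nat.le_of_dvd (Int.natAbs_pos.2 hN) (Int.natCast_dvd.1 hd)
      omega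
    obtain ⟨O, hO⟩ := exists_above (hP p hp)
    refine key O (h p hp O hO) ?_
    have h1 := val_integral (O := O) hint
    rw [zsmul_eq_mul, map_mul, int_val (hP p hp) hO hpN, one_mul] at h1
    exact h1


end StarkC.CGR.LZ

/-- LEMMA Z for units: a complex number which is one modulo infinitely many primes is one. -/
theorem StarkC.CGR.lemmaZ (P : Set ℕ) (hP : P.Infinite) (hp : ∀ p ∈ P, p.Prime) (z : ℂ)
    (h : ∀ p ∈ P, ∀ O : ValuationSubring ℂ, (p : ℂ) ∈ O.nonunits → z - 1 ∈ O.nonunits) : z = 1 :=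
  sub_eq_zero.1 (StarkC.CGR.LZ.lemmaZ hp hP fun p hpP => h p hpP)
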