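import Pool.Agent.EXSG.PDefsS

/-!
# Stark's assertion modulo a prime number: printable definitions
-/

open NumberField IsDedekindDomain
open scoped Classical

namespace StarkW

open StarkP

/-- `x / y ≡ 1` modulo `p`: `x = u y` with a `u ≠ 0` such that `u - 1` lies in the maximal ideal of
every valuation ring of `ℂ` whose maximal ideal contains `p`. -/
def CongMod (p : ℕ) (x y : ℂ) : Prop :=
  ∃ u : ℂˣ, x = (u : ℂ) * y ∧ ∀ O : ValuationSubring ℂ, (p : ℂ) ∈ O.nonunits →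
    (u : ℂ) - 1 ∈ O.nonunits

/-- Stark's assertion modulo `p`, `A_S(ψ, φ)^σ / A_S(ψ^σ, φ) ≡ 1`, with the given `S` and `σ` for
the linear character `ψ` of `Gal(L/K)` and all `φ`. -/
def LinMod (p : ℕ) (σ : ℂ ≃+* ℂ) {K L : Type} [Field K] [NumberField K] [Field L] [NumberField L]
    [Algebra K L] (S : Finset (HeightOneSpectrum (𝓞 K))) (ψ : (L ≃ₐ[K] L) →* ℂˣ) : Prop :=
  ∀ Θ : ((L → ℝ) →₀ ℂ) →ₗ[ℂ] ((L → ℝ) →₀ ℂ), IsTheta K (aboveSet K L S) Θ →
    ∃ f f' : ℂ → ℂ, IsArtinL (linRep ψ).character (S : Set (HeightOneSpectrum (𝓞 K))) f ∧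
      IsArtinL (linRep (twist σ ψ)).character (S : Set (HeightOneSpectrum (𝓞 K))) f' ∧
      CongMod p (σ (Reg (aboveSet K L S) (linRep ψ) Θ / meromorphicTrailingCoeffAt f 0))
        (Reg (aboveSet K L S) (linRep (twist σ ψ)) Θ / meromorphicTrailingCoeffAt f' 0)

/-- Stark's assertion modulo `p` for `σ` with `S = S_∞` for all injective linear characters of
`Gal(L/K)`. -/
def FaithMod (p : ℕ) (σ : ℂ ≃+* ℂ) (K L : Type) [Field K] [NumberField K] [Field L] [NumberField L]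
    [Algebra K L] : Prop :=
  ∀ ψ : (L ≃ₐ[K] L) →* ℂˣ, Function.Injective ψ → LinMod p σ ∅ ψ

end StarkW
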