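import Pool.Agent.CGR.PDefsC
import Pool.Agent.ASY.PDefsA

/-!
# Neighbouring factors congruent modulo a prime number: printable definition
-/

open NumberField IsDedekindDomain
open scoped Classical

namespace StarkW

open StarkP

/-- For `j ∈ J` there is a factor `u_j` with `A(ψ_j, φ)^σ = u_j A(ψ_j^σ, φ)` for all `φ`, with
`S = S_∞`, and `u_(j+1) / u_j ≡ 1` modulo `p_j` for `j ∈ J`, `j + 1 ∈ J` with
`p_(j+1) = p_j`. -/
def StepMod (p : ℕ → ℕ) (J : Set ℕ) (σ : ℂ ≃+* ℂ) (K L : ℕ → Type)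
    [∀ j, Field (K j)] [∀ j, NumberField (K j)] [∀ j, Field (L j)] [∀ j, NumberField (L j)]
    [∀ j, Algebra (K j) (L j)] (ψ : ∀ j, (L j ≃ₐ[K j] L j) →* ℂˣ) : Prop :=
  ∃ u : ℕ → ℂˣ, (∀ j ∈ J, LinIn {u j} σ (ψ j)) ∧
    ∀ j ∈ J, j + 1 ∈ J → p (j + 1) = p j → CongMod (p j) (u (j + 1)) (u j)

end StarkW
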