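import Pool.Agent.CGR.SEQU
import Pool.Agent.CGR.LZ

/-!
# The fields are chosen before the prime numbers
-/

set_option autoImplicit false

open NumberField IsDedekindDomain Filter
open scoped TensorProduct Classical

namespace StarkC

namespace CGR

open StarkC.EXS StarkC.EXSG

variable {N : ℕ → Type} [∀ k, Field (N k)] [∀ k, NumberField (N k)] [∀ k, IsGalois ℚ (N k)]

/-- The combination `t` is decomposed at levels at which the assertion modulo `ps s` at `σ` holds for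
all pairs of type (A), (B), for arbitrarily large `s`. -/
def SolvedP (ps : ℕ → ℕ) (σ : ℂ ≃+* ℂ) (t : Task N) : Prop :=
  ∀ b : ℕ, ∃ s : ℕ, b ≤ s ∧
    ∃ (T : Finset ℕ) (E : Type) (_ : Field E) (M : LevE E), DecAt T E t M ∧
      ∀ q : Pr T E M, GoodU q (ps s) σ

/-- The sequence of extensions. -/
theorem seqP (hLE : Stmt_LEVE) (hD : DecQ) (hO : OutU) (hC : Stmt_COMB5)
    (hcof : ∀ (M : Type) [Field M] [NumberField M], ∃ k, Nonempty (M →+* N k))
    (F g : ℕ → ℕ) (hg : Tendsto g atTop atTop) :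
    ∃ (Y : ℕ → SSQM.Ext) (st : ℕ → ℕ), Tendsto st atTop atTop ∧
      (∀ j, F j ≤ Module.finrank ℚ (Y j).K ∧ PairQ ∅ ℚ 1 (Y j).K (Y j).L) ∧
      (∀ (T : Finset ℕ) (E : Type) [Field E] [NumberField E] (ε : ℝ), 0 < ε →
        ∀ᶠ j in atTop, PairQ T E ε (Y j).K (Y j).L) ∧
      ∀ J : Set ℕ, (∃ᶠ a in atTop, ∀ j, a ≤ j → j ≤ a + g a → j ∈ J) → ∀ σ : ℂ ≃+* ℂ,
        ∀ ps : ℕ → ℕ, (∀ j ∈ J, StarkW.FaithMod (ps (st j)) σ (Y j).K (Y j).L) →
          ∀ t : Task N, SolvedP ps σ t := by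
  have hct := task_countable N
  have hne := task_nonempty N
  obtain ⟨tk, htk⟩ := exists_surjective_nat (Task N)
  have hS : ∀ s, Nonempty (StgU N s) := fun s => exists_stgU hLE hD hO s
  let S : ∀ s, StgU N s := fun s => (hS s).some
  have hfin : ∀ s, Finite (FmU tk (S s)) := fun s => fmU_finite tk (S s)
  have hnon : ∀ s, Nonempty (FmU tk (S s)) := fun s => fmU_nonempty tk (S s)
  let C : ℕ → ℕ := fun s => Nat.card (FmU tk (S s))
  have hCpos : ∀ s, 0 < C s := fun s => Nat.card_pos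
  let e : ∀ s, FmU tk (S s) ≃ Fin (C s) := fun s => Finite.equivFin _
  obtain ⟨lev, hlev, hJ⟩ := hC C hCpos g hg
  let x : ∀ m, FmU tk (S (lev m)) := fun m =>
    (e (lev m)).symm ⟨m % C (lev m), Nat.mod_lt _ (hCpos _)⟩
  let B : ℕ → ℕ := fun m => ∑ r ∈ Finset.range 5, F (5 * m + r)
  have hX : ∀ m, ConclU (Finset.range (lev m)) (S (lev m)).E (1 / ((lev m : ℝ) + 1)) (B m)
      (FmGoodU tk (S (lev m)) (x m)) := fun m => fmU_out tk (S (lev m)) (x m) (B m)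
  choose X hX1 hX2 using hX
  have hpair : ∀ j, PairQ (Finset.range (lev (j / 5))) (S (lev (j / 5))).E
      (1 / ((lev (j / 5) : ℝ) + 1)) (X (j / 5) ⟨j % 5, Nat.mod_lt _ (by norm_num)⟩).K
      (X (j / 5) ⟨j % 5, Nat.mod_lt _ (by norm_num)⟩).L := fun j => (hX1 (j / 5) _).1
  have hdiv : Tendsto (fun j : ℕ => lev (j / 5)) atTop atTop :=
    hlev.comp (Nat.tendsto_div_const_atTop (by norm_num : (5 : ℕ) ≠ 0))
  refine ⟨fun j => X (j / 5) ⟨j % 5, Nat.mod_lt _ (by norm_num)⟩, fun j => lev (j / 5),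
    hdiv, fun j => ⟨?_, ?_⟩, ?_, ?_⟩
  · refine le_trans ?_ (hX1 (j / 5) ⟨j % 5, Nat.mod_lt _ (by norm_num)⟩).2
    have h1 : F (5 * (j / 5) + j % 5) ≤ B (j / 5) :=
      Finset.single_le_sum (f := fun r => F (5 * (j / 5) + r)) (fun _ _ => Nat.zero_le _)
        (Finset.mem_range.2 (Nat.mod_lt _ (by norm_num)))
    rwa [Nat.div_add_mod] at h1
  · refine pairQ_mono (Finset.empty_subset _) (algebraMap ℚ (S (lev (j / 5))).E) ?_ (hpair j)
    have h1 : (0 : ℝ) ≤ (lev (j / 5) : ℝ) := Nat.cast_nonneg _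
    rw [div_le_one (by positivity)]
    linarith
  · intro T E _ _ ε hε
    obtain ⟨k, ⟨ι⟩⟩ := hcof E
    obtain ⟨b, hb⟩ : ∃ b, T ⊆ Finset.range b := by
      obtain ⟨b, hb⟩ := T.bddAbove
      exact ⟨b + 1, fun x hx => Finset.mem_range.2 (Nat.lt_succ_of_le (hb hx))⟩
    obtain ⟨c, hc⟩ := exists_nat_one_div_lt hε
    have h1 : ∀ᶠ j : ℕ in atTop, max k (max b c) ≤ lev (j / 5) :=
      hdiv.eventually (eventually_ge_atTop _)
    filter_upwards [h1] with j hj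
    obtain ⟨κ⟩ := (S (lev (j / 5))).emb k (le_trans (le_max_left _ _) hj)
    refine pairQ_mono (hb.trans (Finset.range_subset_range.2 ?_)) (κ.comp ι) ?_ (hpair j)
    · exact le_trans (le_trans (le_max_left _ _) (le_max_right _ _)) hj
    · refine le_trans ?_ hc.le
      have h2 : (c : ℝ) ≤ (lev (j / 5) : ℝ) := by
        exact_mod_cast le_trans (le_trans (le_max_right _ _) (le_max_right _ _)) hj
      exact one_div_le_one_div_of_le (by positivity) (by linarith)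
  · intro J hJa σ ps hf t b
    obtain ⟨i₀, rfl⟩ := htk t
    obtain ⟨s, hs, hs2⟩ := hJ J hJa (max i₀ b)
    have hs0 : i₀ ≤ s := le_trans (le_max_left _ _) hs
    refine ⟨s, le_trans (le_max_right _ _) hs, Finset.range s,
      (S s).E, inferInstance, (S s).M (tk i₀), (S s).dec (tk i₀), fun p => ?_⟩
    let y : FmU tk (S s) := some ⟨⟨i₀, by omega⟩, p⟩
    obtain ⟨m, hm, hmi, hmJ⟩ := hs2 (e s y).1 (e s y).2
    subst hm
    have hxy : x m = y := by
      have h3 : (⟨m % C (lev m), Nat.mod_lt _ (hCpos _)⟩ : Fin (C (lev m))) = e (lev m) y :=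
        Fin.ext hmi
      show (e (lev m)).symm _ = y
      rw [h3, Equiv.symm_apply_apply]
    have h4 : FmGoodU tk (S (lev m)) (x m) (ps (lev m)) σ := by
      refine hX2 m (ps (lev m)) σ fun r => ?_
      have h5 : (fun (q : ℕ) (E : SSQM.Ext) => StarkW.FaithMod q σ E.K E.L)
          (ps (lev ((5 * m + (r : ℕ)) / 5)))
          (X ((5 * m + (r : ℕ)) / 5) ⟨(5 * m + (r : ℕ)) % 5, Nat.mod_lt _ (by norm_num)⟩) :=
        hf (5 * m + r) (hmJ r r.2)
      have h6 : (5 * m + (r : ℕ)) / 5 = m := by omega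
      have h7 : (5 * m + (r : ℕ)) % 5 = r := by omega
      have h8 : X ((5 * m + (r : ℕ)) / 5) ⟨(5 * m + (r : ℕ)) % 5, Nat.mod_lt _ (by norm_num)⟩ =
          X m r := by
        have h9 : (⟨(5 * m + (r : ℕ)) % 5, Nat.mod_lt _ (by norm_num)⟩ : Fin 5) = r :=
          Fin.ext h7
        rw [h9, h6]
      rw [h8, h6] at h5
      exact h5
    exact h4 ⟨⟨i₀, by omega⟩, p⟩ hxy


/-- Stark's conjecture at each automorphism and one sparse sequence of cyclic extensions, modulo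
one prime number for each member; the fields do not depend on the set of prime numbers. -/
theorem mainP (F g : ℕ → ℕ) (hg : Tendsto g atTop atTop) :
    ∃ Y : ℕ → SSQM.Ext,
      (∀ j, F j ≤ Module.finrank ℚ (Y j).K ∧
        (StarkW.UnrPair ∅ (Y j).K (Y j).L ∨ StarkW.PowPair ℚ 1 (Y j).K (Y j).L)) ∧
      (∀ (T : Finset ℕ) (E : Type) [Field E] [NumberField E] (ε : ℝ), 0 < ε →
        ∀ᶠ j in atTop, StarkW.QExt E (Y j).K ∧
          (StarkW.UnrPair T (Y j).K (Y j).L ∨ StarkW.PowPair E ε (Y j).K (Y j).L)) ∧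
      ∀ P : Set ℕ, P.Infinite → (∀ p ∈ P, p.Prime) →
        ∃ pr : ℕ → ℕ, (∀ j, pr j ∈ P) ∧ Tendsto pr atTop atTop ∧
          ∀ J : Set ℕ, (∃ᶠ a in atTop, ∀ j, a ≤ j → j ≤ a + g a → j ∈ J) → ∀ σ : ℂ ≃+* ℂ,
            (StarkW.ConjAt σ ↔
              (∀ j ∈ J, StarkW.FaithMod (pr j) σ (Y j).K (Y j).L) ∧ StarkW.OddAt σ) := by
  obtain ⟨N, _, _, hgal, hcof⟩ := SSQ.COF_thm
  obtain ⟨Y, st, hst, hY1, hY2, hY3⟩ := seqP (N := N) LEVE_thm (decQ DECE_thm)
    (outU GCE_thm BCX5_thm IDN5_thm FLDE_thm) COMB5_thm hcof F g hg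
  refine ⟨Y, fun j => ⟨(hY1 j).1, (hY1 j).2.1⟩, fun T E _ _ ε hε =>
    (hY2 T E ε hε).mono fun j hj => ⟨hj.2, hj.1⟩, fun P hPi hPp => ?_⟩
  let ps : ℕ → ℕ := fun s => Nat.nth (fun n => n ∈ P) s
  have hps : ∀ s, ps s ∈ P := fun s => Nat.nth_mem_of_infinite hPi s
  have hpsm : StrictMono ps := Nat.nth_strictMono hPi
  refine ⟨fun j => ps (st j), fun j => hps _, hpsm.tendsto_atTop.comp hst,
    fun J hJ σ => ⟨fun h => ?_, ?_⟩⟩
  · exact ⟨fun j _ => faithMod_of fun ψ _ => linAt_of_conj h (Y j).K (Y j).L ψ,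
      fun K L _ _ _ _ _ _ ψ _ _ => linAt_of_conj h K L ψ⟩
  · rintro ⟨hA, hD⟩
    refine conj_of_conjQ (conjQ_ofU lemmaZ (P := P) hPp hcof (fun t b => ?_) hD)
    obtain ⟨s, hbs, h⟩ := hY3 J hJ σ ps hA t b
    exact ⟨ps s, hps s, hbs.trans (hpsm.id_le s), h⟩

end CGR

end StarkC
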