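import Pool.Agent.ASY.SEQC
import Pool.Agent.CGR.SEQP
import Pool.Agent.CGR.COMBC
import Pool.Agent.CGR.PDefsD

/-!
# Neighbouring factors congruent modulo one prime number for each member
-/

set_option autoImplicit false

open NumberField IsDedekindDomain Filter
open scoped TensorProduct Classical

namespace StarkC

namespace CGR

open StarkC.EXS StarkC.EXSG

variable {N : ℕ → Type} [∀ k, Field (N k)] [∀ k, NumberField (N k)] [∀ k, IsGalois ℚ (N k)]

/-- The data of a stage. -/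
structure StgW (N : ℕ → Type) [∀ k, Field (N k)] [∀ k, NumberField (N k)]
    [∀ k, IsGalois ℚ (N k)] (s : ℕ) where
  E : Type
  [fE : Field E]
  [nE : NumberField E]
  emb : ∀ k ≤ s, Nonempty (N k →+* E)
  M : Task N → LevE E
  dec : ∀ t : Task N, DecAt (Finset.range s) E t (M t)
  out : ∀ (x : ASY.FormC (Finset.range s) E) (B : ℕ),
    ASY.OutB (Finset.range s) E (1 / ((s : ℝ) + 1)) x B
  x : Fin 3 → ASY.FormC (Finset.range s) E
  rel : ∀ (σ : ℂ ≃+* ℂ) (a b c : ℂˣ), (x 0).Lin {a} σ → (x 1).Lin {b} σ → (x 2).Lin {c} σ →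
    a = b * c

attribute [instance] StgW.fE StgW.nE

theorem exists_stgW (s : ℕ) : Nonempty (StgW N s) := by
  obtain ⟨E, _, _, _, l, hl, hlo, hlε, hsp, hi, hemb⟩ := exists_E LEVE_thm N s
  have hε : (0 : ℝ) < 1 / ((s : ℝ) + 1) := by positivity
  have h1 : ∀ t : Task N, ∃ M : LevE E, DecAt (Finset.range s) E t M := by
    intro t
    obtain ⟨N', _, _, aN, aE, _, h⟩ := decQ DECE_thm (Finset.range s) E hi (N t.1) t.2.1 t.2.2
    exact ⟨⟨N'⟩, aN, h⟩
  choose M hM using h1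
  obtain ⟨x, hx⟩ := ASY.exists_rel (Finset.range s) E hi
  exact ⟨⟨E, hemb, M, hM, fun x B =>
    ASY.outB GCE_thm IDN5_thm FLDE_thm l _ hl hlo hε hlε _ E hsp x B, x, hx⟩⟩

/-- The pairs of a stage and the three forms. -/
def FmW (tk : ℕ → Task N) {s : ℕ} (S : StgW N s) : Type :=
  (Σ i : Fin (s + 1), Pr (Finset.range s) S.E (S.M (tk i))) ⊕ Fin 3

theorem fmW_finite (tk : ℕ → Task N) {s : ℕ} (S : StgW N s) : Finite (FmW tk S) := by
  have h1 : ∀ i : Fin (s + 1), Finite (Pr (Finset.range s) S.E (S.M (tk i))) :=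
    fun i => pr_finite _ _ _
  unfold FmW
  infer_instance

theorem fmW_nonempty (tk : ℕ → Task N) {s : ℕ} (S : StgW N s) : Nonempty (FmW tk S) :=
  ⟨Sum.inr 0⟩

/-- The form of a member of the family. -/
def formW (tk : ℕ → Task N) {s : ℕ} (S : StgW N s) :
    FmW tk S → ASY.FormC (Finset.range s) S.E :=
  Sum.elim (fun p => ⟨(S.M (tk p.1)).N, p.2.1.1, p.2.1.2, p.2.2⟩) S.x

/-- The sequence of extensions. -/
theorem seqQ (hcof : ∀ (M : Type) [Field M] [NumberField M], ∃ k, Nonempty (M →+* N k))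
    (tk : ℕ → Task N) (S : ∀ s, StgW N s) (F g : ℕ → ℕ) (hg : Tendsto g atTop atTop) :
    ∃ (Y : ℕ → ASY.ExtC) (st : ℕ → ℕ), Tendsto st atTop atTop ∧
      (∀ j, F j ≤ Module.finrank ℚ (Y j).K ∧ PairQ ∅ ℚ 1 (Y j).K (Y j).L) ∧
      (∀ (T : Finset ℕ) (E : Type) [Field E] [NumberField E] (ε : ℝ), 0 < ε →
        ∀ᶠ j in atTop, PairQ T E ε (Y j).K (Y j).L) ∧
      ∀ J : Set ℕ, (∃ᶠ a in atTop, ∀ j, a ≤ j → j ≤ a + g a → j ∈ J) → ∀ b : ℕ,
        ∃ s m₀ c : ℕ, b ≤ s ∧ (∀ j, 5 * m₀ ≤ j → j < 5 * (m₀ + c) → j ∈ J ∧ st j = s) ∧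
          ∀ y : FmW tk (S s), ∃ k < c, ∀ (u : ℕ → ℂˣ) (σ : ℂ ≃+* ℂ),
            (∀ r < 5, StarkW.LinIn {u (5 * (m₀ + k) + r)} σ (Y (5 * (m₀ + k) + r)).ψ) →
            (formW tk (S s) y).Lin {ASY.wordB u (m₀ + k)} σ := by
  have hfin : ∀ s, Finite (FmW tk (S s)) := fun s => fmW_finite tk (S s)
  have hnon : ∀ s, Nonempty (FmW tk (S s)) := fun s => fmW_nonempty tk (S s)
  let C : ℕ → ℕ := fun s => Nat.card (FmW tk (S s))
  have hCpos : ∀ s, 0 < C s := fun s => Nat.card_pos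
  let e : ∀ s, FmW tk (S s) ≃ Fin (C s) := fun s => Finite.equivFin _
  obtain ⟨lev, hlev, hJ⟩ := combC C hCpos g hg
  let x : ∀ m, ASY.FormC (Finset.range (lev m)) (S (lev m)).E := fun m =>
    formW tk (S (lev m)) ((e (lev m)).symm ⟨m % C (lev m), Nat.mod_lt _ (hCpos _)⟩)
  let B : ℕ → ℕ := fun m => ∑ r ∈ Finset.range 5, F (5 * m + r)
  have hX : ∀ m, ASY.OutB (Finset.range (lev m)) (S (lev m)).E (1 / ((lev m : ℝ) + 1)) (x m)
      (B m) := fun m => (S (lev m)).out (x m) (B m)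
  choose X hX1 hX2 using hX
  have hpair : ∀ j, PairQ (Finset.range (lev (j / 5))) (S (lev (j / 5))).E
      (1 / ((lev (j / 5) : ℝ) + 1)) (X (j / 5) ⟨j % 5, Nat.mod_lt _ (by norm_num)⟩).K
      (X (j / 5) ⟨j % 5, Nat.mod_lt _ (by norm_num)⟩).L := fun j => (hX1 (j / 5) _).1
  have hdiv : Tendsto (fun j : ℕ => lev (j / 5)) atTop atTop :=
    hlev.comp (Nat.tendsto_div_const_atTop (by norm_num : (5 : ℕ) ≠ 0))
  refine ⟨fun j => X (j / 5) ⟨j % 5, Nat.mod_lt _ (by norm_num)⟩, fun j => lev (j / 5),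
    hdiv, fun j => ⟨?_, ?_⟩, ?_, ?_⟩
  · refine le_trans ?_ (hX1 (j / 5) ⟨j % 5, Nat.mod_lt _ (by norm_num)⟩).2
    have h1 : F (5 * (j / 5) + j % 5) ≤ B (j / 5) :=
      Finset.single_le_sum (f := fun r => F (5 * (j / 5) + r)) (fun _ _ => Nat.zero_le _)
        (Finset.mem_range.2 (Nat.mod_lt _ (by norm_num)))
    rwa [Nat.div_add_mod] at h1
  · refine pairQ_mono (Finset.empty_subset _) (algebraMap ℚ (S (lev (j / 5))).E) ?_ (hpair j)
    have h1 : (0 : ℝ) ≤ (lev (j / 5) : ℝ) := Nat.cast_nonneg _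
    rw [div_le_one (by positivity)]
    linarith
  · intro T E _ _ ε hε
    obtain ⟨k, ⟨ι⟩⟩ := hcof E
    obtain ⟨b, hb⟩ : ∃ b, T ⊆ Finset.range b := by
      obtain ⟨b, hb⟩ := T.bddAbove
      exact ⟨b + 1, fun x hx => Finset.mem_range.2 (Nat.lt_succ_of_le (hb hx))⟩
    obtain ⟨c, hc⟩ := exists_nat_one_div_lt hε
    have h1 : ∀ᶠ j : ℕ in atTop, max k (max b c) ≤ lev (j / 5) :=
      hdiv.eventually (eventually_ge_atTop _)
    filter_upwards [h1] with j hj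
    obtain ⟨κ⟩ := (S (lev (j / 5))).emb k (le_trans (le_max_left _ _) hj)
    refine pairQ_mono (hb.trans (Finset.range_subset_range.2 ?_)) (κ.comp ι) ?_ (hpair j)
    · exact le_trans (le_trans (le_max_left _ _) (le_max_right _ _)) hj
    · refine le_trans ?_ hc.le
      have h2 : (c : ℝ) ≤ (lev (j / 5) : ℝ) := by
        exact_mod_cast le_trans (le_trans (le_max_right _ _) (le_max_right _ _)) hj
      exact one_div_le_one_div_of_le (by positivity) (by linarith)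
  · intro J hJa b
    obtain ⟨s, m₀, hs, hm, hmod, hlv, hblk⟩ := hJ J hJa b
    refine ⟨s, m₀, C s, hs, fun j h1 h2 => ⟨hblk j h1 h2, ?_⟩, fun y => ?_⟩
    · have h3 : j / 5 = m₀ + (j / 5 - m₀) := by omega
      show lev (j / 5) = s
      rw [h3]
      exact hlv _ (by omega)
    · refine ⟨(e s y : ℕ), (e s y).2, ?_⟩
      generalize hm' : m₀ + (e s y : ℕ) = m
      have hlm : lev m = s := by rw [← hm']; exact hlv _ (e s y).2
      have hmm : m % C s = (e s y : ℕ) := by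
        rw [← hm', Nat.add_mod, hmod, zero_add, Nat.mod_mod, Nat.mod_eq_of_lt (e s y).2]
      clear hm' hm hmod hlv hblk
      subst hlm
      intro u σ hf
      have hxy : x m = formW tk (S (lev m)) y := by
        have h3 : (⟨m % C (lev m), Nat.mod_lt _ (hCpos _)⟩ : Fin (C (lev m))) = e (lev m) y :=
          Fin.ext hmm
        show formW tk (S (lev m)) ((e (lev m)).symm _) = _
        rw [h3, Equiv.symm_apply_apply]
      rw [← hxy]
      refine hX2 m (fun r => u (5 * m + r)) σ fun r => ?_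
      have h5 := hf r r.2
      have h6 : (5 * m + (r : ℕ)) / 5 = m := by omega
      have h7 : (5 * m + (r : ℕ)) % 5 = r := by omega
      have h8 : X ((5 * m + (r : ℕ)) / 5) ⟨(5 * m + (r : ℕ)) % 5, Nat.mod_lt _ (by norm_num)⟩ =
          X m r := by
        have h9 : (⟨(5 * m + (r : ℕ)) % 5, Nat.mod_lt _ (by norm_num)⟩ : Fin 5) = r :=
          Fin.ext h7
        rw [h9, h6]
      have h10 : (fun E : ASY.ExtC => StarkW.LinIn {u (5 * m + r)} σ E.ψ)
          (X ((5 * m + (r : ℕ)) / 5)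
            ⟨(5 * m + (r : ℕ)) % 5, Nat.mod_lt _ (by norm_num)⟩) := h5
      rw [h8] at h10
      exact h10

/-- The factors of a block. -/
theorem block (V : Subgroup ℂˣ) (u : ℕ → ℂˣ) (m₀ c : ℕ)
    (h : ∀ j, 5 * m₀ ≤ j → j + 1 < 5 * (m₀ + c) → u (j + 1) / u j ∈ V) :
    ∀ n, 5 * m₀ + n < 5 * (m₀ + c) → u (5 * m₀ + n) / u (5 * m₀) ∈ V := by
  intro n
  induction n with
  | zero =>
    intro _
    rw [add_zero, div_self']
    exact V.one_mem
  | succ n ih =>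
    intro hn
    have h1 := ih (by omega)
    have h2 := h (5 * m₀ + n) (by omega) (by omega)
    have h3 := V.mul_mem h2 h1
    rwa [div_mul_div_cancel] at h3

theorem word_mem (V : Subgroup ℂˣ) (u : ℕ → ℂˣ) (m₀ c : ℕ)
    (h : ∀ j, 5 * m₀ ≤ j → j + 1 < 5 * (m₀ + c) → u (j + 1) / u j ∈ V) (k : ℕ) (hk : k < c) :
    ASY.wordB u (m₀ + k) / u (5 * m₀) ∈ V := by
  rw [ASY.word_div]
  refine V.prod_mem fun r _ => V.zpow_mem ?_ _
  have hr := r.2
  have h2 := block V u m₀ c h (5 * k + r) (by omega)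
  have h3 : 5 * (m₀ + k) + (r : ℕ) = 5 * m₀ + (5 * k + r) := by ring
  rw [h3]
  exact h2

theorem conjIn_of_conjAt {σ : ℂ ≃+* ℂ} (h : StarkW.ConjAt σ) : StarkW.ConjIn {1} σ := by
  intro K L V V' _ _ _ _ _ _ _ _ _ _ _ _ ρ ρ' hρ S Θ hΘ
  obtain ⟨f, f', hf, hf', hE⟩ := h K L V V' ρ ρ' hρ S Θ hΘ
  exact ⟨f, f', hf, hf', 1, rfl, by rw [Units.val_one, one_mul]; exact hE⟩

/-- Neighbouring factors congruent modulo one prime number for each member. -/
theorem mainQ (F g : ℕ → ℕ) (hg : Tendsto g atTop atTop) :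
    ∃ Y : ℕ → ASY.ExtC,
      (∀ j, F j ≤ Module.finrank ℚ (Y j).K ∧
        (StarkW.UnrPair ∅ (Y j).K (Y j).L ∨ StarkW.PowPair ℚ 1 (Y j).K (Y j).L)) ∧
      (∀ (T : Finset ℕ) (E : Type) [Field E] [NumberField E] (ε : ℝ), 0 < ε →
        ∀ᶠ j in atTop, StarkW.QExt E (Y j).K ∧
          (StarkW.UnrPair T (Y j).K (Y j).L ∨ StarkW.PowPair E ε (Y j).K (Y j).L)) ∧
      ∀ P : Set ℕ, P.Infinite → (∀ p ∈ P, p.Prime) →
        ∃ pr : ℕ → ℕ, (∀ j, pr j ∈ P) ∧ Tendsto pr atTop atTop ∧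
          ∀ J : Set ℕ, (∃ᶠ a in atTop, ∀ j, a ≤ j → j ≤ a + g a → j ∈ J) → ∀ σ : ℂ ≃+* ℂ,
            (StarkW.ConjAt σ ↔
              StarkW.StepMod pr J σ (fun j => (Y j).K) (fun j => (Y j).L) (fun j => (Y j).ψ) ∧
                StarkW.OddAt σ) := by
  obtain ⟨N, _, _, hgal, hcof⟩ := SSQ.COF_thm
  have hct := task_countable N
  have hne := task_nonempty N
  obtain ⟨tk, htk⟩ := exists_surjective_nat (Task N)
  have hS : ∀ s, Nonempty (StgW N s) := fun s => exists_stgW s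
  let S : ∀ s, StgW N s := fun s => (hS s).some
  obtain ⟨Y, st, hst, hY1, hY2, hY3⟩ := seqQ (N := N) hcof tk S F g hg
  refine ⟨Y, fun j => ⟨(hY1 j).1, (hY1 j).2.1⟩, fun T E _ _ ε hε =>
    (hY2 T E ε hε).mono fun j hj => ⟨hj.2, hj.1⟩, fun P hPi hPp => ?_⟩
  let ps : ℕ → ℕ := fun s => Nat.nth (fun n => n ∈ P) s
  have hps : ∀ s, ps s ∈ P := fun s => Nat.nth_mem_of_infinite hPi s
  have hpsm : StrictMono ps := Nat.nth_strictMono hPi
  refine ⟨fun j => ps (st j), fun j => hps _, hpsm.tendsto_atTop.comp hst,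
    fun J hJ σ => ⟨fun h => ?_, ?_⟩⟩
  · refine ⟨⟨fun _ => 1, fun j _ => ASY.linIn_of_conjIn (conjIn_of_conjAt h) (Y j).K (Y j).L
      (Y j).ψ, fun j _ _ _ => ⟨1, by rw [Units.val_one, one_mul], fun O _ => ?_⟩⟩,
      fun K L _ _ _ _ _ _ ψ _ _ => linAt_of_conj h K L ψ⟩
    rw [Units.val_one, sub_self, ValuationSubring.mem_nonunits_iff, map_zero]
    exact zero_lt_one
  · rintro ⟨⟨u, hu, hstep⟩, hD⟩
    refine conj_of_conjQ (conjQ_ofU lemmaZ (P := P) hPp hcof (fun t b => ?_) hD)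
    obtain ⟨i₀, rfl⟩ := htk t
    obtain ⟨s, m₀, c, hs, hblk, hform⟩ := hY3 J hJ (max i₀ b)
    have hs0 : i₀ ≤ s := le_trans (le_max_left _ _) hs
    set V := Um (ps s) with hV
    have hstep' : ∀ j, 5 * m₀ ≤ j → j + 1 < 5 * (m₀ + c) → u (j + 1) / u j ∈ V := by
      intro j h1 h2
      obtain ⟨h3, h4⟩ := hblk j h1 (by omega)
      obtain ⟨h3', h4'⟩ := hblk (j + 1) (by omega) h2
      obtain ⟨w, hw, hO⟩ := hstep j h3 h3' (by
        show ps (st (j + 1)) = ps (st j)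
        rw [h4, h4'])
      have h5 : u (j + 1) / u j = w := by
        rw [div_eq_iff_eq_mul]
        exact Units.ext (by rw [Units.val_mul]; exact hw)
      rw [h5, hV, mem_Um]
      have h6 : (fun j => ps (st j)) j = ps s := by
        show ps (st j) = ps s
        rw [h4]
      intro O hpO
      exact hO O (by rw [h6]; exact hpO)
    have hlin : ∀ y : FmW tk (S s), ∃ d : ℂˣ, d / u (5 * m₀) ∈ V ∧
        (formW tk (S s) y).Lin {d} σ := by
      intro y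
      obtain ⟨k, hk, hy⟩ := hform y
      exact ⟨ASY.wordB u (m₀ + k), word_mem V u m₀ c hstep' k hk,
        hy u σ fun r hr => hu _ (hblk _ (by omega) (by omega)).1⟩
    obtain ⟨dA, hA, lA⟩ := hlin (Sum.inr 0)
    obtain ⟨dB, hB, lB⟩ := hlin (Sum.inr 1)
    obtain ⟨dC, hC, lC⟩ := hlin (Sum.inr 2)
    have hrel := (S s).rel σ dA dB dC lA lB lC
    have he : u (5 * m₀) ∈ V := by
      have h1 : u (5 * m₀) = dA / u (5 * m₀) * ((dB / u (5 * m₀)) * (dC / u (5 * m₀)))⁻¹ := by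
        rw [hrel, div_mul_div_comm, inv_div, div_mul_div_comm, mul_comm (u (5 * m₀)) (dB * dC),
          mul_div_mul_left_eq_div, mul_div_cancel_right]
      rw [h1]
      exact V.mul_mem hA (V.inv_mem (V.mul_mem hB hC))
    refine ⟨ps s, hps s, (le_trans (le_max_right _ _) hs).trans (hpsm.id_le s), Finset.range s,
      (S s).E, inferInstance, (S s).M (tk i₀), (S s).dec (tk i₀), fun q => ?_⟩
    obtain ⟨d, hd, ld⟩ := hlin (Sum.inl ⟨⟨i₀, by omega⟩, q⟩)
    have hdV : d ∈ V := by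
      have h1 := V.mul_mem hd he
      rwa [div_mul_cancel] at h1
    intro S' φ Θ hφ
    obtain ⟨f, f', hf, hf', w, hw, hE⟩ := ld S' φ Θ hφ
    exact ⟨f, f', hf, hf', w, by rw [Set.mem_singleton_iff.1 hw]; exact hdV, hE⟩

end CGR

end StarkC
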