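import Pool.Agent.CGR.UCALC
import Pool.Agent.EXSG.SIG2

/-!
# The sequence and Stark's conjecture modulo one prime number for each member
-/

set_option autoImplicit false

open NumberField IsDedekindDomain Filter
open scoped TensorProduct Classical

namespace StarkC

namespace CGR

open StarkC.EXS StarkC.EXSG

/-- The five extensions of a pair. -/
def OutU : Prop :=
  ∀ (l : ℕ) (ε : ℝ), l.Prime → Odd l → 0 < ε → 1 ≤ ε * l →
  ∀ (T : Finset ℕ) (E : Type) [Field E] [NumberField E],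
    ((Polynomial.X ^ l - Polynomial.C 2 : Polynomial ℚ).map (algebraMap ℚ E)).Splits →
  ∀ (N : Type) [Field N] [NumberField N] [IsGalois ℚ N] [Algebra E N]
    (H : Subgroup (N ≃ₐ[ℚ] N)) (ψ : H →* ℂˣ), TyQ T E H ψ → ∀ B : ℕ,
    ∃ X : Fin 5 → SSQM.Ext,
      (∀ r, PairQ T E ε (X r).K (X r).L ∧ B ≤ Module.finrank ℚ (X r).K) ∧
      ∀ (p : ℕ) (σ : ℂ ≃+* ℂ), (∀ r, StarkW.FaithMod p σ (X r).K (X r).L) →
        LinU (Um p) σ (IntermediateField.fixedField H) N (liftChar H ψ)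

theorem outU (hG : Stmt_GCE) (hB : Stmt_BCX5) (hI : Stmt_IDN5) (hF : Stmt_FLDE) : OutU := by
  intro l ε hl hlo hε hlε T E _ _ hsp N _ _ _ _ H ψ hty B
  have g := hG N T E H ψ hty.2
  have hq := qacts_sub (E := E) H hty.1
  obtain ⟨N', _, _, aN, aF, aE, st, stE, gQ, gF, A, ψA, n, hψA, hdeg, hgood, hid⟩ :=
    hB fieldM hI T E (IntermediateField.fixedField H) N (liftChar H ψ) g B
  have key : ∀ r : Fin 5, ∃ X : SSQM.Ext, (PairQ T E ε X.K X.L ∧ B ≤ Module.finrank ℚ X.K) ∧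
      ∀ (p : ℕ) (σ : ℂ ≃+* ℂ), StarkW.FaithMod p σ X.K X.L →
        LinU (Um p) σ (IntermediateField.fixedField (A r)) N' (liftChar (A r) (ψA r)) := by
    intro r
    obtain ⟨L, _, _, _, _, _, _, ψ', hinj, hψ', hp⟩ := hF l ε hl hlo hε hlε T E hsp
      (IntermediateField.fixedField (A r)) N' (liftChar (A r) (ψA r)) (hgood r)
    refine ⟨⟨IntermediateField.fixedField (A r), L⟩, ⟨⟨hp, qext_of (qacts_base hq (A r))⟩,
      hdeg r⟩, fun p σ hf => ?_⟩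
    exact upU (Um p) σ (IntermediateField.fixedField (A r)) L N' ψ'
      ((linMod_iff p σ ψ').1 (hf ψ' hinj)) (liftChar (A r) (ψA r)) hψ'
  choose X hX1 hX2 using key
  refine ⟨X, hX1, fun p σ hf => ?_⟩
  exact base_linearU (Um p) σ (IntermediateField.fixedField H) N N' (liftChar H ψ) A ψA n hψA hid
    fun r => hX2 r p σ (hf r)

/-- The assertion modulo `p` at `σ` for a pair. -/
def GoodU {T : Finset ℕ} {E : Type} [Field E] {M : LevE E} (q : Pr T E M) (p : ℕ)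
    (σ : ℂ ≃+* ℂ) : Prop :=
  LinU (Um p) σ (IntermediateField.fixedField q.1.1) M.N (liftChar q.1.1 q.1.2)

/-- Five extensions which imply the assertion `P` for each prime number and each automorphism. -/
def ConclU (T : Finset ℕ) (E : Type) [Field E] (ε : ℝ) (B : ℕ) (P : ℕ → (ℂ ≃+* ℂ) → Prop) :
    Prop :=
  ∃ X : Fin 5 → SSQM.Ext,
    (∀ r, PairQ T E ε (X r).K (X r).L ∧ B ≤ Module.finrank ℚ (X r).K) ∧
      ∀ (p : ℕ) (σ : ℂ ≃+* ℂ), (∀ r, StarkW.FaithMod p σ (X r).K (X r).L) → P p σ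

variable {N : ℕ → Type} [∀ k, Field (N k)] [∀ k, NumberField (N k)] [∀ k, IsGalois ℚ (N k)]

/-- The data of a stage. -/
structure StgU (N : ℕ → Type) [∀ k, Field (N k)] [∀ k, NumberField (N k)]
    [∀ k, IsGalois ℚ (N k)] (s : ℕ) where
  E : Type
  [fE : Field E]
  [nE : NumberField E]
  emb : ∀ k ≤ s, Nonempty (N k →+* E)
  M : Task N → LevE E
  dec : ∀ t : Task N, DecAt (Finset.range s) E t (M t)
  out : ∀ (t : Task N) (p : Pr (Finset.range s) E (M t)) (B : ℕ),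
    ConclU (Finset.range s) E (1 / ((s : ℝ) + 1)) B (GoodU p)
  dft : ∀ B : ℕ, ConclU (Finset.range s) E (1 / ((s : ℝ) + 1)) B fun _ _ => True

attribute [instance] StgU.fE StgU.nE

theorem exists_stgU (hLE : Stmt_LEVE) (hD : DecQ) (hO : OutU) (s : ℕ) :
    Nonempty (StgU N s) := by
  obtain ⟨E, _, _, _, l, hl, hlo, hlε, hsp, hi, hemb⟩ := exists_E hLE N s
  have hε : (0 : ℝ) < 1 / ((s : ℝ) + 1) := by positivity
  have h1 : ∀ t : Task N, ∃ M : LevE E, DecAt (Finset.range s) E t M := by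
    intro t
    obtain ⟨N', _, _, aN, aE, _, h⟩ := hD (Finset.range s) E hi (N t.1) t.2.1 t.2.2
    exact ⟨⟨N'⟩, aN, h⟩
  choose M hM using h1
  refine ⟨⟨E, hemb, M, hM, fun t p B => hO l _ hl hlo hε hlε _ E hsp (M t).N p.1.1 p.1.2 p.2 B,
    fun B => ?_⟩⟩
  obtain ⟨X, hX, -⟩ := hO l _ hl hlo hε hlε (Finset.range s) E hsp E ⊥ 1
    ⟨qe_bot _, tyAB_default _ E hi⟩ B
  exact ⟨X, hX, fun _ _ _ => trivial⟩

/-- The pairs of a stage and a default. -/
def FmU (tk : ℕ → Task N) {s : ℕ} (S : StgU N s) : Type :=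
  Option (Σ i : Fin (s + 1), Pr (Finset.range s) S.E (S.M (tk i)))

theorem fmU_finite (tk : ℕ → Task N) {s : ℕ} (S : StgU N s) : Finite (FmU tk S) := by
  have h1 : ∀ i : Fin (s + 1), Finite (Pr (Finset.range s) S.E (S.M (tk i))) :=
    fun i => pr_finite _ _ _
  unfold FmU
  infer_instance

theorem fmU_nonempty (tk : ℕ → Task N) {s : ℕ} (S : StgU N s) : Nonempty (FmU tk S) := ⟨none⟩

/-- The assertion modulo `p` at `σ` for a member of the family. -/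
def FmGoodU (tk : ℕ → Task N) {s : ℕ} (S : StgU N s) (x : FmU tk S) (p : ℕ) (σ : ℂ ≃+* ℂ) :
    Prop :=
  ∀ q : Σ i : Fin (s + 1), Pr (Finset.range s) S.E (S.M (tk i)), x = some q → GoodU q.2 p σ

theorem fmU_out (tk : ℕ → Task N) {s : ℕ} (S : StgU N s) (x : FmU tk S) (B : ℕ) :
    ConclU (Finset.range s) S.E (1 / ((s : ℝ) + 1)) B (FmGoodU tk S x) := by
  match x with
  | none =>
    obtain ⟨X, hX, -⟩ := S.dft B
    exact ⟨X, hX, fun _ _ _ p hp => absurd hp (Option.some_ne_none p).symm⟩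
  | some p =>
    obtain ⟨X, hX, h1⟩ := S.out (tk p.1) p.2 B
    refine ⟨X, hX, fun p' σ hf q hq => ?_⟩
    have e := Option.some.inj hq
    subst e
    exact h1 p' σ hf

/-- The combination `t` is decomposed at a level at which the assertion modulo `p` at `σ` holds for
all pairs of type (A), (B), for infinitely many `p` in `P`. -/
def SolvedU (P : Set ℕ) (σ : ℂ ≃+* ℂ) (t : Task N) : Prop :=
  ∀ b : ℕ, ∃ p ∈ P, b ≤ p ∧
    ∃ (T : Finset ℕ) (E : Type) (_ : Field E) (M : LevE E), DecAt T E t M ∧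
      ∀ q : Pr T E M, GoodU q p σ

/-- The sequence of extensions and prime numbers. -/
theorem seqU (hLE : Stmt_LEVE) (hD : DecQ) (hO : OutU) (hC : Stmt_COMB5)
    (hcof : ∀ (M : Type) [Field M] [NumberField M], ∃ k, Nonempty (M →+* N k))
    (P : Set ℕ) (hPi : P.Infinite)
    (F g : ℕ → ℕ) (hg : Tendsto g atTop atTop) :
    ∃ (Y : ℕ → SSQM.Ext) (pr : ℕ → ℕ),
      (∀ j, pr j ∈ P) ∧ Tendsto pr atTop atTop ∧
      (∀ j, F j ≤ Module.finrank ℚ (Y j).K ∧ PairQ ∅ ℚ 1 (Y j).K (Y j).L) ∧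
      (∀ (T : Finset ℕ) (E : Type) [Field E] [NumberField E] (ε : ℝ), 0 < ε →
        ∀ᶠ j in atTop, PairQ T E ε (Y j).K (Y j).L) ∧
      ∀ J : Set ℕ, (∃ᶠ a in atTop, ∀ j, a ≤ j → j ≤ a + g a → j ∈ J) → ∀ σ : ℂ ≃+* ℂ,
        (∀ j ∈ J, StarkW.FaithMod (pr j) σ (Y j).K (Y j).L) → ∀ t : Task N, SolvedU P σ t := by
  have hct := task_countable N
  have hne := task_nonempty N
  obtain ⟨tk, htk⟩ := exists_surjective_nat (Task N)
  have hS : ∀ s, Nonempty (StgU N s) := fun s => exists_stgU hLE hD hO s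
  let S : ∀ s, StgU N s := fun s => (hS s).some
  have hfin : ∀ s, Finite (FmU tk (S s)) := fun s => fmU_finite tk (S s)
  have hnon : ∀ s, Nonempty (FmU tk (S s)) := fun s => fmU_nonempty tk (S s)
  let C : ℕ → ℕ := fun s => Nat.card (FmU tk (S s))
  have hCpos : ∀ s, 0 < C s := fun s => Nat.card_pos
  let e : ∀ s, FmU tk (S s) ≃ Fin (C s) := fun s => Finite.equivFin _
  obtain ⟨lev, hlev, hJ⟩ := hC C hCpos g hg
  -- the prime number of a stage
  let ps : ℕ → ℕ := fun s => Nat.nth (fun n => n ∈ P) s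
  have hps : ∀ s, ps s ∈ P := fun s => Nat.nth_mem_of_infinite hPi s
  have hpsm : StrictMono ps := Nat.nth_strictMono hPi
  let x : ∀ m, FmU tk (S (lev m)) := fun m =>
    (e (lev m)).symm ⟨m % C (lev m), Nat.mod_lt _ (hCpos _)⟩
  let B : ℕ → ℕ := fun m => ∑ r ∈ Finset.range 5, F (5 * m + r)
  have hX : ∀ m, ConclU (Finset.range (lev m)) (S (lev m)).E (1 / ((lev m : ℝ) + 1)) (B m)
      (FmGoodU tk (S (lev m)) (x m)) := fun m => fmU_out tk (S (lev m)) (x m) (B m)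
  choose X hX1 hX2 using hX
  have hpair : ∀ j, PairQ (Finset.range (lev (j / 5))) (S (lev (j / 5))).E
      (1 / ((lev (j / 5) : ℝ) + 1)) (X (j / 5) ⟨j % 5, Nat.mod_lt _ (by norm_num)⟩).K
      (X (j / 5) ⟨j % 5, Nat.mod_lt _ (by norm_num)⟩).L := fun j => (hX1 (j / 5) _).1
  have hdiv : Tendsto (fun j : ℕ => lev (j / 5)) atTop atTop :=
    hlev.comp (Nat.tendsto_div_const_atTop (by norm_num : (5 : ℕ) ≠ 0))
  refine ⟨fun j => X (j / 5) ⟨j % 5, Nat.mod_lt _ (by norm_num)⟩, fun j => ps (lev (j / 5)),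
    fun j => hps _, hpsm.tendsto_atTop.comp hdiv, fun j => ⟨?_, ?_⟩, ?_, ?_⟩
  · refine le_trans ?_ (hX1 (j / 5) ⟨j % 5, Nat.mod_lt _ (by norm_num)⟩).2
    have h1 : F (5 * (j / 5) + j % 5) ≤ B (j / 5) :=
      Finset.single_le_sum (f := fun r => F (5 * (j / 5) + r)) (fun _ _ => Nat.zero_le _)
        (Finset.mem_range.2 (Nat.mod_lt _ (by norm_num)))
    rwa [Nat.div_add_mod] at h1
  · refine pairQ_mono (Finset.empty_subset _) (algebraMap ℚ (S (lev (j / 5))).E) ?_ (hpair j)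
    have h1 : (0 : ℝ) ≤ (lev (j / 5) : ℝ) := Nat.cast_nonneg _
    rw [div_le_one (by positivity)]
    linarith
  · intro T E _ _ ε hε
    obtain ⟨k, ⟨ι⟩⟩ := hcof E
    obtain ⟨b, hb⟩ : ∃ b, T ⊆ Finset.range b := by
      obtain ⟨b, hb⟩ := T.bddAbove
      exact ⟨b + 1, fun x hx => Finset.mem_range.2 (Nat.lt_succ_of_le (hb hx))⟩
    obtain ⟨c, hc⟩ := exists_nat_one_div_lt hε
    have h1 : ∀ᶠ j : ℕ in atTop, max k (max b c) ≤ lev (j / 5) :=
      hdiv.eventually (eventually_ge_atTop _)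
    filter_upwards [h1] with j hj
    obtain ⟨κ⟩ := (S (lev (j / 5))).emb k (le_trans (le_max_left _ _) hj)
    refine pairQ_mono (hb.trans (Finset.range_subset_range.2 ?_)) (κ.comp ι) ?_ (hpair j)
    · exact le_trans (le_trans (le_max_left _ _) (le_max_right _ _)) hj
    · refine le_trans ?_ hc.le
      have h2 : (c : ℝ) ≤ (lev (j / 5) : ℝ) := by
        exact_mod_cast le_trans (le_trans (le_max_right _ _) (le_max_right _ _)) hj
      exact one_div_le_one_div_of_le (by positivity) (by linarith)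
  · intro J hJa σ hf t b
    obtain ⟨i₀, rfl⟩ := htk t
    obtain ⟨s, hs, hs2⟩ := hJ J hJa (max i₀ b)
    have hs0 : i₀ ≤ s := le_trans (le_max_left _ _) hs
    refine ⟨ps s, hps s, (le_trans (le_max_right _ _) hs).trans (hpsm.id_le s), Finset.range s,
      (S s).E, inferInstance, (S s).M (tk i₀), (S s).dec (tk i₀), fun p => ?_⟩
    let y : FmU tk (S s) := some ⟨⟨i₀, by omega⟩, p⟩
    obtain ⟨m, hm, hmi, hmJ⟩ := hs2 (e s y).1 (e s y).2
    subst hm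
    have hxy : x m = y := by
      have h3 : (⟨m % C (lev m), Nat.mod_lt _ (hCpos _)⟩ : Fin (C (lev m))) = e (lev m) y :=
        Fin.ext hmi
      show (e (lev m)).symm _ = y
      rw [h3, Equiv.symm_apply_apply]
    have h4 : FmGoodU tk (S (lev m)) (x m) (ps (lev m)) σ := by
      refine hX2 m (ps (lev m)) σ fun r => ?_
      have h5 : (fun (q : ℕ) (E : SSQM.Ext) => StarkW.FaithMod q σ E.K E.L)
          (ps (lev ((5 * m + (r : ℕ)) / 5)))
          (X ((5 * m + (r : ℕ)) / 5) ⟨(5 * m + (r : ℕ)) % 5, Nat.mod_lt _ (by norm_num)⟩) :=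
        hf (5 * m + r) (hmJ r r.2)
      have h6 : (5 * m + (r : ℕ)) / 5 = m := by omega
      have h7 : (5 * m + (r : ℕ)) % 5 = r := by omega
      have h8 : X ((5 * m + (r : ℕ)) / 5) ⟨(5 * m + (r : ℕ)) % 5, Nat.mod_lt _ (by norm_num)⟩ =
          X m r := by
        have h9 : (⟨(5 * m + (r : ℕ)) % 5, Nat.mod_lt _ (by norm_num)⟩ : Fin 5) = r :=
          Fin.ext h7
        rw [h9, h6]
      rw [h8, h6] at h5
      exact h5
    exact h4 ⟨⟨i₀, by omega⟩, p⟩ hxy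

/-- Lemma Z. -/
def StmtZ : Prop :=
  ∀ (P : Set ℕ), P.Infinite → (∀ p ∈ P, p.Prime) → ∀ z : ℂ,
    (∀ p ∈ P, ∀ O : ValuationSubring ℂ, (p : ℂ) ∈ O.nonunits → z - 1 ∈ O.nonunits) → z = 1

theorem conjQ_ofU (hZ : StmtZ) {σ : ℂ ≃+* ℂ} {P : Set ℕ} (hPp : ∀ p ∈ P, p.Prime)
    (hcof : ∀ (M : Type) [Field M] [NumberField M], ∃ k, Nonempty (M →+* N k))
    (hsol : ∀ t : Task N, SolvedU P σ t) (h3 : StarkW.OddAt σ) : ConjQ σ := by
  intro L _ _ _ S φ Θ V V' _ _ _ _ _ _ ρ ρ' hφ hσ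
  obtain ⟨k, ⟨ι⟩⟩ := hcof L
  let aLN : Algebra L (N k) := ι.toAlgebra
  have h1 : IsMonComb (fun g : N k ≃ₐ[ℚ] N k => ρ.character (AlgEquiv.restrictNormalHom L g)) :=
    SFULL.bra (N k ≃ₐ[ℚ] N k) V (ρ.comp (AlgEquiv.restrictNormalHom L))
  let Q : Set ℕ := {p | p ∈ P ∧ AtU (Um p) 1 (S : Set (HeightOneSpectrum (𝓞 ℚ)))
    (aboveSet ℚ L S) Θ ρ ρ' σ}
  have hkey : ∀ b : ℕ, ∃ p ∈ Q, b ≤ p := by
    intro b
    obtain ⟨p, hpP, hbp, T, E, _, M, ⟨aNM, hdec⟩, hgood⟩ := hsol ⟨k, ⟨_, h1⟩⟩ b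
    refine ⟨p, ⟨hpP, ?_⟩, hbp⟩
    let aLM : Algebra L M.N := ((algebraMap (N k) M.N).comp (algebraMap L (N k))).toAlgebra
    have hst : IsScalarTower ℚ L M.N := IsScalarTower.of_algebraMap_eq' (Subsingleton.elim _ _)
    obtain ⟨m, H, ψ, n, hP, hF⟩ := CMB.of_mem_GS hdec
    refine of_combU (Um p) σ (N := M.N) S φ Θ V V' ρ ρ' hφ hσ H ψ n ?_ ?_
    · intro g
      rw [← hF g]
      show _ = ρ.character (AlgEquiv.restrictNormalHom L
        (AlgEquiv.restrictNormalHom (N k) g : N k ≃ₐ[ℚ] N k))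
      rw [SSPANZ.res_res (L := L) (N := N k) (N' := M.N) (fun x => rfl)]
    · intro i
      rcases hP i with h | h
      · exact hgood ⟨⟨H i, ψ i⟩, h⟩
      · have h6 : LinS σ (IntermediateField.fixedField (H i)) M.N (liftChar (H i) (ψ i)) := by
          refine ofD σ h3 _ M.N _ (SMAIN.totallyReal (H i) fun c hc => (h c hc).1) ?_
          intro Φ c hc
          obtain ⟨h4, h5⟩ := h _ ⟨Φ, GOOD.isConj_symm (H i) c Φ hc⟩
          exact h5
        exact fun S' φ' Θ' hφ' => atU_of_starkAt (Um p) (h6 S' φ' Θ' hφ')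
  have hQinf : Q.Infinite := by
    refine Set.infinite_of_not_bddAbove ?_
    rintro ⟨b, hb⟩
    obtain ⟨p, hp, hbp⟩ := hkey (b + 1)
    have h7 := hb hp
    omega
  exact of_all Q hQinf.nonempty (hZ Q hQinf fun p hp => hPp p hp.1) fun p hp => hp.2

theorem faithMod_of {p : ℕ} {σ : ℂ ≃+* ℂ} {K L : Type} [Field K] [NumberField K] [Field L]
    [NumberField L] [Algebra K L] (h : StarkW.FaithAt σ K L) : StarkW.FaithMod p σ K L := by
  intro ψ hψ Θ hΘ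
  obtain ⟨f, f', hf, hf', hE⟩ := h ψ hψ Θ hΘ
  refine ⟨f, f', hf, hf', 1, ?_, fun O _ => ?_⟩
  · rw [Units.val_one, one_mul]
    exact hE
  · rw [Units.val_one, sub_self, ValuationSubring.mem_nonunits_iff, map_zero]
    exact zero_lt_one

/-- Stark's conjecture at each automorphism and one sparse sequence of cyclic extensions, modulo
one prime number for each member. -/
theorem main (hZ : StmtZ) (F g : ℕ → ℕ) (hg : Tendsto g atTop atTop) (P : Set ℕ)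
    (hP : P.Infinite) (hPp : ∀ p ∈ P, p.Prime) :
    ∃ (Y : ℕ → SSQM.Ext) (pr : ℕ → ℕ), (∀ j, pr j ∈ P) ∧ Tendsto pr atTop atTop ∧
      (∀ j, F j ≤ Module.finrank ℚ (Y j).K ∧
        (StarkW.UnrPair ∅ (Y j).K (Y j).L ∨ StarkW.PowPair ℚ 1 (Y j).K (Y j).L)) ∧
      (∀ (T : Finset ℕ) (E : Type) [Field E] [NumberField E] (ε : ℝ), 0 < ε →
        ∀ᶠ j in atTop, StarkW.QExt E (Y j).K ∧
          (StarkW.UnrPair T (Y j).K (Y j).L ∨ StarkW.PowPair E ε (Y j).K (Y j).L)) ∧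
      ∀ J : Set ℕ, (∃ᶠ a in atTop, ∀ j, a ≤ j → j ≤ a + g a → j ∈ J) → ∀ σ : ℂ ≃+* ℂ,
        (StarkW.ConjAt σ ↔
          (∀ j ∈ J, StarkW.FaithMod (pr j) σ (Y j).K (Y j).L) ∧ StarkW.OddAt σ) := by
  obtain ⟨N, _, _, hgal, hcof⟩ := SSQ.COF_thm
  obtain ⟨Y, pr, hpr, hprt, hY1, hY2, hY3⟩ := seqU (N := N) LEVE_thm (decQ DECE_thm)
    (outU GCE_thm BCX5_thm IDN5_thm FLDE_thm) COMB5_thm hcof P hP F g hg
  refine ⟨Y, pr, hpr, hprt, fun j => ⟨(hY1 j).1, (hY1 j).2.1⟩, fun T E _ _ ε hε =>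
    (hY2 T E ε hε).mono fun j hj => ⟨hj.2, hj.1⟩, fun J hJ σ => ⟨fun h => ?_, ?_⟩⟩
  · exact ⟨fun j _ => faithMod_of fun ψ _ => linAt_of_conj h (Y j).K (Y j).L ψ,
      fun K L _ _ _ _ _ _ ψ _ _ => linAt_of_conj h K L ψ⟩
  · rintro ⟨hA, hD⟩
    exact conj_of_conjQ (conjQ_ofU hZ hPp hcof (hY3 J hJ σ hA) hD)

end CGR

end StarkC
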