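import Pool.Agent.CGR.UDef
import Pool.Agent.StarkI.PBridgeI

/-!
# Stark's assertion up to a factor in a group: the calculus
-/

set_option autoImplicit false

open NumberField IsDedekindDomain
open scoped TensorProduct Classical

namespace StarkC

namespace CGR

open SIND

section

variable {K L : Type} [Field K] [NumberField K] [Field L] [NumberField L] [Algebra K L]
  [IsGalois K L]

/-- Stark's assertion for all `φ`. -/
def PSU (U : Subgroup ℂˣ) (K L : Type) [Field K] [NumberField K] [Field L] [NumberField L] [Algebra K L]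
    (ψ : (L ≃ₐ[K] L) →* ℂˣ) (σ : ℂ ≃+* ℂ) (M : ℕ) (S : Finset (HeightOneSpectrum (𝓞 K))) : Prop :=
  ∀ (φ : XQ L (aboveSet K L S) ≃ₗ[ℚ] QU L (aboveSet K L S))
    (Θ : XC L (aboveSet K L S) →ₗ[ℂ] XC L (aboveSet K L S)),
    IsPhiTheta K (aboveSet K L S) φ Θ →
    AtU U M (S : Set (HeightOneSpectrum (𝓞 K))) (aboveSet K L S) Θ
      (linRep ψ) (linRep (twist σ ψ)) σ

/-- One `φ` is enough. -/
theorem all_of_oneU (U : Subgroup ℂˣ) (hPHIR : Stmt_PHIR) (ψ : (L ≃ₐ[K] L) →* ℂˣ) (σ : ℂ ≃+* ℂ) (M : ℕ)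
    (S : Finset (HeightOneSpectrum (𝓞 K)))
    (φ : XQ L (aboveSet K L S) ≃ₗ[ℚ] QU L (aboveSet K L S))
    (Θ : XC L (aboveSet K L S) →ₗ[ℂ] XC L (aboveSet K L S))
    (h : IsPhiTheta K (aboveSet K L S) φ Θ)
    (hS : AtU U M (S : Set (HeightOneSpectrum (𝓞 K))) (aboveSet K L S) Θ
      (linRep ψ) (linRep (twist σ ψ)) σ) : PSU U K L ψ σ M S := by
  intro φ₂ Θ₂ h₂
  obtain ⟨f, f', hf, hf', u, hu, he⟩ := hS
  obtain ⟨x, hx, h1, h2⟩ := hPHIR K L S φ φ₂ Θ Θ₂ ℂ ℂ (linRep ψ) (linRep (twist σ ψ)) σ h h₂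
    (fun g => by rw [chr_twist, chr])
  refine ⟨f, f', hf, hf', u, hu, ?_⟩
  rw [h1, h2, mul_pow, mul_pow, mul_div_assoc, mul_div_assoc, map_mul, map_pow, he]
  ring

/-- the value for `insert v S` in terms of the value for `S` -/
theorem valueU (u : ℂ) (M n : ℕ) (hn : 1 < n) (q : ℚ) (hq : 0 < q) (z R R' l l' : ℂ) (σ : ℂ ≃+* ℂ)
    (P : Prop) (hz : z = 1 ↔ P) :
    (σ (R ^ M / l) = u * (R' ^ M / l') ↔
      σ ((R * (if P then (q : ℂ) * ((Real.log n : ℝ) : ℂ) else 1)) ^ M /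
          (l * (if z = 1 then ((Real.log n : ℝ) : ℂ) else 1 - z) ^ M)) =
        u * ((R' * (if P then (q : ℂ) * ((Real.log n : ℝ) : ℂ) else 1)) ^ M /
          (l' * (if σ z = 1 then ((Real.log n : ℝ) : ℂ) else 1 - σ z) ^ M))) := by
  have hσz : σ z = 1 ↔ z = 1 := by
    constructor
    · intro h; exact σ.injective (by rw [h, map_one])
    · intro h; rw [h, map_one]
  have hlog : ((Real.log n : ℝ) : ℂ) ≠ 0 := by
    have : 0 < Real.log n := Real.log_pos (by exact_mod_cast hn)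
    exact_mod_cast this.ne'
  have hq' : (q : ℂ) ≠ 0 := by exact_mod_cast hq.ne'
  by_cases h : z = 1
  · have hP : P := hz.1 h
    rw [if_pos hP, if_pos h, if_pos (hσz.2 h)]
    have e1 : (R * ((q : ℂ) * ((Real.log n : ℝ) : ℂ))) ^ M / (l * ((Real.log n : ℝ) : ℂ) ^ M) =
        (R ^ M / l) * (q : ℂ) ^ M := by
      rw [mul_pow, mul_pow, div_mul_eq_mul_div, ← mul_assoc,
        mul_div_mul_right _ _ (pow_ne_zero M hlog)]
    have e2 : (R' * ((q : ℂ) * ((Real.log n : ℝ) : ℂ))) ^ M / (l' * ((Real.log n : ℝ) : ℂ) ^ M) =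
        (R' ^ M / l') * (q : ℂ) ^ M := by
      rw [mul_pow, mul_pow, div_mul_eq_mul_div, ← mul_assoc,
        mul_div_mul_right _ _ (pow_ne_zero M hlog)]
    have e3 : σ ((q : ℂ) ^ M) = (q : ℂ) ^ M := by rw [map_pow, map_ratCast]
    rw [e1, e2, map_mul, e3, ← mul_assoc u]
    exact (mul_left_inj' (pow_ne_zero M hq')).symm
  · have hP : ¬ P := fun hP => h (hz.2 hP)
    have hσ : ¬ σ z = 1 := fun h' => h (hσz.1 h')
    rw [if_neg hP, if_neg h, if_neg hσ, mul_one, mul_one]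
    have h1 : (1 - z) ≠ 0 := sub_ne_zero.2 (Ne.symm h)
    have h2 : (1 - σ z) ≠ 0 := sub_ne_zero.2 (Ne.symm hσ)
    have e3 : σ ((1 - z) ^ M) = (1 - σ z) ^ M := by rw [map_pow, map_sub, map_one]
    have e4 : u * (R' ^ M / l' / (1 - σ z) ^ M) = u * (R' ^ M / l') / (1 - σ z) ^ M :=
      (mul_div_assoc _ _ _).symm
    rw [← div_div, ← div_div, map_div₀ σ (R ^ M / l), e3, e4]
    exact (div_left_inj' (pow_ne_zero M h2)).symm

theorem stepU (U : Subgroup ℂˣ) (hPHIR : Stmt_PHIR) (hSREG : Stmt_SREG) (hSLF : Stmt_SLF) (hLEULZ : Stmt_LEULZ)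
    (hEXPH : Stmt_EXPH) (ψ : (L ≃ₐ[K] L) →* ℂˣ) (σ : ℂ ≃+* ℂ) (M : ℕ)
    (S : Finset (HeightOneSpectrum (𝓞 K))) (v : HeightOneSpectrum (𝓞 K)) (hv : v ∉ S) :
    PSU U K L ψ σ M S ↔ PSU U K L ψ σ M (insert v S) := by
  obtain ⟨φ, Θ, hφ⟩ := hEXPH K L S
  obtain ⟨φ₂, Θ₂, q, hq, hφ₂, hReg⟩ := hSREG K L S v hv φ Θ hφ
  obtain ⟨z, hz, hzT, hL⟩ := hSLF K L v ψ σ
  have hn : 1 < Ideal.absNorm v.asIdeal := NumberField.HeightOneSpectrum.one_lt_absNorm v
  have hR1 := hReg ψ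
  have hR2 := hReg (twist σ ψ)
  simp only [trivD_twist] at hR2
  have hval := fun (u : ℂ) l l' => valueU u M (Ideal.absNorm v.asIdeal) hn q hq z
    (Reg (aboveSet K L S) (linRep ψ) Θ) (Reg (aboveSet K L S) (linRep (twist σ ψ)) Θ) l l' σ
    (TrivD v ψ) hzT
  constructor
  · intro h
    obtain ⟨f, f', hf, hf', u, hu, he⟩ := h φ Θ hφ
    refine all_of_oneU U hPHIR ψ σ M (insert v S) φ₂ Θ₂ hφ₂ ?_
    obtain ⟨m1, t1⟩ := mulL hLEULZ M _ hn z f hf.1
    obtain ⟨m2, t2⟩ := mulL hLEULZ M _ hn (σ z) f' hf'.1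
    refine ⟨_, _, ⟨m1, ?_⟩, ⟨m2, ?_⟩, u, hu, ?_⟩
    · intro s hs
      have := (hL S hv s hs).1
      beta_reduce
      rw [hf.2 s hs, chr, Complex.exp_nat_mul, Complex.exp_nat_mul, this, mul_pow]
    · intro s hs
      have := (hL S hv s hs).2
      beta_reduce
      rw [hf'.2 s hs, chr_twist, Complex.exp_nat_mul, Complex.exp_nat_mul, this, mul_pow]
    · rw [t1, t2, hR1, hR2]
      exact (hval _ _ _).1 he
  · intro h
    obtain ⟨f, f', hf, hf', u, hu, he⟩ := h φ₂ Θ₂ hφ₂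
    refine all_of_oneU U hPHIR ψ σ M S φ Θ hφ ?_
    obtain ⟨m1, t1⟩ := divL hLEULZ M _ hn z f hf.1
    obtain ⟨m2, t2⟩ := divL hLEULZ M _ hn (σ z) f' hf'.1
    refine ⟨_, _, ⟨m1, ?_⟩, ⟨m2, ?_⟩, u, hu, ?_⟩
    · intro s hs
      have := (hL S hv s hs).1
      have hne := pow_ne_zero M (euler_ne_zero hz hn hs)
      beta_reduce
      rw [hf.2 s hs, chr, Complex.exp_nat_mul, Complex.exp_nat_mul, this, mul_pow,
        mul_inv_cancel_right₀ hne]
    · intro s hs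
      have := (hL S hv s hs).2
      have hne := pow_ne_zero M (euler_ne_zero (conj_root hz σ) hn hs)
      beta_reduce
      rw [hf'.2 s hs, chr_twist, Complex.exp_nat_mul, Complex.exp_nat_mul, this, mul_pow,
        mul_inv_cancel_right₀ hne]
    · rw [t1, t2]
      refine (hval _ _ _).2 ?_
      rw [← hR1, ← hR2]
      have hc : ∀ (x y : ℂ), y ≠ 0 → x * y⁻¹ * y = x := by
        intro x y hy
        field_simp
      have hc1 : (if z = 1 then ((Real.log (Ideal.absNorm v.asIdeal) : ℝ) : ℂ) else 1 - z) ^ M ≠ 0 := by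
        refine pow_ne_zero M ?_
        split_ifs with h1
        · have : 0 < Real.log (Ideal.absNorm v.asIdeal) := Real.log_pos (by exact_mod_cast hn)
          exact_mod_cast this.ne'
        · exact sub_ne_zero.2 (Ne.symm h1)
      have hc2 : (if σ z = 1 then ((Real.log (Ideal.absNorm v.asIdeal) : ℝ) : ℂ) else 1 - σ z) ^ M
          ≠ 0 := by
        refine pow_ne_zero M ?_
        split_ifs with h1
        · have : 0 < Real.log (Ideal.absNorm v.asIdeal) := Real.log_pos (by exact_mod_cast hn)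
          exact_mod_cast this.ne'
        · exact sub_ne_zero.2 (Ne.symm h1)
      rw [hc _ _ hc1, hc _ _ hc2]
      exact he

end

theorem sindU (U : Subgroup ℂˣ) (K L : Type) [Field K] [NumberField K] [Field L] [NumberField L]
    [Algebra K L] [IsGalois K L] (ψ : (L ≃ₐ[K] L) →* ℂˣ) (σ : ℂ ≃+* ℂ) (M : ℕ)
    (S S₂ : Finset (HeightOneSpectrum (𝓞 K)))
    (φ : XQ L (aboveSet K L S) ≃ₗ[ℚ] QU L (aboveSet K L S))
    (Θ : XC L (aboveSet K L S) →ₗ[ℂ] XC L (aboveSet K L S))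
    (φ₂ : XQ L (aboveSet K L S₂) ≃ₗ[ℚ] QU L (aboveSet K L S₂))
    (Θ₂ : XC L (aboveSet K L S₂) →ₗ[ℂ] XC L (aboveSet K L S₂))
    (h : IsPhiTheta K (aboveSet K L S) φ Θ) (h₂ : IsPhiTheta K (aboveSet K L S₂) φ₂ Θ₂)
    (hS : AtU U M (S : Set (HeightOneSpectrum (𝓞 K))) (aboveSet K L S) Θ
      (linRep ψ) (linRep (twist σ ψ)) σ) :
    AtU U M (S₂ : Set (HeightOneSpectrum (𝓞 K))) (aboveSet K L S₂) Θ₂
      (linRep ψ) (linRep (twist σ ψ)) σ := by
  have key : ∀ S : Finset (HeightOneSpectrum (𝓞 K)),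
      PSU U K L ψ σ M S ↔ PSU U K L ψ σ M ∅ := by
    intro S
    induction S using Finset.induction_on with
    | empty => exact Iff.rfl
    | insert v S hv ih =>
      rw [← stepU U PHIR_thm SREG_thm SLF_thm LEULZ_thm SFULL.exph ψ σ M S v hv]
      exact ih
  have h1 : PSU U K L ψ σ M S := all_of_oneU U PHIR_thm ψ σ M S φ Θ h hS
  exact ((key S₂).2 ((key S).1 h1)) φ₂ Θ₂ h₂

end CGR

end StarkC
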