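import Pool.Agent.CGAP.Stmts2
import Pool.Agent.CUBH.Main3
import Pool.Agent.CUB2.Defs5

/-!
# CGR: the growth theorem (definitions and statements of the modules)

Module `X` proves `theorem t_X : M_X` (or `t_X : S_X` if there is no `M_X`) in the namespace `CGR`, in the file
`Pool/Agent/CGR/X.lean`, importing this file.  The hypotheses of `M_X` are statements of other modules.  ALL statements of the
project CUB are available as theorems `CUB.Asm.s_LOC`, `CUB.Asm.s_B3`, ... (`open CUB.Asm`); see `Pool/Agent/CUB/StmtsA.lean`, `StmtsB.lean`, `StmtsC.lean`; definitions `CUB/Defs.lean`, `CUB/Defs2.lean`.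
Lemmas for affine varieties: `Pool/Agent/CUB/BR1.lean`, ..., `BR5.lean` (`cyE`, `cyE_mem`, `surj_iff_cls`, `clo_ptE`, `complementary_away`, `isOpenImmersion_spm`, `lineX`).
Examples of the same kind: `Pool/Agent/CGAP/VCH.lean` (cycles), `VHO.lean` (homology), `DBL.lean`, `FAM.lean`.
-/

set_option autoImplicit false

open Polynomial CategoryTheory AlgebraicGeometry Cardinal

namespace CGR

open Pool.Agent.Lib_helper55.Beil Pool.Agent.Lib_helper66.OneP CUB CGAP

universe v

/-! ## Definitions -/

/-- `Spec C` is the coordinate cross over `Spec A`: the union of the two affine lines `x = 0` and `y = 0` over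
`Spec A` (with the coordinates `y` and `x`), meeting in `Spec A`. -/
structure Cross (k A C : Type) [Field k] [CommRing A] [CommRing C] [Algebra k A]
    [Algebra k C] where
  /-- the equation of the first line -/
  x : C
  /-- the equation of the second line -/
  y : C
  /-- the functions on the line `x = 0` -/
  φ : C →ₐ[k] A[X]
  /-- the functions on the line `y = 0` -/
  ψ : C →ₐ[k] A[X]
  hφ : Function.Surjective φ
  hψ : Function.Surjective ψ
  kφ : RingHom.ker φ.toRingHom = Ideal.span {x}
  kψ : RingHom.ker ψ.toRingHom = Ideal.span {y}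
  φy : φ y = X
  ψx : ψ x = X
  xy : x * y = 0

/-- The other order. -/
def Cross.swap {k A C : Type} [Field k] [CommRing A] [CommRing C] [Algebra k A] [Algebra k C]
    (K : Cross k A C) : Cross k A C where
  x := K.y
  y := K.x
  φ := K.ψ
  ψ := K.φ
  hφ := K.hψ
  hψ := K.hφ
  kφ := K.kψ
  kψ := K.kφ
  φy := K.ψx
  ψx := K.φy
  xy := by rw [mul_comm]; exact K.xy

variable {k : Type} [Field k]

/-- A line `Y = X × A^1` inside the product `P` of `X` and a projective line, with three sections. -/
structure P1D {Y X : Var k} (L : Line Y X) where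
  /-- the section `0` of the line -/
  z : ClosedIn X Y
  /-- the section `1` of the line -/
  o : ClosedIn X Y
  zq : z.g ≫ L.q = 𝟙 X.X
  zt : z.g ≫ L.t = X.f ≫ Spec.map (CommRingCat.ofHom (Polynomial.evalRingHom (0 : k)))
  oq : o.g ≫ L.q = 𝟙 X.X
  ot : o.g ≫ L.t = X.f ≫ Spec.map (CommRingCat.ofHom (Polynomial.evalRingHom (1 : k)))
  /-- the translation of the line by one -/
  τ : VIso Y Y
  hτ : τ.e.hom ≫ L.q = L.q
  τz : z.g ≫ τ.e.hom = o.g
  /-- the product of `X` and the projective line -/
  P : Var k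
  /-- the projection -/
  p : PrMor P X
  /-- the first chart -/
  j₀ : OpenIn Y P
  /-- the second chart -/
  j₁ : OpenIn Y P
  /-- the section `0` -/
  s₀ : ClosedIn X P
  /-- the section `1` -/
  s₁ : ClosedIn X P
  /-- the section at infinity -/
  s₂ : ClosedIn X P
  ps₀ : s₀.g ≫ p.g = 𝟙 X.X
  ps₁ : s₁.g ≫ p.g = 𝟙 X.X
  ps₂ : s₂.g ≫ p.g = 𝟙 X.X
  c₀ : Complementary s₂ j₀
  c₁ : Complementary s₀ j₁
  e₀ : z.g ≫ j₀.g = s₀.g
  e₁ : o.g ≫ j₀.g = s₁.g
  f₁ : o.g ≫ j₁.g = s₁.g
  f₂ : z.g ≫ j₁.g = s₂.g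

/-- Ranks grow at least by the factor `N` from `A` (dimension `i`) to `C` (dimension `j`), and the vanishing of
all cycles, or of all classes, is inherited. -/
structure Grow {E : Type} [Field E] (T : ∀ i : ℕ, Homology.{v} k E i) (i j N : ℕ) (X V : Var k) :
    Prop where
  cz : CZ E i X → CZ E j V
  clz : CLZ (T i) X → CLZ (T j) V
  chow : (N : Cardinal) * chowDim E i X ≤ chowDim E j V
  inv : N * invDim (T i) X ≤ invDim (T j) V

/-! ## 1. The zero section -/

/-- P1G. The product with the projective line. `PLine k` (`CUB2/Defs5.lean`) exists (S_PLI, theorem `CUB.Asm2.s_PLI` in `CUB2/Asm2.lean`; take it as hypothesis). `L.prod : IsPullback L.q L.t X.f (Spec k[X] → Spec k)` defines morphisms to `Y`: `z`, `o` from `𝟙` and the evaluations at `0`, `1`; they are sections of the separated morphism `L.q`, so closed immersions (`instance : IsClosedImmersion` of a section, as in `CUB2/G_SEC.lean`).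
`τ`: the isomorphism with `τ ≫ q = q`, `τ ≫ t = t ≫ Spec (X ↦ X + 1)`. `P = X.prod H.P` (the fibre product), `p` the first projection (proper: base change of `H.P.f`), `j₀`, `j₁` the morphisms `Y → X ×_k P` with components `q` and `t ≫ H.j₀.g`, resp. `t ≫ H.j₁.g` (base changes of the open immersions `H.j₀`, `H.j₁`: `Y = X ×_k A^1`), `s₀, s₁, s₂` = the sections defined by the compositions `z ≫ j₀`, `o ≫ j₀`, `z ≫ j₁` (closed immersions: sections of `p`).
`f₁`: `j₀ (1) = j₁ (1)`: the morphisms `Spec k → P` given by `1` in both charts agree by `H.glue` (evaluate `k[t, 1/t]` at `1`). `c₀`: a point of `X × P` is in the image of `j₀` iff its projection to `P` is in the image of `H.j₀` (`Scheme.Pullback.range_fst` and similar; see `CUB2/G_PRO.lean`, where this is done for `j₀` and the section at infinity); otherwise it is in the image of `H.j₁`, at a point of `A^1` where `s` is not invertible (`H.glue`), so it is in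
the closed subscheme `s = 0`, the image of the zero section. `c₁` is the same with `j₀` and `j₁` exchanged (`H.glue` is symmetric). -/
def S_P1G : Prop := ∀ (k : Type) [Field k] (Y X : Var k) (L : Line Y X), Nonempty (P1D L)

def M_P1G : Prop := (∀ (k : Type) [Field k], Nonempty (PLine k)) → S_P1G

/-- ZSE. The push-forward along the zero section of a line is zero. Let `D : P1D L`. `z = D.z` (both are determined by their compositions with `q`, `t`: `L.prod.hom_ext`). Notation: `n' = n + 2`, twist `i + 1`, `P = push`, `R = res`, `G` = push-forward along proper morphisms (`hT.G`; `hT.pfClosed`: it is `P` for closed immersions; `hT.pfFunctorial`), `γ` a class on `X`. (1) `τ` acts trivially on `H_(n')(Y)`: every class is `L m` (`hT.line_bij`), and `P τ.cl (L m) = L (P id m) = L m` (`hT.line_nat` with `sX` the identity, `hT.push_id`). So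
`P o γ = P τ.cl (P z γ) = P z γ` (`hT.push_comp`). (2) For a closed immersion `b : X → Y` and `s : X → P` with `b ≫ j = s`: `R j (P s γ) = P b γ`, from `hT.pfRestriction` for `s` and `b` as proper morphisms (`clPr`), the open immersions `j` and the identity of `X` (the square is a pullback because `j` is a monomorphism), and `R id = id` (`hT.clopen` with `a = id`, `j = id`, and `hT.push_id`). (3) `G p (P s γ) = γ` for the three sections. (4) `ε = P s₀ γ - P s₁ γ`: `R j₀ ε = P z γ - P o γ = 0`, so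
`ε = P s₂ β` (`(T (i + 1)).exact_X` for `c₀`), and `0 = G p ε = β`, so `ε = 0`. (5) `ε' = P s₁ γ - P s₂ γ`: `R j₁ ε' = P o γ - P z γ = 0`, so `ε' = P s₀ β'` (`c₁`), `0 = G p ε' = β'`, so `ε' = 0`. (6) So `P z γ = R j₀ (P s₀ γ) = R j₀ (P s₂ γ) = 0` (exactness for `c₀`). -/
def S_ZSE : Prop := ∀ (k E : Type) [Field k] [Field E] (T : ∀ i : ℕ, Homology.{v} k E i),
  Full T → ∀ (Y X : Var k) (L : Line Y X) (z : ClosedIn X Y), z.g ≫ L.q = 𝟙 X.X →
  z.g ≫ L.t = X.f ≫ Spec.map (CommRingCat.ofHom (Polynomial.evalRingHom (0 : k))) →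
  ∀ (i n : ℕ) (γ : (T (i + 1)).H (n + 2) X), (T (i + 1)).P (n + 2) z γ = 0

def M_ZSE : Prop := S_P1G → S_ZSE.{v}

/-- ZSA. Restriction from `Spec A[X]` to `Spec A[X, 1/X]` is injective. `ε : A[X] → A`, the evaluation at `0`, a surjective `k`-algebra homomorphism with kernel `(X)`; `clo ε` is the zero section of `lineX A`; S_ZSE; `complementary_away`, `exact_X`: an element of the kernel of the restriction is in the image of `P (clo ε)`. -/
def S_ZSA : Prop := ∀ (k E : Type) [Field k] [Field E] (T : ∀ i : ℕ, Homology.{v} k E i),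
  Full T → ∀ (A B : Type) [CommRing A] [CommRing B] [Algebra k A] [Algebra k B]
  [Algebra.FiniteType k A] [Algebra.FiniteType k B] (μ : A[X] →ₐ[k] B)
  (_ : @IsLocalization.Away A[X] _ X B _ μ.toRingHom.toAlgebra) (h : IsOpenImmersion (spm μ))
  (i n : ℕ) (m : (T (i + 1)).H (n + 2) (aff k A[X])),
  (T (i + 1)).R (n + 2) (opn μ h) m = 0 → m = 0

def M_ZSA : Prop := S_ZSE.{v} → S_ZSA.{v}

/-! ## 2. The cross -/

/-- CRV. Let `μ : A[X] → B` be the localisation away from `X`. Then `μ ∘ φ : C → B` is a localisation away from `y`: `φ` is surjective with kernel `(x)`, and `x y = 0`, so `x` is zero in every localisation away from `y`. (`IsLocalization.Away`: the image of `y` is `μ X`, a unit; every element of `B` is `μ (φ c) / (μ X)^n`; if `μ (φ c) = 0` then `X^n φ c = 0`, so `y^n c` is in the kernel of `φ`, `y^n c = x d`, and `y^(n+1) c = 0`.) -/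
def S_CRV : Prop := ∀ (k A B C : Type) [Field k] [CommRing A] [CommRing B] [CommRing C]
  [Algebra k A] [Algebra k B] [Algebra k C] (K : Cross k A C) (μ : A[X] →ₐ[k] B),
  (@IsLocalization.Away A[X] _ X B _ μ.toRingHom.toAlgebra) →
  @IsLocalization.Away C _ K.y B _ (μ.comp K.φ).toRingHom.toAlgebra

/-- GMI. Cycles whose pull-back to `Spec A[X, 1/X]` is rationally equivalent to zero. By `s_LOC` (first part, `I = ⊥`, `a = X`; `ratOn ⊥ = rat`) there is `ρ ∈ rat A[X]` with `κ = d - ρ` supported on `V(X)`. Let `ε : A[X] → A` be the evaluation at `0` (kernel `(X)`): `κ = push ε w` for a cycle `w` on `A` of dimension `n + 1` (`s_PUSH`, or directly). `κ ∈ rat A[X]`: by linearity let `w = [q]`; `P = ε⁻¹(q)`, `[P]` is the divisor of `X` on `V(q A[X])` (dimension `n + 2`): the sum of `q A[X]` and `(X)` is `P`, so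
`len (q A[X] ⊔ (X)) P = len P P = 1` and `len (..) P' = 0` for `P' ≠ P` of dimension `n + 1` (`s_LENC`, `s_DIM1`). (Or: the specialisation (`IsBeta`) of a cycle supported on `V(X)` is `0`, and `s_BINJ`.) So `d = κ + ρ ∈ rat A[X]`, and `z ∈ rat A` by `s_B2`, `s_B3` (`I = ⊥`). -/
def S_GMI : Prop := ∀ (k A B E : Type) [Field k] [PerfectField k] [CommRing A] [CommRing B]
  [Algebra k A] [Algebra k B] [Algebra.FiniteType k A] [Algebra.FiniteType k B] [Field E]
  (μ : A[X] →ₐ[k] B), (@IsLocalization.Away A[X] _ X B _ μ.toRingHom.toAlgebra) →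
  ∀ (n : ℕ) (z : RP k A n →₀ E) (d : RP k A[X] (n + 1) →₀ E) (d' : RP k B (n + 1) →₀ E),
  IsPull k E 1 (CC k A) z d → IsPull k E 0 μ d d' → d' ∈ rat k B E (n + 1) → z ∈ rat k A E n

/-- CRZ. Cycles on the cross. A prime `P` of `C` of dimension `n + 1` contains `x` or `y`, so `[P]` is the push-forward of a prime of `A[X]` along `φ` or `ψ`; so every cycle is `push φ c₁ + push ψ c₂`. By `s_L0` (1) `c₁ - d₁ ∈ rat` with `d₁` the pull-back of `z₁`, the same for `c₂`; `push` preserves `rat` (`CGAP.VCH.push_rat`, or `s_PUSH`, `s_RON`). -/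
def S_CRZ : Prop := ∀ (k A C E : Type) [Field k] [CommRing A] [CommRing C] [Algebra k A]
  [Algebra k C] [Algebra.FiniteType k A] [Algebra.FiniteType k C] [Field E] (K : Cross k A C)
  (n : ℕ) (c : RP k C (n + 1) →₀ E), ∃ (z₁ z₂ : RP k A n →₀ E) (d₁ d₂ : RP k A[X] (n + 1) →₀ E),
  IsPull k E 1 (CC k A) z₁ d₁ ∧ IsPull k E 1 (CC k A) z₂ d₂ ∧
  c - (push E K.φ K.hφ d₁ + push E K.ψ K.hψ d₂) ∈ rat k C E (n + 1)

/-- CRJ. The cycles on the two lines are independent. `B = Localization.Away (X : A[X])`, `μ` the canonical map. `c = push φ d₁ + push ψ d₂ ∈ rat C`. Its restriction to `B` along `μ ∘ φ` (a localisation away from `y`, S_CRV; `Good 0` by `s_GLO`; `s_FPX` gives the pull-back) is in `rat B` (`s_FP`, `I = ⊥`). It is the pull-back of `d₁` along `μ`: at a prime `P` of `B` of dimension `n + 1` both are `d₁ (μ⁻¹ P)`, because `φ⁻¹ μ⁻¹ P` does not contain `y` and `ψ⁻¹ Q` contains `y` for all `Q`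
(dimensions: `s_GLO` / `rdim_comap`). So `z₁ ∈ rat A` by S_GMI. For `z₂` use `K.swap`. -/
def S_CRJ : Prop := ∀ (k A C E : Type) [Field k] [PerfectField k] [CommRing A] [CommRing C]
  [Algebra k A] [Algebra k C] [Algebra.FiniteType k A] [Algebra.FiniteType k C] [Field E]
  (K : Cross k A C) (n : ℕ) (z₁ z₂ : RP k A n →₀ E) (d₁ d₂ : RP k A[X] (n + 1) →₀ E),
  IsPull k E 1 (CC k A) z₁ d₁ → IsPull k E 1 (CC k A) z₂ d₂ →
  push E K.φ K.hφ d₁ + push E K.ψ K.hψ d₂ ∈ rat k C E (n + 1) →
  z₁ ∈ rat k A E n ∧ z₂ ∈ rat k A E n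

def M_CRJ : Prop := S_CRV → S_GMI → S_CRJ

/-- CRC. Conclusions for Chow groups. (1) by S_CRZ, since the pull-back of `z ∈ rat A` is in `rat A[X]` (`s_FP`, `s_GX.1`, `I = ⊥`) and `push` preserves `rat`. (2) choose a linear pull-back map `D` (as in `CGAP.VCH.exists_D`; `s_FPX`, `s_PLIN`), `L z = push φ (D z.1) + push ψ (D z.2)`; one direction is S_CRJ, the other as in (1). -/
def S_CRC : Prop := ∀ (k A C E : Type) [Field k] [PerfectField k] [CommRing A] [CommRing C]
  [Algebra k A] [Algebra k C] [Algebra.FiniteType k A] [Algebra.FiniteType k C] [Field E]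
  (_ : Cross k A C) (n : ℕ),
  ((∀ z : RP k A n →₀ E, z ∈ rat k A E n) → ∀ c : RP k C (n + 1) →₀ E, c ∈ rat k C E (n + 1)) ∧
  ∃ L : ((RP k A n →₀ E) × (RP k A n →₀ E)) →ₗ[E] (RP k C (n + 1) →₀ E),
    ∀ z, L z ∈ rat k C E (n + 1) ↔ z.1 ∈ rat k A E n ∧ z.2 ∈ rat k A E n

def M_CRC : Prop := S_CRZ → S_CRJ → S_CRC

/-- CRH. Conclusions for homology. (1) `M (α₁, α₂) = P (clo φ) (ℓ α₁) + P (clo ψ) (ℓ α₂)` with `ℓ = hT.line i (2 * i) (lineX A)`. It commutes with Frobenius (`line_frob`, `push_frob`). Injective: let `M (α₁, α₂) = 0`, `B = Localization.Away (X : A[X])`, `μ` the canonical map; `opn (μ.comp φ)` is the open subvariety `y ≠ 0` of `Spec C` (S_CRV), complementary to `clo ψ`, so the restriction of the second summand is zero (`exact_X`), and the restriction of `P (clo φ) β` is the restriction of `β` along `opn μ`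
(`hT.pfRestriction` with `clo φ` and the identity of `Spec B` as proper morphisms, the open immersions `opn μ` and `opn (μ.comp φ)`: the square is a pullback because `clo φ` is a monomorphism; `hT.pfClosed`; the push-forward along the identity is the identity). So the restriction of `ℓ α₁` is zero, `ℓ α₁ = 0` by S_ZSA (`n = 2 * i`), `α₁ = 0` by `line_bij`. Use `K.swap` for `α₂`. (2) `cls z = 0` for all `z` on `A`: by S_CRZ `cls c = P (clo φ) (cls d₁) + P (clo ψ) (cls d₂)`
(cycles in `rat` have class zero; `CUB.cls` of a push-forward), and `cls d₁ = ℓ (cls z₁) = 0` (see `hline` in `CUB/V_RED.lean` and `CGAP/VHO.lean`). -/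
def S_CRH : Prop := ∀ (k E : Type) [Field k] [Field E] (T : ∀ i : ℕ, Homology.{v} k E i),
  Full T → ∀ (A C : Type) [CommRing A] [CommRing C] [Algebra k A] [Algebra k C]
  [Algebra.FiniteType k A] [Algebra.FiniteType k C] (_ : Cross k A C) (i : ℕ),
  (∃ M : ((T i).H (2 * i) (aff k A) × (T i).H (2 * i) (aff k A)) →ₗ[E]
      (T (i + 1)).H (2 * (i + 1)) (aff k C), Function.Injective M ∧
    ∀ a b, M ((T i).F (2 * i) _ a, (T i).F (2 * i) _ b) =
      (T (i + 1)).F (2 * (i + 1)) _ (M (a, b))) ∧
  ((∀ z : RP k A i →₀ E, CUB.cls T i z = 0) → ∀ c : RP k C (i + 1) →₀ E,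
    CUB.cls T (i + 1) c = 0)

def M_CRH : Prop := S_CRV → S_CRZ → S_ZSA.{v} → S_CRH.{v}

/-- CRG. The cross doubles the ranks. From rings to varieties as in `CGAP/AFC.lean`: `cyE_mem`, `Submodule.mapQ`; the Chow part of S_CRC gives an injective linear map `Chow E i (aff k A) × Chow E i (aff k A) → Chow E (i + 1) (aff k C)`, so `2 * chowDim ≤ chowDim` (`rank_prod'`, `LinearMap.rank_le_of_injective`), the map of S_CRH restricts to the invariants (`Module.finrank_prod`, `LinearMap.finrank_le_finrank_of_injective`; compare `CGAP.BND`). -/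
def S_CRG : Prop := ∀ (k E : Type) [Field k] [PerfectField k] [Field E]
  (T : ∀ i : ℕ, Homology.{v} k E i),
  Full T → ∀ (A C : Type) [CommRing A] [CommRing C] [Algebra k A] [Algebra k C]
  [Algebra.FiniteType k A] [Algebra.FiniteType k C] (_ : Cross k A C) (i : ℕ),
  Grow T i (i + 1) 2 (aff k A) (aff k C)

def M_CRG : Prop := S_CRC → S_CRH.{v} → S_CRG.{v}

/-! ## 3. Presentations -/

/-- GDC. The ring of the cross and its presentation. `C = MvPolynomial (Fin 2) A / (X 0 * X 1)`, or any other ring, with `x`, `y` the classes of the variables, `φ : X 0 ↦ 0, X 1 ↦ X`, `ψ : X 0 ↦ X, X 1 ↦ 0`, constants to constants. The kernel of `φ` is generated by `x` (`φ` induces an isomorphism of `C / x` with `A[X]`). If `Good k A B (Fin N) (Fin M)` holds with `f, φ', H, b` (`CUBH/Unfold.lean`; `Sp3` in `CUBH/Sp3.lean`) then take the variables `Fin (N + 2)`: the old ones and `u, v`; the homomorphism to `C` given by `φ'`, `u ↦ x`, `v ↦ y` is surjective with kernel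
generated by the `f j` (renamed) and `u v`; `Sp3` for the new equation `u v`: `H = {{u, v}}`, `b = 0`; every old vertex is in the same edges, `u` and `v` are in one edge. See `Good.addZero`, `Good.reindex` and the proofs in `Unfold.lean`. (It may be convenient to work with the variables `Fin N ⊕ Fin 2` and the equations `Fin M ⊕ Unit`, and to reindex at the end; `A[u, v]` and `MvPolynomial (Fin N ⊕ Fin 2) k`: `MvPolynomial.sumAlgEquiv`.) -/
def S_GDC : Prop := ∀ (k A : Type) [Field k] [CommRing A] [Algebra k A] [Algebra.FiniteType k A],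
  ∃ (C : Type) (_ : CommRing C) (_ : Algebra k C) (_ : Algebra.FiniteType k C),
    Nonempty (Cross k A C) ∧ ∀ (B : Set k) (N M : ℕ), HG.Good k A B (Fin N) (Fin M) →
      HG.Good k C B (Fin (N + 2)) (Fin (M + 1))

/-! ## 4. The family -/

/-- FMG. As S_FAM (`CGAP/FAM.lean`), for the iterated crosses: by induction on `j` there is `C` with `Good k C B (Fin (N + 2 * j)) (Fin (M + j))` and `Grow T i (i + j) (2 ^ j) (aff k A) (aff k C)` (S_GDC, S_CRG; `Grow` composes). `exists_good` gives `n₀, N, m` with `N + (m + 1) = 3 n₀`, `2 n₀ = i + (m + 1)`; for `C` the numbers are `N + 2 j`, `m + 1 + j`, `n₀ + j`, dimension `i + j`. The proof of S_FAM gives `Ctl T (i + j) (2 * (n₀ + j)) (aff k C) V` for the hypersurface `V`, and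
`Ctl` gives `Grow` with the factor one. Isomorphic varieties: `X ≅ aff k A`. -/
def S_FMG : Prop := ∀ (k E : Type) [Field k] [Finite k] [Field E] [CharZero E]
  (B : Set k), Subring.closure B = ⊤ → ∀ (T : ∀ i : ℕ, Homology.{v} k E i), Full T →
  ∀ (i : ℕ) (X : Var k), IsAffine X.X → ∃ n₀ : ℕ, ∀ j : ℕ,
    ∃ (H : Finset (Finset (Fin (3 * (n₀ + j))))) (c : Fin (3 * (n₀ + j)) → k), Sparse H ∧
      (∀ v, c v = 0 ∨ c v ∈ B) ∧ Smooth (cubic (hyp H c)).f ∧
      Grow T i (2 * (n₀ + j)) (2 ^ j) X (cubic (hyp H c))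

def M_FMG : Prop := S_VCH → S_VHO.{v} → S_TRA.{v} → S_AFC.{v} → S_CRG.{v} → S_GDC → S_FMG.{v}

end CGR
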