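import Pool.Agent.CGR.SINDU
import Pool.Agent.EXSG.SIG1
import Pool.Agent.RIG.LIM
import Pool.Agent.CGR.PDefsC

/-!
# Stark's assertion up to a factor in a group: linear characters and induction
-/

set_option autoImplicit false

open NumberField IsDedekindDomain
open scoped TensorProduct Classical

namespace StarkC

namespace CGR

/-- `LinS` up to a factor in `U`. -/
def LinU (U : Subgroup ℂˣ) (σ : ℂ ≃+* ℂ) (K L : Type) [Field K] [NumberField K] [Field L]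
    [NumberField L] [Algebra K L] (ψ : (L ≃ₐ[K] L) →* ℂˣ) : Prop :=
  ∀ (S : Finset (HeightOneSpectrum (𝓞 K)))
    (φ : XQ L (aboveSet K L S) ≃ₗ[ℚ] QU L (aboveSet K L S))
    (Θ : XC L (aboveSet K L S) →ₗ[ℂ] XC L (aboveSet K L S)),
    IsPhiTheta K (aboveSet K L S) φ Θ →
    AtU U 1 (S : Set (HeightOneSpectrum (𝓞 K))) (aboveSet K L S) Θ (linRep ψ)
      (linRep (twist σ ψ)) σ

/-- `InfS` up to a factor in `U`. -/
def InfU (U : Subgroup ℂˣ) (σ : ℂ ≃+* ℂ) (K L : Type) [Field K] [NumberField K] [Field L]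
    [NumberField L] [Algebra K L] (ψ : (L ≃ₐ[K] L) →* ℂˣ) : Prop :=
  ∀ (φ : XQ L (aboveSet K L (∅ : Finset (HeightOneSpectrum (𝓞 K)))) ≃ₗ[ℚ]
      QU L (aboveSet K L (∅ : Finset (HeightOneSpectrum (𝓞 K)))))
    (Θ : XC L (aboveSet K L (∅ : Finset (HeightOneSpectrum (𝓞 K)))) →ₗ[ℂ]
      XC L (aboveSet K L (∅ : Finset (HeightOneSpectrum (𝓞 K))))),
    IsPhiTheta K (aboveSet K L (∅ : Finset (HeightOneSpectrum (𝓞 K)))) φ Θ →
    AtU U 1 ((∅ : Finset (HeightOneSpectrum (𝓞 K))) : Set (HeightOneSpectrum (𝓞 K)))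
      (aboveSet K L (∅ : Finset (HeightOneSpectrum (𝓞 K)))) Θ (linRep ψ) (linRep (twist σ ψ)) σ

theorem atU_of_starkAt (U : Subgroup ℂˣ) {K L : Type} [Field K] [NumberField K] [Field L]
    [NumberField L] [Algebra K L] {S : Set (HeightOneSpectrum (𝓞 K))}
    {T : Set (HeightOneSpectrum (𝓞 L))} {Θ : XC L T →ₗ[ℂ] XC L T}
    {V V' : Type} [AddCommGroup V] [Module ℂ V] [AddCommGroup V'] [Module ℂ V']
    {ρ : Representation ℂ (L ≃ₐ[K] L) V} {ρ' : Representation ℂ (L ≃ₐ[K] L) V'}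
    {σ : ℂ ≃+* ℂ} (h : StarkAt S T Θ ρ ρ' σ) : AtU U 1 S T Θ ρ ρ' σ := by
  obtain ⟨f, f', hf, hf', hE⟩ := (SMAIN.starkAt_of_one _ _ _ _ _ _).2 h
  exact ⟨f, f', hf, hf', 1, U.one_mem, by rw [Units.val_one, one_mul]; exact hE⟩

/-- From the field cut out by `ψ` and `S = ∅` to `N` and any `S`. -/
theorem upU (U : Subgroup ℂˣ) (σ : ℂ ≃+* ℂ)
    (F L N : Type) [Field F] [NumberField F] [Field L] [NumberField L] [Field N] [NumberField N]
    [Algebra F L] [Algebra F N] [Algebra L N] [IsScalarTower F L N] [IsGalois F L] [IsGalois F N]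
    (ψ' : (L ≃ₐ[F] L) →* ℂˣ) (h : InfU U σ F L ψ') (ψ : (N ≃ₐ[F] N) →* ℂˣ)
    (hψ : ∀ g : N ≃ₐ[F] N, ψ' (AlgEquiv.restrictNormalHom L g : L ≃ₐ[F] L) = ψ g) :
    LinU U σ F N ψ := by
  have hψ2 : ψ = ψ'.comp (AlgEquiv.restrictNormalHom L) := by
    refine MonoidHom.ext fun g => ?_
    exact (hψ g).symm
  subst hψ2
  intro S φ Θ hφ
  obtain ⟨φ₀, Θ₀, h₀⟩ := SFULL.exph F L ∅
  have hst := h φ₀ Θ₀ h₀
  obtain ⟨φ₁, Θ₁, h₁, hReg⟩ := RFULL.infl F L N ∅ φ₀ Θ₀ h₀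
  obtain ⟨f, f', hf, hf', u, hu, hEq⟩ := hst
  have h2 : AtU U 1
      ((∅ : Finset (HeightOneSpectrum (𝓞 F))) : Set (HeightOneSpectrum (𝓞 F)))
      (aboveSet F N (∅ : Finset (HeightOneSpectrum (𝓞 F)))) Θ₁
      (linRep (ψ'.comp (AlgEquiv.restrictNormalHom L)))
      (linRep (twist σ (ψ'.comp (AlgEquiv.restrictNormalHom L)))) σ := by
    refine ⟨f, f', ⟨hf.1, fun s hs => ?_⟩, ⟨hf'.1, fun s hs => ?_⟩, u, hu, ?_⟩
    · rw [hf.2 s hs, BASEQ.linRep_comp, MAIN.logL_infl LINF_thm]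
    · rw [hf'.2 s hs]
      have h1 := MAIN.logL_infl LINF_thm F L N ℂ (linRep (twist σ ψ'))
        ((∅ : Finset (HeightOneSpectrum (𝓞 F))) : Set (HeightOneSpectrum (𝓞 F))) s
      rw [← h1]
      rfl
    · have h1 := hReg ℂ (linRep ψ')
      have h2 := hReg ℂ (linRep (twist σ ψ'))
      rw [← h1, ← h2] at hEq
      exact hEq
  exact sindU U F N (ψ'.comp (AlgEquiv.restrictNormalHom L)) σ 1 ∅ S φ₁ Θ₁ φ Θ h₁ hφ h2

/-- `LinU` for data given on a set `T` equal to `aboveSet F L S`. -/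
theorem linU_cast {U : Subgroup ℂˣ} {σ : ℂ ≃+* ℂ} {F L : Type} [Field F] [NumberField F] [Field L]
    [NumberField L] [Algebra F L] {ψ : (L ≃ₐ[F] L) →* ℂˣ} (h : LinU U σ F L ψ)
    (S : Finset (HeightOneSpectrum (𝓞 F))) (T : Set (HeightOneSpectrum (𝓞 L)))
    (hT : aboveSet F L (S : Set (HeightOneSpectrum (𝓞 F))) = T)
    (φ : XQ L T ≃ₗ[ℚ] QU L T) (Θ : XC L T →ₗ[ℂ] XC L T) (hφ : IsPhiTheta F T φ Θ) :
    AtU U 1 (S : Set (HeightOneSpectrum (𝓞 F))) T Θ (linRep ψ) (linRep (twist σ ψ)) σ := by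
  subst hT
  exact h S φ Θ hφ

/-- Induction with factors. -/
theorem indU (U : Subgroup ℂˣ) (σ : ℂ ≃+* ℂ) (K N : Type) [Field K] [NumberField K] [Field N]
    [NumberField N] [Algebra K N] [IsGalois K N]
    (S : Finset (HeightOneSpectrum (𝓞 K)))
    (φ : XQ N (aboveSet K N S) ≃ₗ[ℚ] QU N (aboveSet K N S))
    (Θ : XC N (aboveSet K N S) →ₗ[ℂ] XC N (aboveSet K N S))
    (V V' : Type) [AddCommGroup V] [Module ℂ V] [Module.Finite ℂ V]
    [AddCommGroup V'] [Module ℂ V'] [Module.Finite ℂ V']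
    (ρ : Representation ℂ (N ≃ₐ[K] N) V) (ρ' : Representation ℂ (N ≃ₐ[K] N) V')
    (m : ℕ) (H : Fin m → Subgroup (N ≃ₐ[K] N)) (ψ : ∀ i, H i →* ℂˣ) (n : Fin m → ℤ)
    (hφ : IsPhiTheta K (aboveSet K N S) φ Θ) (hσ : ∀ g, ρ'.character g = σ (ρ.character g))
    (hchar : ∀ g, ρ.character g = ∑ i, (n i : ℂ) * indFun (H i) (extZ (ψ i)) g)
    (hgood : ∀ i, LinU U σ (IntermediateField.fixedField (H i)) N (liftChar (H i) (ψ i))) :
    AtU U 1 (S : Set (HeightOneSpectrum (𝓞 K))) (aboveSet K N S) Θ ρ ρ' σ := by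
  have hTf : (aboveSet K N (S : Set (HeightOneSpectrum (𝓞 K)))).Finite :=
    IND.aboveSet_finite _ S.finite_toSet
  have hT := STB_thm K N (S : Set (HeightOneSpectrum (𝓞 K)))
  have hc := ALLT.thc K N _ hT φ Θ hTf hφ
  have hb := ALLT.thb K N _ φ Θ hTf hφ
  have hχ : ∀ g, ((1 : ℕ) : ℂ) * ρ.character g =
      ∑ i, (n i : ℂ) * indFun (H i) (extZ (ψ i)) g := fun g => by
    rw [Nat.cast_one, one_mul]
    exact hchar g
  have hlin : ∀ i, ∃ S' : Finset (HeightOneSpectrum (𝓞 (IntermediateField.fixedField (H i)))),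
      aboveSet (IntermediateField.fixedField (H i)) N S' = aboveSet K N S ∧
      AtU U 1 (S' : Set (HeightOneSpectrum (𝓞 (IntermediateField.fixedField (H i)))))
        (aboveSet K N S) Θ (linRep (liftChar (H i) (ψ i)))
        (linRep (twist σ (liftChar (H i) (ψ i)))) σ := by
    intro i
    obtain ⟨S', hS'⟩ := IND.exists_S' (IntermediateField.fixedField (H i))
      (S : Set (HeightOneSpectrum (𝓞 K))) S.finite_toSet
    exact ⟨S', hS', linU_cast (hgood i) S' _ hS' φ Θ (IND.isPhiTheta_sub _ hφ)⟩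
  choose S' hS' f f' hf hf' u hu hE using hlin
  have hχ' : ∀ g, ((1 : ℕ) : ℂ) * ρ'.character g =
      ∑ i, (n i : ℂ) * indFun (H i) (extZ (twist σ (ψ i))) g := by
    intro g
    have h1 : ((1 : ℕ) : ℂ) * ρ'.character g = σ (((1 : ℕ) : ℂ) * ρ.character g) := by
      rw [hσ g, map_mul, map_natCast]
    rw [h1, hχ g, map_sum]
    refine Finset.sum_congr rfl fun i _ => ?_
    rw [map_mul, map_intCast, IND.twist_indFun]
  have hlift : ∀ i, twist σ (liftChar (H i) (ψ i)) = liftChar (H i) (twist σ (ψ i)) :=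
    fun i => rfl
  have hart : ∀ (χ : (N ≃ₐ[K] N) → ℂ) (ψ : ∀ i, H i →* ℂˣ) (f : Fin m → ℂ → ℂ),
      (∀ g, ((1 : ℕ) : ℂ) * χ g = ∑ i, (n i : ℂ) * indFun (H i) (extZ (ψ i)) g) →
      (∀ i, IsArtinLMul 1 (linRep (liftChar (H i) (ψ i))).character (S' i) (f i)) →
      IsArtinLMul 1 χ (S : Set (HeightOneSpectrum (𝓞 K))) (fun z => ∏ i, f i z ^ (n i)) := by
    intro χ ψ f hχ hf
    have h1 := INDP.artin_comb LA_thm ALLT.lb ALLT.lind (S : Set (HeightOneSpectrum (𝓞 K))) χ 1 m H ψ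
      n hχ (fun i => S' i) hS' (fun _ => 1) (fun _ => 1) 1 (fun _ => rfl) f fun i => by
        have := hf i
        rwa [IND.linRep_character] at this
    simpa using h1
  refine ⟨fun z => ∏ i, f i z ^ (n i), fun z => ∏ i, f' i z ^ (n i), hart _ _ _ hχ hf,
    hart _ _ _ hχ' hf', ∏ i, u i ^ n i, Subgroup.prod_mem _ fun i _ => U.zpow_mem (hu i) _, ?_⟩
  have hreg : ∀ (V : Type) [AddCommGroup V] [Module ℂ V] [Module.Finite ℂ V]
      (ρ : Representation ℂ (N ≃ₐ[K] N) V) (ψ : ∀ i, H i →* ℂˣ),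
      (∀ g, ((1 : ℕ) : ℂ) * ρ.character g = ∑ i, (n i : ℂ) * indFun (H i) (extZ (ψ i)) g) →
      Reg (aboveSet K N (S : Set (HeightOneSpectrum (𝓞 K)))) ρ Θ ^ 1 =
        ∏ i, Reg (aboveSet K N (S : Set (HeightOneSpectrum (𝓞 K))))
          (linRep (liftChar (H i) (ψ i))) Θ ^ n i := by
    intro V _ _ _ ρ ψ hχ
    exact INDP.reg_comb TRD_thm ALLT.rgt hTf hT Θ hb hc V ρ 1 m H ψ n hχ
  have hlead : meromorphicTrailingCoeffAt (fun z => ∏ i, f i z ^ (n i)) 0 =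
      ∏ i, meromorphicTrailingCoeffAt (f i) 0 ^ (n i) :=
    INDT.lead_comb (fun i => n i) f fun i => (hf i).1 0
  have hlead' : meromorphicTrailingCoeffAt (fun z => ∏ i, f' i z ^ (n i)) 0 =
      ∏ i, meromorphicTrailingCoeffAt (f' i) 0 ^ (n i) :=
    INDT.lead_comb (fun i => n i) f' fun i => (hf' i).1 0
  rw [hlead, hlead', hreg V ρ ψ hχ, hreg V' ρ' (fun i => twist σ (ψ i)) hχ',
    ← Finset.prod_div_distrib, ← Finset.prod_div_distrib, map_prod, Units.coe_prod,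
    ← Finset.prod_mul_distrib]
  refine Finset.prod_congr rfl fun i _ => ?_
  have h1 := hE i
  rw [pow_one, pow_one] at h1
  rw [← div_zpow, ← div_zpow, map_zpow₀, Units.val_zpow_eq_zpow_val, ← mul_zpow, h1]
  rfl

/-- The assertion for a representation of `Gal(L/K)` from a combination of induced characters over
a larger field. -/
theorem of_combU (U : Subgroup ℂˣ) (σ : ℂ ≃+* ℂ)
    {K L N : Type} [Field K] [NumberField K] [Field L] [NumberField L] [Field N] [NumberField N]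
    [Algebra K L] [Algebra K N] [Algebra L N] [IsScalarTower K L N] [IsGalois K L] [IsGalois K N]
    (S : Finset (HeightOneSpectrum (𝓞 K)))
    (φ : XQ L (aboveSet K L S) ≃ₗ[ℚ] QU L (aboveSet K L S))
    (Θ : XC L (aboveSet K L S) →ₗ[ℂ] XC L (aboveSet K L S))
    (V V' : Type) [AddCommGroup V] [Module ℂ V] [Module.Finite ℂ V]
    [AddCommGroup V'] [Module ℂ V'] [Module.Finite ℂ V']
    (ρ : Representation ℂ (L ≃ₐ[K] L) V) (ρ' : Representation ℂ (L ≃ₐ[K] L) V')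
    (hφ : IsPhiTheta K (aboveSet K L S) φ Θ) (hσ : ∀ g, ρ'.character g = σ (ρ.character g))
    {ι : Type} [Fintype ι] (H : ι → Subgroup (N ≃ₐ[K] N)) (ψ : ∀ i, H i →* ℂˣ) (n : ι → ℤ)
    (hchar : ∀ g : N ≃ₐ[K] N, ρ.character (AlgEquiv.restrictNormalHom L g) =
        ∑ i, (n i : ℂ) * indFun (H i) (extZ (ψ i)) g)
    (hgood : ∀ i, LinU U σ (IntermediateField.fixedField (H i)) N (liftChar (H i) (ψ i))) :
    AtU U 1 (S : Set (HeightOneSpectrum (𝓞 K))) (aboveSet K L S) Θ ρ ρ' σ := by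
  obtain ⟨φ', Θ', hφ', hR⟩ := RFULL.infl K L N S φ Θ hφ
  let e := Fintype.equivFin ι
  have hchar' : ∀ g : N ≃ₐ[K] N, ρ.character (AlgEquiv.restrictNormalHom L g) =
      ∑ j : Fin (Fintype.card ι), (n (e.symm j) : ℂ) *
        indFun (H (e.symm j)) (extZ (ψ (e.symm j))) g := by
    intro g
    rw [hchar g]
    exact Fintype.sum_equiv e _ _ fun i => by rw [Equiv.symm_apply_apply]
  have h3 := indU U σ K N S φ' Θ' V V' (ρ.comp (AlgEquiv.restrictNormalHom L))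
    (ρ'.comp (AlgEquiv.restrictNormalHom L)) (Fintype.card ι) (fun j => H (e.symm j))
    (fun j => ψ (e.symm j)) (fun j => n (e.symm j)) hφ' (fun g => hσ _) hchar'
    (fun j => hgood (e.symm j))
  obtain ⟨f, f', hf, hf', u, hu, hE⟩ := h3
  refine ⟨f, f', ⟨hf.1, fun s hs => ?_⟩, ⟨hf'.1, fun s hs => ?_⟩, u, hu, ?_⟩
  · rw [hf.2 s hs, MAIN.logL_infl LINF_thm]
  · rw [hf'.2 s hs, MAIN.logL_infl LINF_thm]
  · rw [hR V ρ, hR V' ρ'] at hE
    exact hE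

/-- The assertion for a linear character from a base change with integral weights. -/
theorem base_linearU (U : Subgroup ℂˣ) (σ : ℂ ≃+* ℂ) (F N N' : Type) [Field F] [NumberField F]
    [Field N] [NumberField N] [Field N'] [NumberField N'] [Algebra F N] [Algebra N N']
    [Algebra F N'] [IsScalarTower F N N'] [IsGalois F N] [IsGalois F N'] (ψ : (N ≃ₐ[F] N) →* ℂˣ)
    (A : Fin 5 → Subgroup (N' ≃ₐ[F] N')) (ψA : ∀ r, A r →* ℂˣ) (n : Fin 5 → ℤ)
    (hψA : ∀ r (h : A r) (g : N ≃ₐ[F] N),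
      (∀ z : N, (h : N' ≃ₐ[F] N') (algebraMap N N' z) = algebraMap N N' (g z)) →
      ψA r h = ψ g)
    (hid : ∀ g : N' ≃ₐ[F] N', ∑ r, (n r : ℂ) * indFun (A r) (fun _ => 1) g = 1)
    (hst : ∀ r, LinU U σ (IntermediateField.fixedField (A r)) N' (liftChar (A r) (ψA r))) :
    LinU U σ F N ψ := by
  intro S φ Θ hφ
  refine of_combU U σ (N := N') S φ Θ ℂ ℂ (linRep ψ)
    (linRep (twist σ ψ)) hφ ?_ A ψA n ?_ hst
  · intro g
    rw [MAIN.linRep_character, MAIN.linRep_character]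
    rfl
  · intro g
    rw [MAIN.linRep_character]
    have h1 : ∀ r, (n r : ℂ) * indFun (A r) (extZ (ψA r)) g =
        ((ψ (AlgEquiv.restrictNormalHom N g) : ℂˣ) : ℂ) *
          ((n r : ℂ) * indFun (A r) (fun _ => 1) g) := by
      intro r
      rw [SSQSBCG.ind_eq ψ (A r) (ψA r) (hψA r) g]
      ring
    rw [Finset.sum_congr rfl fun r _ => h1 r, ← Finset.mul_sum, hid g, mul_one]

/-! ### The group `U_p` -/

/-- The numbers `≡ 1` modulo `p`. -/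
noncomputable def Um (p : ℕ) : Subgroup ℂˣ :=
  ⨅ (O : ValuationSubring ℂ) (_ : (p : ℂ) ∈ O.nonunits), O.principalUnitGroup

theorem mem_Um (p : ℕ) (u : ℂˣ) : u ∈ Um p ↔ ∀ O : ValuationSubring ℂ, (p : ℂ) ∈ O.nonunits →
    (u : ℂ) - 1 ∈ O.nonunits := by
  unfold Um
  rw [Subgroup.mem_iInf]
  refine forall_congr' fun O => ?_
  rw [Subgroup.mem_iInf]
  refine forall_congr' fun _ => ?_
  rw [ValuationSubring.mem_principalUnitGroup_iff, ValuationSubring.mem_nonunits_iff]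

theorem congMod_iff (p : ℕ) (x y : ℂ) : StarkW.CongMod p x y ↔ ∃ u ∈ Um p, x = (u : ℂ) * y := by
  unfold StarkW.CongMod
  refine exists_congr fun u => ?_
  rw [mem_Um]
  exact and_comm

theorem artin_one {K L : Type} [Field K] [NumberField K] [Field L] [NumberField L] [Algebra K L]
    (χ : (L ≃ₐ[K] L) → ℂ) (S : Set (HeightOneSpectrum (𝓞 K))) (f : ℂ → ℂ) :
    IsArtinLMul 1 χ S f ↔ IsArtinL χ S f := by
  unfold IsArtinLMul IsArtinL
  rw [Nat.cast_one]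
  simp only [one_mul]

theorem linMod_iff (p : ℕ) (σ : ℂ ≃+* ℂ) {K L : Type} [Field K] [NumberField K] [Field L]
    [NumberField L] [Algebra K L] [IsGalois K L] (ψ : (L ≃ₐ[K] L) →* ℂˣ) :
    StarkW.LinMod p σ ∅ ψ ↔ InfU (Um p) σ K L ψ := by
  have hT := StarkC.STB_thm K L ((∅ : Finset (HeightOneSpectrum (𝓞 K))) :
    Set (HeightOneSpectrum (𝓞 K)))
  have hfin : (StarkC.aboveSet K L ((∅ : Finset (HeightOneSpectrum (𝓞 K))) :
      Set (HeightOneSpectrum (𝓞 K)))).Finite :=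
    StarkC.IND.aboveSet_finite _ (Finset.finite_toSet _)
  unfold StarkW.LinMod InfU
  rw [StarkB.aboveSet_eq]
  constructor
  · intro h φ Θ hφ
    obtain ⟨Θ', hΘ'⟩ := LinearMap.exists_extend (p := StarkC.XCsub L
        (StarkC.aboveSet K L ((∅ : Finset (HeightOneSpectrum (𝓞 K))) :
          Set (HeightOneSpectrum (𝓞 K)))))
      (StarkC.XC.val ∘ₗ Θ : StarkC.XCsub L
        (StarkC.aboveSet K L ((∅ : Finset (HeightOneSpectrum (𝓞 K))) :
          Set (HeightOneSpectrum (𝓞 K)))) →ₗ[ℂ] ((L → ℝ) →₀ ℂ))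
    have h1 : ∀ x : StarkC.XC L (StarkC.aboveSet K L
        ((∅ : Finset (HeightOneSpectrum (𝓞 K))) : Set (HeightOneSpectrum (𝓞 K)))),
        Θ' x.val = (Θ x).val := fun x => LinearMap.congr_fun hΘ' x
    obtain ⟨f, f', hf, hf', hff⟩ := h Θ' (StarkB.isTheta_of hT hfin φ Θ hφ Θ' h1)
    rw [congMod_iff] at hff
    obtain ⟨u, hu, hE⟩ := hff
    refine ⟨f, f', (artin_one _ _ _).2 hf, (artin_one _ _ _).2 hf', u, hu, ?_⟩
    rw [pow_one, pow_one, ← StarkB.Reg_eq _ Θ Θ' h1, ← StarkB.Reg_eq _ Θ Θ' h1]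
    exact hE
  · intro h Θ' hΘ'
    obtain ⟨φ, Θ, hφ, h1⟩ := StarkB.exists_phiTheta hT hfin (StarkB.actU_mem' _) Θ' hΘ'
    obtain ⟨f, f', hf, hf', u, hu, hE⟩ := h φ Θ hφ
    refine ⟨f, f', (artin_one _ _ _).1 hf, (artin_one _ _ _).1 hf', ?_⟩
    rw [congMod_iff]
    refine ⟨u, hu, ?_⟩
    rw [pow_one, pow_one] at hE
    rw [StarkB.Reg_eq _ Θ Θ' h1, StarkB.Reg_eq _ Θ Θ' h1]
    exact hE

/-! ### The limit -/

/-- If the assertion holds up to a factor in `Um p` for infinitely many `p` it holds. -/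
theorem of_all {K L : Type} [Field K] [NumberField K] [Field L]
    [NumberField L] [Algebra K L] {S : Set (HeightOneSpectrum (𝓞 K))}
    {T : Set (HeightOneSpectrum (𝓞 L))} {Θ : XC L T →ₗ[ℂ] XC L T}
    {V V' : Type} [AddCommGroup V] [Module ℂ V] [AddCommGroup V'] [Module ℂ V']
    {ρ : Representation ℂ (L ≃ₐ[K] L) V} {ρ' : Representation ℂ (L ≃ₐ[K] L) V'}
    {σ : ℂ ≃+* ℂ} (P : Set ℕ) (hne : P.Nonempty)
    (hZ : ∀ z : ℂ, (∀ p ∈ P, ∀ O : ValuationSubring ℂ, (p : ℂ) ∈ O.nonunits →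
      z - 1 ∈ O.nonunits) → z = 1)
    (h : ∀ p ∈ P, AtU (Um p) 1 S T Θ ρ ρ' σ) : StarkAt S T Θ ρ ρ' σ := by
  refine (SMAIN.starkAt_of_one _ _ _ _ _ _).1 ?_
  obtain ⟨p₀, hp₀⟩ := hne
  obtain ⟨f, f', hf, hf', u, hu, hE⟩ := h p₀ hp₀
  refine ⟨f, f', hf, hf', ?_⟩
  by_cases h0 : Reg T ρ' Θ ^ 1 / meromorphicTrailingCoeffAt f' 0 = 0
  · rw [h0, mul_zero] at hE
    rw [h0, hE]
  have hu1 : (u : ℂ) = 1 := by
    refine hZ _ fun p hp => ?_
    obtain ⟨g, g', hg, hg', w, hw, hE2⟩ := h p hp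
    have e1 : meromorphicTrailingCoeffAt g 0 = meromorphicTrailingCoeffAt f 0 :=
      RIG.trail_unique hg.1 hf.1 fun s hs => by rw [hg.2 s hs, hf.2 s hs]
    have e2 : meromorphicTrailingCoeffAt g' 0 = meromorphicTrailingCoeffAt f' 0 :=
      RIG.trail_unique hg'.1 hf'.1 fun s hs => by rw [hg'.2 s hs, hf'.2 s hs]
    rw [e1, e2, hE] at hE2
    have e3 : (u : ℂ) = w := mul_right_cancel₀ h0 hE2
    rw [e3]
    exact (mem_Um p w).1 hw
  rw [hE, hu1, one_mul]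

end CGR

end StarkC
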